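import Mathlib

/-!
Graphs given by a parent function, and lower bounds for distances by 1-Lipschitz functions.
-/

namespace X70

open SimpleGraph

variable {V : Type*}

/-- The graph of a parent function `par` with root `r`. -/
def parGraph (r : V) (par : V → V) : SimpleGraph V where
  Adj u v := u ≠ v ∧ ((u ≠ r ∧ par u = v) ∨ (v ≠ r ∧ par v = u))
  symm := ⟨fun u v h => ⟨h.1.symm, h.2.symm⟩⟩
  loopless := ⟨fun u h => h.1 rfl⟩

theorem parGraph_adj {r : V} {par : V → V} {u v : V} :
    (parGraph r par).Adj u v ↔ u ≠ v ∧ ((u ≠ r ∧ par u = v) ∨ (v ≠ r ∧ par v = u)) := Iff.rfl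

theorem par_ne {r : V} {par : V → V} {dep : V → ℕ}
    (hd : ∀ v, v ≠ r → dep v = dep (par v) + 1) {v : V} (hv : v ≠ r) : v ≠ par v := by
  intro h
  have := hd v hv
  rw [← h] at this
  omega

theorem parGraph_adj_par {r : V} {par : V → V} {dep : V → ℕ}
    (hd : ∀ v, v ≠ r → dep v = dep (par v) + 1) {v : V} (hv : v ≠ r) :
    (parGraph r par).Adj v (par v) :=
  ⟨par_ne hd hv, Or.inl ⟨hv, rfl⟩⟩

theorem exists_walk_root {r : V} {par : V → V} {dep : V → ℕ}
    (hd : ∀ v, v ≠ r → dep v = dep (par v) + 1) :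
    ∀ (n : ℕ) (v : V), dep v ≤ n → ∃ w : (parGraph r par).Walk v r, w.length ≤ dep v := by
  intro n
  induction n with
  | zero =>
    intro v hv
    by_cases h : v = r
    · subst h; exact ⟨Walk.nil, by simp⟩
    · have := hd v h; omega
  | succ n ih =>
    intro v hv
    by_cases h : v = r
    · subst h; exact ⟨Walk.nil, by simp⟩
    · have h1 := hd v h
      obtain ⟨w, hw⟩ := ih (par v) (by omega)
      refine ⟨Walk.cons (parGraph_adj_par hd h) w, ?_⟩
      rw [Walk.length_cons]
      omega

theorem parGraph_connected {r : V} {par : V → V} {dep : V → ℕ}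
    (hd : ∀ v, v ≠ r → dep v = dep (par v) + 1) : (parGraph r par).Connected := by
  rw [connected_iff_exists_forall_reachable]
  refine ⟨r, fun v => ?_⟩
  obtain ⟨w, _⟩ := exists_walk_root hd (dep v) v le_rfl
  exact w.reachable.symm

theorem dist_root_le {r : V} {par : V → V} {dep : V → ℕ}
    (hd : ∀ v, v ≠ r → dep v = dep (par v) + 1) (v : V) : (parGraph r par).dist v r ≤ dep v := by
  obtain ⟨w, hw⟩ := exists_walk_root hd (dep v) v le_rfl
  exact (dist_le w).trans hw

theorem parGraph_isTree [Finite V] {r : V} {par : V → V} {dep : V → ℕ}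
    (hd : ∀ v, v ≠ r → dep v = dep (par v) + 1) : (parGraph r par).IsTree := by
  classical
  haveI : Fintype V := Fintype.ofFinite V
  rw [isTree_iff_connected_and_card]
  refine ⟨parGraph_connected hd, ?_⟩
  have e : (parGraph r par).edgeSet = (fun v => s(v, par v)) '' {v | v ≠ r} := by
    ext x
    induction x with
    | _ a b =>
      rw [mem_edgeSet, parGraph_adj]
      constructor
      · rintro ⟨hne, h | h⟩
        · exact ⟨a, h.1, by simp [h.2]⟩
        · exact ⟨b, h.1, by simp [h.2, Sym2.eq_swap]⟩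
      · rintro ⟨v, hv, h⟩
        have hv' : v ≠ r := hv
        have hne := par_ne hd hv'
        simp only [Sym2.eq_iff] at h
        rcases h with ⟨rfl, h2⟩ | ⟨rfl, h2⟩
        · refine ⟨by rw [← h2]; exact hne, Or.inl ⟨hv', h2⟩⟩
        · refine ⟨by rw [← h2]; exact hne.symm, Or.inr ⟨hv', h2⟩⟩
  rw [e, Nat.card_image_of_injOn]
  · rw [Nat.card_eq_fintype_card, Nat.card_eq_fintype_card]
    have : Fintype.card {v : V | v ≠ r} = Fintype.card V - 1 := by
      rw [← Set.toFinset_card]
      have : ({v : V | v ≠ r} : Set V).toFinset = Finset.univ.erase r := by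
        ext x; simp
      rw [this, Finset.card_erase_of_mem (Finset.mem_univ _)]
      rfl
    have h0 : 0 < Fintype.card V := Fintype.card_pos_iff.2 ⟨r⟩
    omega
  · intro a ha b hb h
    have ha' : a ≠ r := ha
    have hb' : b ≠ r := hb
    simp only [Sym2.eq_iff] at h
    rcases h with h | ⟨h1, h2⟩
    · exact h.1
    · exfalso
      have e1 := hd a ha'
      have e2 := hd b hb'
      rw [h2] at e1
      rw [← h1] at e2
      omega

/-- A function which grows by at most one along edges bounds distances from below. -/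
theorem le_add_dist {G : SimpleGraph V} (hc : G.Connected) {f : V → ℕ}
    (hf : ∀ u v, G.Adj u v → f v ≤ f u + 1) (u v : V) : f v ≤ f u + G.dist u v := by
  obtain ⟨w, hw⟩ := hc.exists_walk_length_eq_dist u v
  rw [← hw]
  clear hw
  induction w with
  | nil => simp
  | cons h w ih =>
    have := hf _ _ h
    rw [Walk.length_cons]
    omega

theorem parGraph_lip {r : V} {par : V → V} {f : V → ℕ}
    (h : ∀ v, v ≠ r → f v ≤ f (par v) + 1 ∧ f (par v) ≤ f v + 1) (u v : V)
    (ha : (parGraph r par).Adj u v) : f v ≤ f u + 1 := by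
  rcases ha.2 with ⟨h1, rfl⟩ | ⟨h1, rfl⟩
  · exact (h u h1).2
  · exact (h v h1).1

end X70
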