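import Mathlib
import Pool.Agent.X70.ParTree

/-!
Every finite tree with a chosen root is the graph of a parent function.
-/

set_option autoImplicit false

namespace X70

open SimpleGraph

theorem exists_nbr_closer {V : Type*} {G : SimpleGraph V} (hc : G.Connected) {r v : V} (hv : v ≠ r) :
    ∃ u, G.Adj v u ∧ G.dist v r = G.dist u r + 1 := by
  obtain ⟨w, hw⟩ := hc.exists_walk_length_eq_dist v r
  cases w with
  | nil => exact absurd rfl hv
  | @cons _ u _ h w' =>
    refine ⟨u, h, ?_⟩
    rw [Walk.length_cons] at hw
    have h1 : G.dist u r ≤ w'.length := dist_le w'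
    have h2 : G.dist v r ≤ G.dist v u + G.dist u r := hc.dist_triangle
    have h3 : G.dist v u = 1 := dist_eq_one_iff_adj.2 h
    omega

theorem closer_unique {V : Type*} {G : SimpleGraph V} (hT : G.IsTree) {r v a b : V}
    (ha : G.Adj v a) (hb : G.Adj v b) (hda : G.dist v r = G.dist a r + 1)
    (hdb : G.dist v r = G.dist b r + 1) : a = b := by
  have hc := hT.connected
  obtain ⟨p, hp⟩ := hc.exists_walk_length_eq_dist a r
  obtain ⟨q, hq⟩ := hc.exists_walk_length_eq_dist b r
  have h1 : (Walk.cons ha p).IsPath := by
    apply Walk.isPath_of_length_eq_dist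
    rw [Walk.length_cons, hp, hda]
  have h2 : (Walk.cons hb q).IsPath := by
    apply Walk.isPath_of_length_eq_dist
    rw [Walk.length_cons, hq, hdb]
  have h3 := (hT.existsUnique_path v r).unique h1 h2
  have h4 : (Walk.cons ha p).snd = (Walk.cons hb q).snd := by rw [h3]
  simpa using h4

theorem exists_par {V : Type*} {G : SimpleGraph V} (hT : G.IsTree) (r : V) :
    ∃ par : V → V, (∀ v, v ≠ r → G.dist v r = G.dist (par v) r + 1) ∧
      G = parGraph r par := by
  classical
  have hc := hT.connected
  have hex : ∀ v, ∃ u, v ≠ r → (G.Adj v u ∧ G.dist v r = G.dist u r + 1) := by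
    intro v
    by_cases hv : v = r
    · exact ⟨v, fun h => absurd hv h⟩
    · obtain ⟨u, hu⟩ := exists_nbr_closer hc hv
      exact ⟨u, fun _ => hu⟩
  choose par hpar using hex
  refine ⟨par, fun v hv => (hpar v hv).2, ?_⟩
  ext a b
  rw [parGraph_adj]
  constructor
  · intro h
    refine ⟨h.ne, ?_⟩
    have hd := hT.dist_eq_dist_add_one_of_adj r h
    rw [SimpleGraph.dist_comm (u := r) (v := a), SimpleGraph.dist_comm (u := r) (v := b)] at hd
    rcases hd with hd | hd
    · have ha : a ≠ r := by
        rintro rfl
        simp at hd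
      exact Or.inl ⟨ha, closer_unique hT (hpar a ha).1 h (hpar a ha).2 hd⟩
    · have hb : b ≠ r := by
        rintro rfl
        simp at hd
      exact Or.inr ⟨hb, closer_unique hT (hpar b hb).1 h.symm (hpar b hb).2 hd⟩
  · rintro ⟨_, ⟨h1, h2⟩ | ⟨h1, h2⟩⟩
    · rw [← h2]; exact (hpar a h1).1
    · rw [← h2]; exact (hpar b h1).1.symm


section sums

variable {V : Type*} [Fintype V] {M : Type*} [AddCommMonoid M]

open Classical in
/-- The children of `v`. -/
noncomputable def children (r : V) (par : V → V) (v : V) : Finset V :=
  Finset.univ.filter (fun c => c ≠ r ∧ par c = v)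

theorem mem_children {r : V} {par : V → V} {v c : V} :
    c ∈ children r par v ↔ c ≠ r ∧ par c = v := by
  simp [children]

open Classical in
theorem sum_children (r : V) (par : V → V) (φ : V → M) :
    ∑ v, ∑ c ∈ children r par v, φ c = ∑ c ∈ Finset.univ.filter (fun c => c ≠ r), φ c := by
  rw [← Finset.sum_fiberwise_of_maps_to (s := Finset.univ.filter (fun c => c ≠ r))
    (t := Finset.univ) (g := par) (fun _ _ => Finset.mem_univ _)]
  apply Finset.sum_congr rfl
  intro v _
  apply Finset.sum_congr _ (fun _ _ => rfl)
  ext c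
  simp [mem_children]

open Classical in
theorem sum_nbr {r : V} {par : V → V} {dep : V → ℕ}
    (hd : ∀ v, v ≠ r → dep v = dep (par v) + 1) (φ : V → M) (v : V) :
    ∑ u ∈ Finset.univ.filter (fun u => (parGraph r par).Adj v u), φ u =
      (if v = r then 0 else φ (par v)) + ∑ c ∈ children r par v, φ c := by
  by_cases hv : v = r
  · rw [if_pos hv, zero_add]
    apply Finset.sum_congr _ (fun _ _ => rfl)
    ext u
    simp only [Finset.mem_filter, Finset.mem_univ, true_and, mem_children, parGraph_adj]
    constructor
    · rintro ⟨_, h | h⟩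
      · exact absurd hv h.1
      · exact h
    · intro h
      exact ⟨fun e => h.1 (e ▸ hv), Or.inr h⟩
  · rw [if_neg hv]
    have hnot : par v ∉ children r par v := by
      intro h
      rw [mem_children] at h
      have h1 := hd v hv
      have h2 := hd _ h.1
      rw [h.2] at h2
      omega
    rw [← Finset.sum_insert hnot]
    apply Finset.sum_congr _ (fun _ _ => rfl)
    ext u
    simp only [Finset.mem_filter, Finset.mem_univ, true_and, Finset.mem_insert, mem_children,
      parGraph_adj]
    constructor
    · rintro ⟨_, h | h⟩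
      · exact Or.inl h.2.symm
      · exact Or.inr h
    · rintro (h | h)
      · refine ⟨?_, Or.inl ⟨hv, h.symm⟩⟩
        rw [h]
        exact par_ne hd hv
      · refine ⟨?_, Or.inr h⟩
        intro e
        have := par_ne hd h.1
        rw [h.2] at this
        exact this e.symm

open Classical in
theorem sum_closed {r : V} {par : V → V} {dep : V → ℕ}
    (hd : ∀ v, v ≠ r → dep v = dep (par v) + 1) (φ : V → M) (v : V) :
    ∑ u ∈ Finset.univ.filter (fun u => u = v ∨ (parGraph r par).Adj v u), φ u =
      φ v + ((if v = r then 0 else φ (par v)) + ∑ c ∈ children r par v, φ c) := by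
  rw [← sum_nbr hd, ← Finset.sum_insert (a := v) (by simp)]
  apply Finset.sum_congr _ (fun _ _ => rfl)
  ext u
  simp

open Classical in
/-- Summation of local inequalities over a rooted tree. -/
theorem potential_sum (r : V) (par : V → V) (val pot : V → ℤ) (K : ℤ)
    (h : ∀ v, ∑ c ∈ children r par v, pot c + val v ≤ if v = r then K else pot v) :
    ∑ v, val v ≤ K := by
  have h1 : ∑ v, (∑ c ∈ children r par v, pot c + val v) ≤ ∑ v, (if v = r then K else pot v) :=
    Finset.sum_le_sum (fun v _ => h v)
  rw [Finset.sum_add_distrib, sum_children] at h1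
  have h2 : ∑ v, (if v = r then K else pot v) =
      K + ∑ c ∈ Finset.univ.filter (fun c => c ≠ r), pot c := by
    rw [Finset.sum_ite]
    congr 1
    have : (Finset.univ.filter (fun x => x = r) : Finset V) = {r} := by
      ext x; simp
    rw [this, Finset.sum_singleton]
  rw [h2] at h1
  linarith

end sums

end X70
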