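import Mathlib

namespace Pool.Agent.X70.MG

open Multiset (replicate)

/-- one orientation of the edges of the host graph -/
def E (u v : ℕ) : Prop := (u = 0 ∧ 1 ≤ v ∧ v ≤ 4) ∨ (u = 1 ∧ 2 ≤ v) ∨ (4 ≤ u ∧ v = u + 1)

instance : DecidableRel E := fun u v => by unfold E; infer_instance

/-- adjacency of the host graph -/
def G (u v : ℕ) : Prop := E u v ∨ E v u

instance : DecidableRel G := fun u v => by unfold G; infer_instance

theorem G.symm {u v : ℕ} (h : G u v) : G v u := Or.symm h

/-- adjacency of multisets -/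
def TAdj (A B : Multiset ℕ) : Prop := ∃ u v C, G u v ∧ A = u ::ₘ C ∧ B = v ::ₘ C

theorem TAdj.symm {A B : Multiset ℕ} (h : TAdj A B) : TAdj B A := by
  obtain ⟨u, v, C, h1, h2, h3⟩ := h
  exact ⟨v, u, C, h1.symm, h3, h2⟩

theorem TAdj.mk {u v : ℕ} (h : G u v) (C : Multiset ℕ) : TAdj (u ::ₘ C) (v ::ₘ C) :=
  ⟨u, v, C, h, rfl, rfl⟩

theorem TAdj.cons {A B : Multiset ℕ} (y : ℕ) (h : TAdj A B) : TAdj (y ::ₘ A) (y ::ₘ B) := by
  obtain ⟨u, v, C, h1, h2, h3⟩ := h
  exact ⟨u, v, y ::ₘ C, h1, by rw [h2, Multiset.cons_swap], by rw [h3, Multiset.cons_swap]⟩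

/-- decidable criterion -/
def tb (A B : Multiset ℕ) : Prop := ∃ u ∈ A, ∃ v ∈ B, G u v ∧ A.erase u = B.erase v

instance : DecidableRel tb := fun A B => by
  unfold tb
  haveI : ∀ u, Decidable (∃ v ∈ B, G u v ∧ A.erase u = B.erase v) :=
    fun u => Multiset.decidableExistsMultiset
  exact Multiset.decidableExistsMultiset

theorem tb.tadj {A B : Multiset ℕ} (h : tb A B) : TAdj A B := by
  obtain ⟨u, hu, v, hv, h1, h2⟩ := h
  exact ⟨u, v, A.erase u, h1, (Multiset.cons_erase hu).symm, by rw [h2, Multiset.cons_erase hv]⟩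

abbrev Ch (L : List (Multiset ℕ)) : Prop := L.IsChain TAdj

theorem Ch.map {L : List (Multiset ℕ)} (y : ℕ) (h : Ch L) : Ch (L.map (y ::ₘ ·)) := by
  unfold Ch
  rw [List.isChain_map]
  exact h.imp (fun _ _ h => h.cons y)

theorem Ch.reverse {L : List (Multiset ℕ)} (h : Ch L) : Ch L.reverse := by
  unfold Ch
  rw [List.isChain_reverse]
  exact h.imp (fun _ _ h => h.symm)

theorem Ch.of_tb {L : List (Multiset ℕ)} (h : L.IsChain tb) : Ch L := h.imp (fun _ _ h => h.tadj)

/-- cyclic chain -/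
def Cyc (L : List (Multiset ℕ)) : Prop := (L : Cycle (Multiset ℕ)).Chain TAdj

theorem cyc_cons {a : Multiset ℕ} {l : List (Multiset ℕ)} :
    Cyc (a :: l) ↔ Ch (a :: (l ++ [a])) := Cycle.chain_coe_cons _ _ _

theorem Cyc.rot {A B : List (Multiset ℕ)} (h : Cyc (A ++ B)) : Cyc (B ++ A) := by
  have : ((A ++ B : List (Multiset ℕ)) : Cycle (Multiset ℕ)) = ((B ++ A : List _) : Cycle _) :=
    Cycle.coe_eq_coe.2 List.isRotated_append
  unfold Cyc at *
  rw [← this]; exact h

theorem Cyc.rev {L : List (Multiset ℕ)} (h : Cyc L) : Cyc L.reverse := by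
  cases L with
  | nil => exact h
  | cons a l =>
    rw [List.reverse_cons]
    apply Cyc.rot (A := [a])
    rw [List.singleton_append, cyc_cons]
    rw [cyc_cons] at h
    have := h.reverse
    simpa using this

def Full (n r : ℕ) (L : List (Multiset ℕ)) : Prop :=
  L.Nodup ∧ ∀ A, A ∈ L ↔ (Multiset.card A = r ∧ ∀ a ∈ A, a < n)

theorem Full.perm {n r : ℕ} {L M : List (Multiset ℕ)} (h : Full n r L) (hp : L.Perm M) :
    Full n r M :=
  ⟨hp.nodup_iff.1 h.1, fun A => by rw [← hp.mem_iff, h.2 A]⟩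

theorem Full.step {n r : ℕ} {L M : List (Multiset ℕ)} (h : Full n (r+1) L) (hM : Full (n+1) r M) :
    Full (n+1) (r+1) (M.map (n ::ₘ ·) ++ L) := by
  refine ⟨?_, ?_⟩
  · rw [List.nodup_append]
    refine ⟨?_, h.1, ?_⟩
    · exact hM.1.map (fun A B hAB => by simpa using hAB)
    · intro A hA B hB hAB
      subst hAB
      rw [List.mem_map] at hA
      obtain ⟨C, _, rfl⟩ := hA
      have := ((h.2 _).1 hB).2 n (Multiset.mem_cons_self _ _)
      omega
  · intro A
    rw [List.mem_append, List.mem_map]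
    constructor
    · rintro (⟨C, hC, rfl⟩ | hA)
      · have := (hM.2 C).1 hC
        refine ⟨by simp [this.1], ?_⟩
        intro a ha
        rw [Multiset.mem_cons] at ha
        rcases ha with rfl | ha
        · omega
        · exact this.2 a ha
      · have := (h.2 A).1 hA
        exact ⟨this.1, fun a ha => by have := this.2 a ha; omega⟩
    · rintro ⟨h1, h2⟩
      by_cases hn : n ∈ A
      · left
        refine ⟨A.erase n, (hM.2 _).2 ⟨?_, ?_⟩, Multiset.cons_erase hn⟩
        · rw [Multiset.card_erase_of_mem hn, h1]; rfl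
        · intro a ha
          exact h2 a (Multiset.mem_of_mem_erase ha)
      · right
        refine (h.2 A).2 ⟨h1, fun a ha => ?_⟩
        have := h2 a ha
        have : a ≠ n := fun e => hn (e ▸ ha)
        omega

def HC (n r : ℕ) (L : List (Multiset ℕ)) : Prop := Full n r L ∧ Cyc L

theorem HC.rot {n r : ℕ} {A B : List (Multiset ℕ)} (h : HC n r (A ++ B)) : HC n r (B ++ A) :=
  ⟨h.1.perm List.perm_append_comm, h.2.rot⟩

theorem HC.rev {n r : ℕ} {L : List (Multiset ℕ)} (h : HC n r L) : HC n r L.reverse :=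
  ⟨h.1.perm L.reverse_perm.symm, h.2.rev⟩

/-! ### triangle -/

def row (p q : ℕ) : ℕ → List (Multiset ℕ)
  | 0 => [0]
  | m + 1 => replicate (m + 1) p :: (row p q m).map (q ::ₘ ·)

theorem row_cons (p q m : ℕ) : ∃ t, row p q m = replicate m p :: t := by
  cases m with
  | zero => exact ⟨[], rfl⟩
  | succ m => exact ⟨_, rfl⟩

theorem row_last (p q m : ℕ) : ∃ P, row p q m = P ++ [replicate m q] := by
  induction m with
  | zero => exact ⟨[], rfl⟩
  | succ m ih =>
    obtain ⟨P, hP⟩ := ih
    refine ⟨replicate (m + 1) p :: P.map (q ::ₘ ·), ?_⟩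
    simp [row, hP, Multiset.replicate_succ]

theorem row_last3 (p q m : ℕ) : ∃ P, row p q (m+2) =
    P ++ [p ::ₘ p ::ₘ replicate m q, p ::ₘ replicate (m+1) q, replicate (m+2) q] := by
  induction m with
  | zero => exact ⟨[], by
      simp [row, Multiset.replicate_succ]
      exact Multiset.pair_comm q p⟩
  | succ m ih =>
    obtain ⟨P, hP⟩ := ih
    refine ⟨replicate (m + 3) p :: P.map (q ::ₘ ·), ?_⟩
    rw [row, hP]
    simp only [List.map_append, List.map_cons, List.map_nil, Multiset.replicate_succ,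
      Multiset.cons_swap q p, List.cons_append]

theorem row_chain {p q : ℕ} (h : G p q) (m : ℕ) : Ch (row p q m) := by
  induction m with
  | zero => exact List.isChain_singleton _
  | succ m ih =>
    obtain ⟨t, ht⟩ := row_cons p q m
    have := ih.map q
    rw [row]
    rw [ht] at this ⊢
    rw [List.map_cons] at this ⊢
    unfold Ch
    rw [List.isChain_cons_cons]
    refine ⟨?_, this⟩
    rw [Multiset.replicate_succ]
    exact TAdj.mk h _

theorem row_full {p q : ℕ} (h : p ≠ q) (m : ℕ) : (row p q m).Nodup ∧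
    ∀ A, A ∈ row p q m ↔ (Multiset.card A = m ∧ ∀ a ∈ A, a = p ∨ a = q) := by
  induction m with
  | zero =>
    refine ⟨List.nodup_singleton _, fun A => ?_⟩
    rw [row, List.mem_singleton, Multiset.card_eq_zero]
    constructor
    · rintro rfl; simp
    · exact fun h => h.1
  | succ m ih =>
    refine ⟨?_, fun A => ?_⟩
    · rw [row, List.nodup_cons]
      refine ⟨?_, ih.1.map (fun A B hAB => by simpa using hAB)⟩
      rw [List.mem_map]
      rintro ⟨C, _, hC⟩
      have : q ∈ replicate (m+1) p := by rw [← hC]; exact Multiset.mem_cons_self _ _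
      exact h (Multiset.eq_of_mem_replicate this).symm
    · rw [row, List.mem_cons, List.mem_map]
      constructor
      · rintro (rfl | ⟨C, hC, rfl⟩)
        · exact ⟨Multiset.card_replicate _ _, fun a ha => Or.inl (Multiset.eq_of_mem_replicate ha)⟩
        · have := (ih.2 C).1 hC
          refine ⟨by simp [this.1], fun a ha => ?_⟩
          rw [Multiset.mem_cons] at ha
          rcases ha with rfl | ha
          · right; rfl
          · exact this.2 a ha
      · rintro ⟨h1, h2⟩
        by_cases hn : q ∈ A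
        · right
          refine ⟨A.erase q, (ih.2 _).2 ⟨?_, ?_⟩, Multiset.cons_erase hn⟩
          · rw [Multiset.card_erase_of_mem hn, h1]; rfl
          · intro a ha
            exact h2 a (Multiset.mem_of_mem_erase ha)
        · left
          rw [Multiset.eq_replicate]
          refine ⟨h1, fun a ha => ?_⟩
          rcases h2 a ha with h | h
          · exact h
          · exact absurd (h ▸ ha) hn

def S : ℕ → ℕ → ℕ → List (Multiset ℕ)
  | 0, _, _ => [0]
  | m + 1, p, q => row p q (m + 1) ++ (S m q p).map (0 ::ₘ ·)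

theorem S_cons (m p q : ℕ) : ∃ t, S m p q = row p q m ++ t := by
  cases m with
  | zero => exact ⟨[], rfl⟩
  | succ m => exact ⟨_, rfl⟩

theorem S_last (m p q : ℕ) : ∃ P, S m p q = P ++ [replicate m 0] := by
  induction m generalizing p q with
  | zero => exact ⟨[], rfl⟩
  | succ m ih =>
    obtain ⟨P, hP⟩ := ih q p
    refine ⟨row p q (m + 1) ++ P.map (0 ::ₘ ·), ?_⟩
    simp [S, hP, Multiset.replicate_succ]

theorem S_chain {p q : ℕ} (h : G p q) (hp : G p 0) (hq : G q 0) (m : ℕ) : Ch (S m p q) := by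
  induction m generalizing p q with
  | zero => exact List.isChain_singleton _
  | succ m ih =>
    obtain ⟨t, ht⟩ := S_cons m q p
    obtain ⟨t', ht'⟩ := row_cons q p m
    obtain ⟨P, hP⟩ := row_last p q (m+1)
    have h1 := (ih h.symm hq hp).map 0
    have h2 := row_chain h (m+1)
    rw [S]
    unfold Ch
    rw [List.isChain_append]
    refine ⟨h2, h1, ?_⟩
    intro x hx y hy
    rw [hP] at hx
    rw [ht, ht'] at hy
    simp at hx hy
    subst hx hy
    exact TAdj.mk hq _

theorem S_full (m p q : ℕ) (h : p ≠ q) (hp : 0 < p) (hp3 : p < 3) (hq : 0 < q) (hq3 : q < 3) :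
    Full 3 m (S m p q) := by
  induction m generalizing p q with
  | zero =>
    refine ⟨List.nodup_singleton _, fun A => ?_⟩
    rw [S, List.mem_singleton, Multiset.card_eq_zero]
    constructor
    · rintro rfl; simp
    · exact fun h => h.1
  | succ m ih =>
    have ih := ih q p h.symm hq hq3 hp hp3
    have hr := row_full h (m+1)
    refine ⟨?_, fun A => ?_⟩
    · rw [S, List.nodup_append]
      refine ⟨hr.1, ih.1.map (fun A B hAB => by simpa using hAB), ?_⟩
      intro A hA B hB hAB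
      subst hAB
      rw [List.mem_map] at hB
      obtain ⟨C, _, rfl⟩ := hB
      have := ((hr.2 _).1 hA).2 0 (Multiset.mem_cons_self _ _)
      omega
    · rw [S, List.mem_append, List.mem_map]
      constructor
      · rintro (hA | ⟨C, hC, rfl⟩)
        · have := (hr.2 A).1 hA
          exact ⟨this.1, fun a ha => by rcases this.2 a ha with h | h <;> omega⟩
        · have := (ih.2 C).1 hC
          refine ⟨by simp [this.1], fun a ha => ?_⟩
          rw [Multiset.mem_cons] at ha
          rcases ha with rfl | ha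
          · omega
          · exact this.2 a ha
      · rintro ⟨h1, h2⟩
        by_cases hn : 0 ∈ A
        · right
          refine ⟨A.erase 0, (ih.2 _).2 ⟨?_, ?_⟩, Multiset.cons_erase hn⟩
          · rw [Multiset.card_erase_of_mem hn, h1]; rfl
          · intro a ha
            exact h2 a (Multiset.mem_of_mem_erase ha)
        · left
          refine (hr.2 A).2 ⟨h1, fun a ha => ?_⟩
          have := h2 a ha
          have : a ≠ 0 := fun e => hn (e ▸ ha)
          omega

def D3 (m : ℕ) : List (Multiset ℕ) := row 0 2 (m + 1) ++ (S m 2 1).map (1 ::ₘ ·)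

theorem D3_full (m : ℕ) : Full 3 (m+1) (D3 m) := by
  have hS := S_full m 2 1 (by norm_num) (by norm_num) (by norm_num) (by norm_num) (by norm_num)
  have hr := row_full (p := 0) (q := 2) (by norm_num) (m+1)
  refine ⟨?_, fun A => ?_⟩
  · rw [D3, List.nodup_append]
    refine ⟨hr.1, hS.1.map (fun A B hAB => by simpa using hAB), ?_⟩
    intro A hA B hB hAB
    subst hAB
    rw [List.mem_map] at hB
    obtain ⟨C, _, rfl⟩ := hB
    have := ((hr.2 _).1 hA).2 1 (Multiset.mem_cons_self _ _)
    omega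
  · rw [D3, List.mem_append, List.mem_map]
    constructor
    · rintro (hA | ⟨C, hC, rfl⟩)
      · have := (hr.2 A).1 hA
        exact ⟨this.1, fun a ha => by rcases this.2 a ha with h | h <;> omega⟩
      · have := (hS.2 C).1 hC
        refine ⟨by simp [this.1], fun a ha => ?_⟩
        rw [Multiset.mem_cons] at ha
        rcases ha with rfl | ha
        · omega
        · exact this.2 a ha
    · rintro ⟨h1, h2⟩
      by_cases hn : 1 ∈ A
      · right
        refine ⟨A.erase 1, (hS.2 _).2 ⟨?_, ?_⟩, Multiset.cons_erase hn⟩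
        · rw [Multiset.card_erase_of_mem hn, h1]; rfl
        · intro a ha
          exact h2 a (Multiset.mem_of_mem_erase ha)
      · left
        refine (hr.2 A).2 ⟨h1, fun a ha => ?_⟩
        have := h2 a ha
        have : a ≠ 1 := fun e => hn (e ▸ ha)
        omega

theorem D3_cyc (m : ℕ) : Cyc (D3 m) := by
  have hr := row_chain (p := 0) (q := 2) (by decide) (m+1)
  have hS := (S_chain (p := 2) (q := 1) (by decide) (by decide) (by decide) m).map 1
  obtain ⟨t, ht⟩ := S_cons m 2 1
  obtain ⟨t', ht'⟩ := row_cons 2 1 m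
  obtain ⟨P, hP⟩ := S_last m 2 1
  obtain ⟨s, hs⟩ := row_cons 0 2 (m+1)
  obtain ⟨Q, hQ⟩ := row_last 0 2 (m+1)
  have e : D3 m = replicate (m+1) 0 :: (s ++ (S m 2 1).map (1 ::ₘ ·)) := by
    rw [D3, hs]; rfl
  rw [e, cyc_cons]
  have e2 : replicate (m+1) 0 :: (s ++ (S m 2 1).map (1 ::ₘ ·) ++ [replicate (m+1) 0]) =
    row 0 2 (m+1) ++ ((S m 2 1).map (1 ::ₘ ·) ++ [replicate (m+1) 0]) := by
    rw [hs]; simp
  rw [e2]
  unfold Ch
  rw [List.isChain_append, List.isChain_append]
  refine ⟨hr, ⟨hS, List.isChain_singleton _, ?_⟩, ?_⟩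
  · intro x hx y hy
    rw [hP] at hx
    simp at hx hy
    subst hx hy
    exact TAdj.mk (by decide) _
  · intro x hx y hy
    rw [hQ] at hx
    rw [ht, ht'] at hy
    simp at hx hy
    subst hx hy
    exact TAdj.mk (by decide) _

/-- first three elements -/
theorem D3_start (m : ℕ) : ∃ ρ, HC 3 (m+2) (replicate (m+2) 0 :: (2 ::ₘ replicate (m+1) 0) ::
    (2 ::ₘ 2 ::ₘ replicate m 0) :: ρ) := by
  have h : HC 3 (m+2) (D3 (m+1)) := ⟨D3_full _, D3_cyc _⟩
  have : ∃ t, D3 (m+1) = replicate (m+2) 0 :: (2 ::ₘ replicate (m+1) 0) ::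
    (2 ::ₘ 2 ::ₘ replicate m 0) :: t := by
    obtain ⟨t, ht⟩ := row_cons 0 2 m
    rw [D3, row, row, ht]
    simp
  obtain ⟨t, ht⟩ := this
  exact ⟨t, ht ▸ h⟩

/-- first three elements, together with the other triple -/
theorem D3_start' (m : ℕ) : ∃ X Y, HC 3 (m+3) (replicate (m+3) 0 :: (2 ::ₘ replicate (m+2) 0) ::
    (2 ::ₘ 2 ::ₘ replicate (m+1) 0) :: (X ++ [2 ::ₘ 2 ::ₘ replicate (m+1) 1,
      2 ::ₘ replicate (m+2) 1, replicate (m+3) 1] ++ Y)) := by
  have h : HC 3 (m+3) (D3 (m+2)) := ⟨D3_full _, D3_cyc _⟩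
  have : ∃ X Y, D3 (m+2) = replicate (m+3) 0 :: (2 ::ₘ replicate (m+2) 0) ::
    (2 ::ₘ 2 ::ₘ replicate (m+1) 0) :: (X ++ [2 ::ₘ 2 ::ₘ replicate (m+1) 1,
      2 ::ₘ replicate (m+2) 1, replicate (m+3) 1] ++ Y) := by
    obtain ⟨t, ht⟩ := row_cons 0 2 (m+1)
    obtain ⟨P, hP⟩ := row_last3 2 1 m
    refine ⟨(t.map (2 ::ₘ ·)).map (2 ::ₘ ·) ++ P.map (1 ::ₘ ·),
      ((S (m+1) 1 2).map (0 ::ₘ ·)).map (1 ::ₘ ·), ?_⟩
    rw [D3, row, row, ht, S, hP]
    simp [Multiset.replicate_succ, Multiset.cons_swap 1 2]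
  obtain ⟨X, Y, ht⟩ := this
  exact ⟨X, Y, ht ▸ h⟩

end Pool.Agent.X70.MG
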