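import Mathlib
import Pool.Agent.X70.MGraph

namespace Pool.Agent.X70.MG

open Multiset (replicate)

def en (w v t : ℕ) : Multiset ℕ :=
  if t % 2 = 0 then v ::ₘ v ::ₘ replicate t w else replicate (t + 2) w

theorem step {n w v t : ℕ} (hG : G n w) {ρ A₁ B₁ : List (Multiset ℕ)} {a1 a2 a3 : Multiset ℕ}
    (hL : HC n (t+3) (replicate (t+3) w :: (v ::ₘ replicate (t+2) w) ::
      (v ::ₘ v ::ₘ replicate (t+1) w) :: ρ))
    (hD : HC (n+1) (t+2) (a1 :: a2 :: a3 :: (A₁ ++ en w v t ::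
      (v ::ₘ replicate (t+1) w) :: B₁))) :
    ∃ A₂ B₂ X Y, HC (n+1) (t+3) ((n ::ₘ a1) :: (n ::ₘ a2) :: (n ::ₘ a3) ::
      (A₂ ++ en w v (t+1) :: (v ::ₘ replicate (t+2) w) :: B₂)) ∧
      (((n ::ₘ a1) :: (n ::ₘ a2) :: (n ::ₘ a3) ::
      (A₂ ++ en w v (t+1) :: (v ::ₘ replicate (t+2) w) :: B₂)) = X ++ ρ ++ Y ∨
      ((n ::ₘ a1) :: (n ::ₘ a2) :: (n ::ₘ a3) ::
      (A₂ ++ en w v (t+1) :: (v ::ₘ replicate (t+2) w) :: B₂)) = X ++ ρ.reverse ++ Y) := by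
  have hF := hL.1.step hD.1
  have hc := hL.2
  rw [cyc_cons] at hc
  simp only [Ch, List.cons_append, List.isChain_cons_cons] at hc
  obtain ⟨hab, hbg, hc⟩ := hc
  have hd := hD.2
  rw [cyc_cons] at hd
  have hd : Ch ((a1 :: a2 :: a3 :: A₁) ++ en w v t ::
      (v ::ₘ replicate (t+1) w) :: (B₁ ++ [a1])) := by simpa using hd
  have hd := hd.map n
  rw [List.map_append] at hd
  have hd : Ch ((a1 :: a2 :: a3 :: A₁).map (n ::ₘ ·) ++ (n ::ₘ en w v t) ::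
      (n ::ₘ v ::ₘ replicate (t+1) w) :: (B₁ ++ [a1]).map (n ::ₘ ·)) := hd
  rw [Ch, List.isChain_append_cons_cons] at hd
  obtain ⟨hd1, _, hd2⟩ := hd
  rcases Nat.mod_two_eq_zero_or_one t with ht | ht
  · have he : en w v t = v ::ₘ v ::ₘ replicate t w := by rw [en, if_pos ht]
    have he' : en w v (t+1) = replicate (t+3) w := by rw [en, if_neg (by omega)]
    rw [he'] 
    rw [he] at hF hd1
    refine ⟨A₁.map (n ::ₘ ·) ++ (n ::ₘ v ::ₘ v ::ₘ replicate t w) ::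
        (v ::ₘ v ::ₘ replicate (t+1) w) :: ρ,
        (n ::ₘ v ::ₘ replicate (t+1) w) :: B₁.map (n ::ₘ ·),
        (n ::ₘ a1) :: (n ::ₘ a2) :: (n ::ₘ a3) :: (A₁.map (n ::ₘ ·) ++
          [n ::ₘ v ::ₘ v ::ₘ replicate t w, v ::ₘ v ::ₘ replicate (t+1) w]),
        replicate (t+3) w :: (v ::ₘ replicate (t+2) w) ::
          (n ::ₘ v ::ₘ replicate (t+1) w) :: B₁.map (n ::ₘ ·), ⟨?_, ?_⟩, Or.inl ?_⟩
    · refine hF.perm ?_
      rw [List.perm_iff_count]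
      intro c
      simp [List.count_append, List.count_cons]
      ring
    · rw [cyc_cons]
      have e : (n ::ₘ a1) :: ((n ::ₘ a2) :: (n ::ₘ a3) :: ((A₁.map (n ::ₘ ·) ++
          (n ::ₘ v ::ₘ v ::ₘ replicate t w) ::
          (v ::ₘ v ::ₘ replicate (t+1) w) :: ρ) ++ replicate (t+3) w ::
          (v ::ₘ replicate (t+2) w) ::
          (n ::ₘ v ::ₘ replicate (t+1) w) :: B₁.map (n ::ₘ ·)) ++ [n ::ₘ a1]) =
          (a1 :: a2 :: a3 :: A₁).map (n ::ₘ ·) ++ (n ::ₘ v ::ₘ v ::ₘ replicate t w) ::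
          ((v ::ₘ v ::ₘ replicate (t+1) w) :: ρ ++ replicate (t+3) w ::
          (v ::ₘ replicate (t+2) w) :: ((n ::ₘ v ::ₘ replicate (t+1) w) ::
            (B₁ ++ [a1]).map (n ::ₘ ·))) := by simp
      rw [e, Ch, List.isChain_split]
      refine ⟨hd1, ?_⟩
      rw [List.cons_append, List.isChain_cons_cons]
      refine ⟨?_, ?_⟩
      · have : n ::ₘ v ::ₘ v ::ₘ replicate t w = n ::ₘ (v ::ₘ v ::ₘ replicate t w) := rfl
        have h2 : v ::ₘ v ::ₘ replicate (t+1) w = w ::ₘ (v ::ₘ v ::ₘ replicate t w) := by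
          rw [Multiset.replicate_succ, Multiset.cons_swap v w, Multiset.cons_swap v w]
        rw [h2]
        exact TAdj.mk hG _
      · rw [← List.cons_append, List.isChain_append_cons_cons]
        refine ⟨by simpa using hc, hab, ?_⟩
        rw [List.isChain_cons_cons]
        refine ⟨?_, hd2⟩
        have h2 : v ::ₘ replicate (t+2) w = w ::ₘ (v ::ₘ replicate (t+1) w) := by
          rw [Multiset.replicate_succ, Multiset.cons_swap v w]
        rw [h2]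
        exact TAdj.mk hG.symm _
    · simp
  · have he : en w v t = replicate (t+2) w := by rw [en, if_neg (by omega)]
    have he' : en w v (t+1) = v ::ₘ v ::ₘ replicate (t+1) w := by rw [en, if_pos (by omega)]
    rw [he'] 
    rw [he] at hF hd1
    refine ⟨A₁.map (n ::ₘ ·) ++ (n ::ₘ replicate (t+2) w) ::
        (replicate (t+3) w) :: ρ.reverse,
        (n ::ₘ v ::ₘ replicate (t+1) w) :: B₁.map (n ::ₘ ·),
        (n ::ₘ a1) :: (n ::ₘ a2) :: (n ::ₘ a3) :: (A₁.map (n ::ₘ ·) ++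
          [n ::ₘ replicate (t+2) w, replicate (t+3) w]),
        (v ::ₘ v ::ₘ replicate (t+1) w) :: (v ::ₘ replicate (t+2) w) ::
          (n ::ₘ v ::ₘ replicate (t+1) w) :: B₁.map (n ::ₘ ·), ⟨?_, ?_⟩, Or.inr ?_⟩
    · refine hF.perm ?_
      rw [List.perm_iff_count]
      intro c
      simp [List.count_append, List.count_cons]
      ring
    · rw [cyc_cons]
      have e : (n ::ₘ a1) :: ((n ::ₘ a2) :: (n ::ₘ a3) :: ((A₁.map (n ::ₘ ·) ++
          (n ::ₘ replicate (t+2) w) ::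
          (replicate (t+3) w) :: ρ.reverse) ++ (v ::ₘ v ::ₘ replicate (t+1) w) ::
          (v ::ₘ replicate (t+2) w) ::
          (n ::ₘ v ::ₘ replicate (t+1) w) :: B₁.map (n ::ₘ ·)) ++ [n ::ₘ a1]) =
          (a1 :: a2 :: a3 :: A₁).map (n ::ₘ ·) ++ (n ::ₘ replicate (t+2) w) ::
          ((replicate (t+3) w) :: ρ.reverse ++ (v ::ₘ v ::ₘ replicate (t+1) w) ::
          (v ::ₘ replicate (t+2) w) :: ((n ::ₘ v ::ₘ replicate (t+1) w) ::
            (B₁ ++ [a1]).map (n ::ₘ ·))) := by simp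
      rw [e, Ch, List.isChain_split]
      refine ⟨hd1, ?_⟩
      rw [List.cons_append, List.isChain_cons_cons]
      refine ⟨?_, ?_⟩
      · rw [Multiset.replicate_succ w (t+2)]
        exact TAdj.mk hG _
      · rw [← List.cons_append, List.isChain_append_cons_cons]
        refine ⟨?_, ?_, ?_⟩
        · have := Ch.reverse hc
          simpa using this
        · exact hbg.symm
        · rw [List.isChain_cons_cons]
          refine ⟨?_, hd2⟩
          have h2 : v ::ₘ replicate (t+2) w = w ::ₘ (v ::ₘ replicate (t+1) w) := by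
            rw [Multiset.replicate_succ, Multiset.cons_swap v w]
          rw [h2]
          exact TAdj.mk hG.symm _
    · simp

def Start (n w v t : ℕ) : Prop := ∃ ρ, HC n (t+2) (replicate (t+2) w :: (v ::ₘ replicate (t+1) w) ::
      (v ::ₘ v ::ₘ replicate t w) :: ρ)

theorem chain {n w v t₀ : ℕ} (hG : G n w) (src : ∀ t, t₀ ≤ t → Start n w v (t+1))
    {a1 a2 a3 : Multiset ℕ} {A₁ B₁ : List (Multiset ℕ)}
    (base : HC (n+1) (t₀+2) (a1 :: a2 :: a3 :: (A₁ ++ en w v t₀ ::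
      (v ::ₘ replicate (t₀+1) w) :: B₁))) (k : ℕ) :
    ∃ A₂ B₂, HC (n+1) (t₀+k+2) ((replicate k n + a1) :: (replicate k n + a2) ::
      (replicate k n + a3) :: (A₂ ++ en w v (t₀+k) :: (v ::ₘ replicate (t₀+k+1) w) :: B₂)) := by
  induction k with
  | zero => exact ⟨A₁, B₁, by simpa using base⟩
  | succ k ih =>
    obtain ⟨A₂, B₂, h⟩ := ih
    obtain ⟨ρ, hρ⟩ := src (t₀+k) (by omega)
    obtain ⟨A₃, B₃, _, _, h3, _⟩ := step hG hρ h
    refine ⟨A₃, B₃, ?_⟩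
    have e : ∀ a : Multiset ℕ, replicate (k+1) n + a = n ::ₘ (replicate k n + a) := by
      intro a
      rw [Multiset.replicate_succ, Multiset.cons_add]
    rw [e, e, e]
    exact h3

theorem chain_start {n w v t₀ v' : ℕ} (hG : G n w) (src : ∀ t, t₀ ≤ t → Start n w v (t+1))
    {A₁ B₁ : List (Multiset ℕ)}
    (base : HC (n+1) (t₀+2) (replicate (t₀+2) n :: (v' ::ₘ replicate (t₀+1) n) ::
      (v' ::ₘ v' ::ₘ replicate t₀ n) :: (A₁ ++ en w v t₀ ::
      (v ::ₘ replicate (t₀+1) w) :: B₁))) (t : ℕ) (ht : t₀ ≤ t) : Start (n+1) n v' t := by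
  obtain ⟨k, rfl⟩ := Nat.exists_eq_add_of_le ht
  obtain ⟨A₂, B₂, h⟩ := chain hG src base k
  have e1 : replicate k n + replicate (t₀+2) n = replicate (t₀+k+2) n := by
    rw [← Multiset.replicate_add]; congr 1; ring
  have e2 : replicate k n + (v' ::ₘ replicate (t₀+1) n) = v' ::ₘ replicate (t₀+k+1) n := by
    rw [Multiset.add_cons, ← Multiset.replicate_add]; congr 2; ring
  have e3 : replicate k n + (v' ::ₘ v' ::ₘ replicate t₀ n) =
      v' ::ₘ v' ::ₘ replicate (t₀+k) n := by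
    rw [Multiset.add_cons, Multiset.add_cons, ← Multiset.replicate_add, Nat.add_comm k t₀]
  rw [e1, e2, e3] at h
  exact ⟨_, h⟩

/-- criterion for explicit lists of pairs -/
theorem hc_pairs {n : ℕ} {L : List (Multiset ℕ)} (h1 : L.Nodup)
    (h2 : ∀ A ∈ L, Multiset.card A = 2 ∧ ∀ a ∈ A, a < n)
    (h3 : ∀ a < n, ∀ b < n, ({a, b} : Multiset ℕ) ∈ L) : Full n 2 L := by
  refine ⟨h1, fun A => ⟨h2 A, ?_⟩⟩
  rintro ⟨hA, hB⟩
  obtain ⟨a, b, rfl⟩ := Multiset.card_eq_two.1 hA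
  exact h3 a (hB a (by simp)) b (hB b (by simp))

theorem hc_triples {n : ℕ} {L : List (Multiset ℕ)} (h1 : L.Nodup)
    (h2 : ∀ A ∈ L, Multiset.card A = 3 ∧ ∀ a ∈ A, a < n)
    (h3 : ∀ a < n, ∀ b < n, ∀ c < n, ({a, b, c} : Multiset ℕ) ∈ L) : Full n 3 L := by
  refine ⟨h1, fun A => ⟨h2 A, ?_⟩⟩
  rintro ⟨hA, hB⟩
  obtain ⟨a, b, c, rfl⟩ := Multiset.card_eq_three.1 hA
  exact h3 a (hB a (by simp)) b (hB b (by simp)) c (hB c (by simp))

theorem cyc_of_tb {a : Multiset ℕ} {l : List (Multiset ℕ)} (h : (a :: (l ++ [a])).IsChain tb) :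
    Cyc (a :: l) := cyc_cons.2 (Ch.of_tb h)

/-! ### four vertices -/

theorem base4 : HC 4 2 (({0,0} : Multiset ℕ) :: {0,1} :: {1,1} ::
    ([{1,3}, {3,3}, {0,3}, {2,3}, {1,2}] ++ en 0 2 0 :: (2 ::ₘ replicate 1 0) :: [])) := by
  refine ⟨hc_pairs ?_ ?_ ?_, cyc_of_tb ?_⟩
  all_goals decide +kernel

theorem start4 (t : ℕ) (ht : 1 ≤ t) : Start 4 1 2 t := by
  obtain ⟨k, rfl⟩ := Nat.exists_eq_add_of_le ht
  obtain ⟨A₂, B₂, h⟩ := chain (by decide) (fun t _ => D3_start (t+1)) base4 k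
  obtain ⟨X, Y, hXY⟩ := D3_start' k
  rw [Nat.zero_add] at h
  obtain ⟨A₃, B₃, X', Y', h3, h4⟩ := step (by decide) hXY h
  rw [Nat.add_comm 1 k]
  rcases h4 with h4 | h4
  · rw [h4] at h3
    have e : X' ++ (X ++ [2 ::ₘ 2 ::ₘ replicate (k + 1) 1, 2 ::ₘ replicate (k + 2) 1,
        replicate (k + 3) 1] ++ Y) ++ Y' = (X' ++ X) ++ [2 ::ₘ 2 ::ₘ replicate (k + 1) 1,
        2 ::ₘ replicate (k + 2) 1, replicate (k + 3) 1] ++ (Y ++ Y') := by simp
    rw [e] at h3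
    have h3 := h3.rev
    rw [List.reverse_append, List.reverse_append] at h3
    have h3 := HC.rot h3
    have h5 : HC 4 (k+3) (replicate (k + 3) 1 :: (2 ::ₘ replicate (k + 2) 1) ::
      (2 ::ₘ 2 ::ₘ replicate (k + 1) 1) :: ((X' ++ X).reverse ++ (Y ++ Y').reverse)) := by
      simpa using h3
    exact ⟨_, h5⟩
  · rw [h4] at h3
    have e : X' ++ (X ++ [2 ::ₘ 2 ::ₘ replicate (k + 1) 1, 2 ::ₘ replicate (k + 2) 1,
        replicate (k + 3) 1] ++ Y).reverse ++ Y' = (X' ++ Y.reverse) ++ ([replicate (k + 3) 1,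
        2 ::ₘ replicate (k + 2) 1, 2 ::ₘ 2 ::ₘ replicate (k + 1) 1] ++ (X.reverse ++ Y')) := by
      simp
    rw [e] at h3
    have h3 := HC.rot h3
    have h5 : HC 4 (k+3) (replicate (k + 3) 1 :: (2 ::ₘ replicate (k + 2) 1) ::
      (2 ::ₘ 2 ::ₘ replicate (k + 1) 1) :: ((X.reverse ++ Y') ++ (X' ++ Y.reverse))) := by
      simpa using h3
    exact ⟨_, h5⟩

/-! ### five vertices -/

theorem base5 : HC 5 3 (replicate 3 4 :: (0 ::ₘ replicate 2 4) ::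
    (0 ::ₘ 0 ::ₘ replicate 1 4) :: ([{0,0,0}, {0,0,2}, {0,2,2}, {2,2,2}, {1,2,2},
      {2,2,3}, {0,2,3}, {2,3,3}, {1,3,3}, {3,3,3}, {0,3,3}, {3,3,4}, {0,3,4}, {3,4,4}, {1,3,4},
      {2,3,4}, {1,2,3}, {1,1,3}] ++ en 1 2 1 :: (2 ::ₘ replicate 2 1) :: [{0,1,2}, {0,0,1},
      {0,0,3}, {0,1,3}, {0,1,1}, {1,1,4}, {0,1,4}, {1,2,4}, {2,2,4}, {0,2,4}, {2,4,4},
      {1,4,4}])) := by
  refine ⟨hc_triples ?_ ?_ ?_, cyc_of_tb ?_⟩
  all_goals decide +kernel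

theorem start5 (t : ℕ) (ht : 1 ≤ t) : Start 5 4 0 t :=
  chain_start (by decide) (fun t _ => start4 (t+1) (by omega)) base5 t ht

end Pool.Agent.X70.MG
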