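import Mathlib
import Pool.Agent.X70.MGraph2

namespace Pool.Agent.X70.MG

open Multiset (replicate)

/-! ### six vertices -/

def L6 : List (Multiset ℕ) := replicate 2 5 :: (4 ::ₘ replicate 1 5) ::
    (4 ::ₘ 4 ::ₘ replicate 0 5) :: ([{1,4}, {1,1}, {0,1}, {0,0}, {0,4}, {2,4}] ++
    ({2,5} : Multiset ℕ) :: {2,1} :: [{2,2}, {0,2}, {2,3}, {0,3}, {3,3}, {1,3}, {3,4}, {3,5},
    {0,5}, {1,5}])

theorem hc6 : HC 6 2 L6 := by
  refine ⟨hc_pairs ?_ ?_ ?_, cyc_of_tb ?_⟩
  all_goals decide +kernel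

theorem start6 (t : ℕ) : Start 6 5 4 t := by
  refine chain_start (w := 4) (v := 0) (t₀ := 0) (A₁ := [{1,4}, {1,1}, {0,1}])
    (B₁ := [{2,4}, {2,5}, {2,1}, {2,2}, {0,2}, {2,3}, {0,3}, {3,3}, {1,3}, {3,4}, {3,5},
    {0,5}, {1,5}]) (by decide) (fun t _ => start5 (t+1) (by omega)) ?_ t (Nat.zero_le t)
  exact hc6

/-! ### more vertices -/

def T : ℕ → List ℕ
  | 0 => [4, 0, 3, 1]
  | j + 1 => (j + 5) :: T j

theorem T_head (j : ℕ) : ∃ t, T j = (j+4) :: t := by
  cases j with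
  | zero => exact ⟨_, rfl⟩
  | succ j => exact ⟨_, rfl⟩

theorem T_last (j : ℕ) : ∃ P, T j = P ++ [1] := by
  induction j with
  | zero => exact ⟨[4,0,3], rfl⟩
  | succ j ih =>
    obtain ⟨P, hP⟩ := ih
    exact ⟨(j+5) :: P, by rw [T, hP]; rfl⟩

theorem T_chain (j : ℕ) : (T j).IsChain G := by
  induction j with
  | zero => decide
  | succ j ih =>
    obtain ⟨t, ht⟩ := T_head j
    rw [T]
    rw [ht] at ih ⊢
    rw [List.isChain_cons_cons]
    exact ⟨Or.inr (Or.inr (Or.inr ⟨by omega, rfl⟩)), ih⟩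

theorem T_mem (j a : ℕ) : a ∈ T j ↔ a < j + 5 ∧ a ≠ 2 := by
  induction j with
  | zero =>
    simp only [T, List.mem_cons, List.not_mem_nil, or_false]
    omega
  | succ j ih =>
    rw [T, List.mem_cons, ih]
    omega

theorem T_nodup (j : ℕ) : (T j).Nodup := by
  induction j with
  | zero => decide
  | succ j ih =>
    rw [T, List.nodup_cons]
    refine ⟨?_, ih⟩
    rw [T_mem]
    omega

theorem M_full (j : ℕ) : Full (j+7) 1 (([j+6, j+5, 2] ++ T j).map (fun v => ({v} : Multiset ℕ))) := by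
  refine ⟨?_, fun A => ?_⟩
  · refine List.Nodup.map (fun a b hab => by simpa using hab) ?_
    rw [List.nodup_append]
    refine ⟨?_, T_nodup j, ?_⟩
    · simp
    · intro a ha b hb hab
      subst hab
      rw [T_mem] at hb
      simp only [List.mem_cons, List.not_mem_nil, or_false] at ha
      omega
  · rw [List.mem_map]
    constructor
    · rintro ⟨v, hv, rfl⟩
      refine ⟨by simp, ?_⟩
      intro a ha
      rw [Multiset.mem_singleton] at ha
      subst ha
      rw [List.mem_append, T_mem] at hv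
      simp only [List.mem_cons, List.not_mem_nil, or_false] at hv
      omega
    · rintro ⟨h1, h2⟩
      obtain ⟨a, rfl⟩ := Multiset.card_eq_one.1 h1
      refine ⟨a, ?_, rfl⟩
      have := h2 a (by simp)
      rw [List.mem_append, T_mem]
      simp only [List.mem_cons, List.not_mem_nil, or_false]
      omega

def Inv (j : ℕ) : Prop := (∃ P Q p q, HC (j+6) 2 (replicate 2 (j+5) ::
  ((j+4) ::ₘ replicate 1 (j+5)) :: ((j+4) ::ₘ (j+4) ::ₘ replicate 0 (j+5)) ::
  (P ++ p :: q :: Q)) ∧ ((p = {2, j+5} ∧ q = {2, 1}) ∨ (p = {2, 1} ∧ q = {2, j+5})))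
  ∧ ∀ t, Start (j+6) (j+5) (j+4) t

theorem rep2 (y : ℕ) : replicate 2 y = y ::ₘ ({y} : Multiset ℕ) := rfl
theorem rep11 (x y : ℕ) : x ::ₘ replicate 1 y = x ::ₘ ({y} : Multiset ℕ) := rfl
theorem rep20 (x y : ℕ) : x ::ₘ x ::ₘ replicate 0 y = x ::ₘ ({x} : Multiset ℕ) := rfl

theorem Gsucc {a : ℕ} (h : 4 ≤ a) : G a (a+1) := Or.inl (Or.inr (Or.inr ⟨h, rfl⟩))
theorem G1 {a : ℕ} (h : 2 ≤ a) : G 1 a := Or.inl (Or.inr (Or.inl ⟨rfl, h⟩))

theorem inv_step (j : ℕ) (h : Inv j) : Inv (j+1) := by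
  obtain ⟨⟨P, Q, p, q, h, hpq⟩, hs⟩ := h
  have key : HC (j+7) 2 (replicate 2 (j+6) ::
    ((j+5) ::ₘ replicate 1 (j+6)) :: ((j+5) ::ₘ (j+5) ::ₘ replicate 0 (j+6)) ::
    ((Q.reverse ++ q :: {2, j+6} :: p :: P.reverse) ++ en (j+5) (j+4) 0 ::
      ((j+4) ::ₘ replicate 1 (j+5)) :: (T j).map (fun v => v ::ₘ ({j+6} : Multiset ℕ)))) := by
    have hen : en (j+5) (j+4) 0 = (j+4) ::ₘ ({j+4} : Multiset ℕ) := rfl
    rw [hen, rep2, rep11, rep20, rep11]
    rw [rep2, rep11, rep20] at h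
    obtain ⟨hF, hC⟩ := h
    refine ⟨?_, ?_⟩
    · have := hF.step (M_full j)
      refine this.perm ?_
      rw [List.map_map]
      have e : ((fun x => (j+6) ::ₘ x) ∘ fun v => ({v} : Multiset ℕ)) =
        (fun v => v ::ₘ ({j+6} : Multiset ℕ)) := by
        funext v
        exact Multiset.pair_comm _ _
      rw [e, List.map_append]
      simp only [List.map_cons, List.map_nil]
      rw [List.perm_iff_count]
      intro c
      simp only [List.count_append, List.count_cons, List.count_reverse,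
        List.cons_append, List.nil_append]
      have e2 : ({2, j+6} : Multiset ℕ) = 2 ::ₘ {j+6} := rfl
      rw [e2]
      ring
    · rw [cyc_cons] at hC ⊢
      simp only [Ch, List.cons_append, List.isChain_cons_cons] at hC
      obtain ⟨h1, h2, h3⟩ := hC
      have h3 := Ch.reverse h3
      have e3 : (((j + 4) ::ₘ ({j + 4} : Multiset ℕ)) :: (P ++ p :: q :: Q ++ [(j + 5) ::ₘ {j + 5}])).reverse
        = (((j + 5) ::ₘ {j + 5}) :: Q.reverse) ++ q :: p :: (P.reverse ++ [(j + 4) ::ₘ {j + 4}]) := by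
        simp
      rw [e3, Ch, List.isChain_append_cons_cons] at h3
      obtain ⟨h3, h4, h5⟩ := h3
      have e4 : (((j+6) ::ₘ ({j+6} : Multiset ℕ)) :: (((j+5) ::ₘ {j+6}) :: ((j+5) ::ₘ {j+5}) ::
        ((Q.reverse ++ q :: {2, j+6} :: p :: P.reverse) ++ ((j+4) ::ₘ {j+4}) ::
        ((j+4) ::ₘ {j+5}) :: (T j).map (fun v => v ::ₘ ({j+6} : Multiset ℕ))) ++
        [(j+6) ::ₘ {j+6}])) =
        ((j+6) ::ₘ ({j+6} : Multiset ℕ)) :: ((j+5) ::ₘ {j+6}) :: ((((j + 5) ::ₘ {j + 5}) ::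
        Q.reverse) ++ q :: {2, j+6} :: (p :: P.reverse ++ ((j+4) ::ₘ {j+4}) ::
        ((j+4) ::ₘ {j+5}) :: ((T j).map (fun v => v ::ₘ ({j+6} : Multiset ℕ)) ++
        [(j+6) ::ₘ {j+6}]))) := by simp
      rw [e4, Ch, List.isChain_cons_cons, List.cons_append, List.isChain_cons_cons,
        ← List.cons_append, List.isChain_append_cons_cons]
      have hx : G (j+5) (j+6) := Gsucc (by omega)
      have h1x : G 1 (j+6) := G1 (by omega)
      refine ⟨?_, ?_, h3, ?_, ?_⟩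
      · exact TAdj.mk hx.symm _
      · rw [show (j+5) ::ₘ ({j+6} : Multiset ℕ) = (j+6) ::ₘ {j+5} from Multiset.pair_comm _ _]
        exact TAdj.mk hx.symm _
      · have e5 : ({2, j+6} : Multiset ℕ) = (j+6) ::ₘ {2} := Multiset.pair_comm _ _
        have e6 : ({2, 1} : Multiset ℕ) = 1 ::ₘ {2} := Multiset.pair_comm _ _
        have e7 : ({2, j+5} : Multiset ℕ) = (j+5) ::ₘ {2} := Multiset.pair_comm _ _
        rcases hpq with ⟨rfl, rfl⟩ | ⟨rfl, rfl⟩
        · rw [e5, e6]; exact TAdj.mk h1x _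
        · rw [e5, e7]; exact TAdj.mk hx _
      rw [List.cons_append, List.isChain_cons_cons, ← List.cons_append,
        List.isChain_append_cons_cons]
      refine ⟨?_, h5, h2.symm, ?_⟩
      · have e5 : ({2, j+6} : Multiset ℕ) = (j+6) ::ₘ {2} := Multiset.pair_comm _ _
        have e6 : ({2, 1} : Multiset ℕ) = 1 ::ₘ {2} := Multiset.pair_comm _ _
        have e7 : ({2, j+5} : Multiset ℕ) = (j+5) ::ₘ {2} := Multiset.pair_comm _ _
        rcases hpq with ⟨rfl, rfl⟩ | ⟨rfl, rfl⟩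
        · rw [e5, e7]; exact TAdj.mk hx.symm _
        · rw [e5, e6]; exact TAdj.mk h1x.symm _
      · obtain ⟨t, ht⟩ := T_head j
        rw [ht, List.map_cons, List.cons_append, List.isChain_cons_cons]
        refine ⟨?_, ?_⟩
        · rw [show (j+4) ::ₘ ({j+5} : Multiset ℕ) = (j+5) ::ₘ {j+4} from Multiset.pair_comm _ _,
            show (j+4) ::ₘ ({j+6} : Multiset ℕ) = (j+6) ::ₘ {j+4} from Multiset.pair_comm _ _]
          exact TAdj.mk hx _
        · rw [← List.cons_append, ← List.map_cons (f := fun v => v ::ₘ ({j+6} : Multiset ℕ)), ← ht,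
            List.isChain_append]
          refine ⟨?_, List.isChain_singleton _, ?_⟩
          · rw [List.isChain_map]
            exact (T_chain j).imp (fun a b hab => TAdj.mk hab _)
          · obtain ⟨R, hR⟩ := T_last j
            intro x hx' y hy
            rw [hR] at hx'
            simp at hx' hy
            subst hx' hy
            exact TAdj.mk h1x _
  refine ⟨?_, ?_⟩
  · rcases hpq with ⟨rfl, rfl⟩ | ⟨rfl, rfl⟩
    · refine ⟨Q.reverse, {2, j+5} :: P.reverse ++ en (j+5) (j+4) 0 ::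
        ((j+4) ::ₘ replicate 1 (j+5)) :: (T j).map (fun v => v ::ₘ ({j+6} : Multiset ℕ)),
        {2, 1}, {2, j+6}, ?_, Or.inr ⟨rfl, rfl⟩⟩
      have e : Q.reverse ++ {2, 1} :: {2, j+6} :: ({2, j+5} :: P.reverse ++ en (j+5) (j+4) 0 ::
        ((j+4) ::ₘ replicate 1 (j+5)) :: (T j).map (fun v => v ::ₘ ({j+6} : Multiset ℕ))) =
        (Q.reverse ++ {2, 1} :: {2, j+6} :: {2, j+5} :: P.reverse) ++ en (j+5) (j+4) 0 ::
      ((j+4) ::ₘ replicate 1 (j+5)) :: (T j).map (fun v => v ::ₘ ({j+6} : Multiset ℕ)) := by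
        simp
      rw [e]
      exact key
    · refine ⟨Q.reverse ++ [{2, j+5}], P.reverse ++ en (j+5) (j+4) 0 ::
        ((j+4) ::ₘ replicate 1 (j+5)) :: (T j).map (fun v => v ::ₘ ({j+6} : Multiset ℕ)),
        {2, j+6}, {2, 1}, ?_, Or.inl ⟨rfl, rfl⟩⟩
      have e : Q.reverse ++ [{2, j+5}] ++ {2, j+6} :: {2, 1} :: (P.reverse ++ en (j+5) (j+4) 0 ::
        ((j+4) ::ₘ replicate 1 (j+5)) :: (T j).map (fun v => v ::ₘ ({j+6} : Multiset ℕ))) =
        (Q.reverse ++ {2, j+5} :: {2, j+6} :: {2, 1} :: P.reverse) ++ en (j+5) (j+4) 0 ::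
      ((j+4) ::ₘ replicate 1 (j+5)) :: (T j).map (fun v => v ::ₘ ({j+6} : Multiset ℕ)) := by
        simp
      rw [e]
      exact key
  · intro t
    exact chain_start (Gsucc (by omega : 4 ≤ j+5)).symm (fun t _ => hs (t+1)) key t (Nat.zero_le t)

theorem inv_all (j : ℕ) : Inv j := by
  induction j with
  | zero => exact ⟨⟨_, _, _, _, hc6, Or.inl ⟨rfl, rfl⟩⟩, start6⟩
  | succ j ih => exact inv_step j ih

end Pool.Agent.X70.MG
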