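import Mathlib

/-!
Lions and contamination (MP_95728c_co), definitions (same as in the hand-in MonotoneSweepsFail).
-/

namespace Pool.Agent.X70.Lions

open Finset

variable {V : Type} [Fintype V] [DecidableEq V]

/-- The set of cleared vertices after a step in which the lions go from `p` to `q`, if `C` was the
set of cleared vertices before: the occupied vertices, and the vertices `v` of `C` such that along
every edge `vu` to a contaminated vertex `u` some lion moves from `v` to `u`. -/
def step (G : SimpleGraph V) [DecidableRel G.Adj] {k : ℕ} (C : Finset V) (p q : Fin k → V) :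
    Finset V :=
  univ.filter fun v => (∃ i, q i = v) ∨
    (v ∈ C ∧ ∀ u, G.Adj v u → u ∉ C → ∃ i, p i = v ∧ q i = u)

/-- The set `C(t)` of cleared vertices at time `t`, the lions being at `P t`. -/
def cleared (G : SimpleGraph V) [DecidableRel G.Adj] {k : ℕ} (P : ℕ → Fin k → V) : ℕ → Finset V
  | 0 => univ.image (P 0)
  | t + 1 => step G (cleared G P t) (P t) (P (t + 1))

/-- The lions always stay where they are or move along an edge. -/
def Legal (G : SimpleGraph V) {k : ℕ} (P : ℕ → Fin k → V) : Prop :=
  ∀ t i, P (t + 1) i = P t i ∨ G.Adj (P t i) (P (t + 1) i)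

/-- `k` lions can sweep `G`. -/
def Sweepable (G : SimpleGraph V) [DecidableRel G.Adj] (k : ℕ) : Prop :=
  ∃ P : ℕ → Fin k → V, Legal G P ∧ ∃ T, cleared G P T = univ

/-- `k` lions can sweep `G` monotonically. -/
def MonotoneSweepable (G : SimpleGraph V) [DecidableRel G.Adj] (k : ℕ) : Prop :=
  ∃ P : ℕ → Fin k → V, Legal G P ∧ ∃ T, cleared G P T = univ ∧
    ∀ t < T, cleared G P t ⊆ cleared G P (t + 1)

end Pool.Agent.X70.Lions
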