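import Mathlib
import Pool.Agent.X70.Lions

namespace Pool.Agent.X70.LionsK23

open Finset Pool.Agent.X70.Lions

/-- The graph `K_{2,3}`, with parts `{0, 1}` and `{2, 3, 4}`. -/
def K23 : SimpleGraph (Fin 5) where
  Adj a b := (a < 2 ∧ 2 ≤ b) ∨ (b < 2 ∧ 2 ≤ a)
  symm := ⟨fun _ _ h => h.symm⟩
  loopless := ⟨fun a h => by revert a h; decide⟩

instance : DecidableRel K23.Adj := fun a b =>
  inferInstanceAs (Decidable ((a < 2 ∧ 2 ≤ b) ∨ (b < 2 ∧ 2 ≤ a)))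

/-- A sweep by two lions. -/
def P0 : ℕ → Fin 2 → Fin 5
  | 0 => ![0, 2]
  | 1 => ![3, 1]
  | 2 => ![0, 4]
  | _ => ![2, 1]

lemma legal_P0 : Legal K23 P0 := by
  intro t i
  match t with
  | 0 => revert i; decide
  | 1 => revert i; decide
  | 2 => revert i; decide
  | t + 3 => left; rfl

lemma sweep_K23 : Sweepable K23 2 := by
  refine ⟨P0, legal_P0, 3, ?_⟩
  decide +kernel

/-- The two-lion step with explicit positions. -/
def step2 (C : Finset (Fin 5)) (p0 p1 q0 q1 : Fin 5) : Finset (Fin 5) :=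
  univ.filter fun v => (q0 = v ∨ q1 = v) ∨
    (v ∈ C ∧ ∀ u, K23.Adj v u → u ∉ C → (p0 = v ∧ q0 = u) ∨ (p1 = v ∧ q1 = u))

lemma step_eq (C : Finset (Fin 5)) (p q : Fin 2 → Fin 5) :
    step K23 C p q = step2 C (p 0) (p 1) (q 0) (q 1) := by
  ext v
  simp only [step, step2, mem_filter, mem_univ, true_and, Fin.exists_fin_two]

/-- The invariant of monotonic play. -/
def Inv (C : Finset (Fin 5)) (p0 p1 : Fin 5) : Prop :=
  C = {p0, p1} ∨ (((p0 = 0 ∧ p1 = 1) ∨ (p0 = 1 ∧ p1 = 0)) ∧ ∃ x : Fin 5, C = {0, 1, x})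

instance (C : Finset (Fin 5)) (p0 p1 : Fin 5) : Decidable (Inv C p0 p1) := by
  unfold Inv; infer_instance

lemma inv_step1 : ∀ p0 p1 q0 q1 : Fin 5, (q0 = p0 ∨ K23.Adj p0 q0) → (q1 = p1 ∨ K23.Adj p1 q1) →
    ({p0, p1} : Finset (Fin 5)) ⊆ step2 {p0, p1} p0 p1 q0 q1 →
    Inv (step2 {p0, p1} p0 p1 q0 q1) q0 q1 := by
  decide +kernel

lemma inv_step2 : ∀ x q0 q1 : Fin 5, (q0 = 0 ∨ K23.Adj 0 q0) → (q1 = 1 ∨ K23.Adj 1 q1) →
    ({0, 1, x} : Finset (Fin 5)) ⊆ step2 {0, 1, x} 0 1 q0 q1 →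
    Inv (step2 {0, 1, x} 0 1 q0 q1) q0 q1 := by
  decide +kernel

lemma inv_step3 : ∀ x q0 q1 : Fin 5, (q0 = 1 ∨ K23.Adj 1 q0) → (q1 = 0 ∨ K23.Adj 0 q1) →
    ({0, 1, x} : Finset (Fin 5)) ⊆ step2 {0, 1, x} 1 0 q0 q1 →
    Inv (step2 {0, 1, x} 1 0 q0 q1) q0 q1 := by
  decide +kernel

lemma inv_ne_univ1 : ∀ p0 p1 : Fin 5, ({p0, p1} : Finset (Fin 5)) ≠ univ := by
  decide +kernel

lemma inv_ne_univ2 : ∀ x : Fin 5, ({0, 1, x} : Finset (Fin 5)) ≠ univ := by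
  decide +kernel

lemma not_monotone_K23 : ¬ MonotoneSweepable K23 2 := by
  rintro ⟨P, hP, T, hT, hm⟩
  have key : ∀ t ≤ T, Inv (cleared K23 P t) (P t 0) (P t 1) := by
    intro t
    induction t with
    | zero =>
      intro _
      left
      ext v
      simp only [cleared, mem_image, mem_univ, true_and, Fin.exists_fin_two, mem_insert,
        mem_singleton, eq_comm]
    | succ t ih =>
      intro ht
      have h1 := ih (by omega)
      have h2 := hm t (by omega)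
      have h3 := hP t 0
      have h4 := hP t 1
      rw [cleared, step_eq] at h2 ⊢
      rcases h1 with h1 | ⟨⟨h5, h6⟩ | ⟨h5, h6⟩, x, h1⟩
      · rw [h1] at h2 ⊢
        exact inv_step1 _ _ _ _ h3 h4 h2
      · rw [h1, h5, h6] at h2 ⊢
        rw [h5] at h3
        rw [h6] at h4
        exact inv_step2 _ _ _ h3 h4 h2
      · rw [h1, h5, h6] at h2 ⊢
        rw [h5] at h3
        rw [h6] at h4
        exact inv_step3 _ _ _ h3 h4 h2
  rcases key T le_rfl with h | ⟨-, x, h⟩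
  · rw [hT] at h
    exact inv_ne_univ1 _ _ h.symm
  · rw [hT] at h
    exact inv_ne_univ2 _ h.symm


end Pool.Agent.X70.LionsK23
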