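import Mathlib
import Pool.Agent.X70.Lions

namespace Pool.Agent.X70.LionsOne

open Finset Pool.Agent.X70.Lions

variable {V : Type} [Fintype V] [DecidableEq V] (G : SimpleGraph V) [DecidableRel G.Adj]

/-- cleared set with one lion -/
def c1 (p : ℕ → V) (t : ℕ) : Finset V := cleared G (k := 1) (fun t _ => p t) t

theorem mem_zero {p : ℕ → V} {v : V} : v ∈ c1 G p 0 ↔ p 0 = v := by
  simp [c1, cleared, eq_comm]

theorem mem_succ {p : ℕ → V} {t : ℕ} {v : V} : v ∈ c1 G p (t + 1) ↔
    p (t + 1) = v ∨ (v ∈ c1 G p t ∧ ∀ u, G.Adj v u → u ∉ c1 G p t → p t = v ∧ p (t + 1) = u) := by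
  simp [c1, cleared, step]

/-- at most two neighbours -/
def Deg2 (x : V) : Prop := ∀ a b c, G.Adj x a → G.Adj x b → G.Adj x c → a = b ∨ a = c ∨ b = c

theorem deg_inv {p : ℕ → V} (hp : ∀ t, p (t + 1) = p t ∨ G.Adj (p t) (p (t + 1))) :
    ∀ t, (Deg2 G (p t) ∨ ∀ a b, G.Adj (p t) a → G.Adj (p t) b → a ∈ c1 G p t →
      b ∈ c1 G p t → a = b) ∧ ∀ x ∈ c1 G p t, x ≠ p t → Deg2 G x := by
  intro t
  induction t with
  | zero =>
    constructor
    · right
      intro a b ha _ ha' _
      rw [mem_zero] at ha'
      rw [← ha'] at ha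
      exact absurd ha (G.loopless.irrefl _)
    · intro x hx hne
      rw [mem_zero] at hx
      exact absurd hx.symm hne
  | succ t ih =>
    obtain ⟨hJ, hK⟩ := ih
    constructor
    · by_cases hst : p (t + 1) = p t
      · rcases hJ with h | h
        · left; rw [hst]; exact h
        · right
          intro a b ha hb ha' hb'
          rw [mem_succ] at ha' hb'
          rcases ha' with ha' | ha'
          · rw [← ha'] at ha; exact absurd ha (G.loopless.irrefl _)
          rcases hb' with hb' | hb'
          · rw [← hb'] at hb; exact absurd hb (G.loopless.irrefl _)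
          rw [hst] at ha hb
          exact h a b ha hb ha'.1 hb'.1
      · have hadj : G.Adj (p t) (p (t + 1)) := (hp t).resolve_left hst
        by_cases hq : p (t + 1) ∈ c1 G p t
        · left; exact hK _ hq hst
        · right
          have key : ∀ a, G.Adj (p (t + 1)) a → a ∈ c1 G p (t + 1) → p t = a := by
            intro a ha ha'
            rw [mem_succ] at ha'
            rcases ha' with ha' | ha'
            · rw [← ha'] at ha; exact absurd ha (G.loopless.irrefl _)
            · exact (ha'.2 _ ha.symm hq).1
          intro a b ha hb ha' hb'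
          exact (key a ha ha').symm.trans (key b hb hb')
    · intro x hx hne
      rw [mem_succ] at hx
      rcases hx with hx | ⟨hx, hret⟩
      · exact absurd hx.symm hne
      by_cases hxp : x = p t
      · rcases hJ with h | h
        · rw [hxp]; exact h
        · subst hxp
          intro a b c ha hb hc
          by_cases h1 : a ∈ c1 G p t <;> by_cases h2 : b ∈ c1 G p t <;>
            by_cases h3 : c ∈ c1 G p t
          · left; exact h a b ha hb h1 h2
          · left; exact h a b ha hb h1 h2
          · right; left; exact h a c ha hc h1 h3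
          · right; right; exact (hret b hb h2).2.symm.trans (hret c hc h3).2
          · right; right; exact h b c hb hc h2 h3
          · right; left; exact (hret a ha h1).2.symm.trans (hret c hc h3).2
          · left; exact (hret a ha h1).2.symm.trans (hret b hb h2).2
          · left; exact (hret a ha h1).2.symm.trans (hret b hb h2).2
      · exact hK x hx hxp

theorem reach {p : ℕ → V} (hp : ∀ t, p (t + 1) = p t ∨ G.Adj (p t) (p (t + 1))) :
    ∀ t, G.Reachable (p 0) (p t) ∧ ∀ x ∈ c1 G p t, G.Reachable (p 0) x := by
  intro t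
  induction t with
  | zero =>
    refine ⟨SimpleGraph.Reachable.refl _, fun x hx => ?_⟩
    rw [mem_zero] at hx
    rw [hx]
  | succ t ih =>
    have h1 : G.Reachable (p 0) (p (t + 1)) := by
      rcases hp t with h | h
      · rw [h]; exact ih.1
      · exact ih.1.trans h.reachable
    refine ⟨h1, fun x hx => ?_⟩
    rw [mem_succ] at hx
    rcases hx with hx | hx
    · rw [← hx]; exact h1
    · exact ih.2 x hx.1

omit [Fintype V] [DecidableRel G.Adj] in
/-- an edge leaving a set -/
theorem exists_edge {S : Finset V} {q u : V} (hq : q ∈ S) (hu : u ∉ S) (h : G.Reachable q u) :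
    ∃ v w, v ∈ S ∧ w ∉ S ∧ G.Adj v w := by
  obtain ⟨W⟩ := h
  induction W with
  | nil => exact absurd hq hu
  | @cons a b c hab W ih =>
    by_cases hb : b ∈ S
    · exact ih hb hu
    · exact ⟨a, b, hq, hb, hab⟩

theorem greedy {q : V} (hleaf : ∀ a b, G.Adj q a → G.Adj q b → a = b) (hdeg : ∀ x, Deg2 G x)
    (hconn : ∀ x, G.Reachable q x) : ∀ m : ℕ, ∃ (p : ℕ → V) (t : ℕ),
      (∀ s, p (s + 1) = p s ∨ G.Adj (p s) (p (s + 1))) ∧
      (∀ s < t, c1 G p s ⊆ c1 G p (s + 1)) ∧ q ∈ c1 G p t ∧
      (∀ v ∈ c1 G p t, v ≠ p t → ∀ u, G.Adj v u → u ∈ c1 G p t) ∧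
      (p t = q ∨ ∃ a ∈ c1 G p t, G.Adj (p t) a) ∧
      (c1 G p t = univ ∨ m + 1 ≤ (c1 G p t).card) := by
  intro m
  induction m with
  | zero =>
    refine ⟨fun _ => q, 0, fun s => Or.inl rfl, fun s hs => absurd hs (Nat.not_lt_zero s), ?_, ?_,
      Or.inl rfl, Or.inr ?_⟩
    · rw [mem_zero]
    · intro v hv hne
      rw [mem_zero] at hv
      exact absurd hv.symm hne
    · rw [Nat.succ_le_iff, Finset.card_pos]
      exact ⟨q, by rw [mem_zero]⟩
  | succ m ih =>
    obtain ⟨p, t, hp, hmono, hqS, htight, hnb, hcard⟩ := ih
    by_cases hS : c1 G p t = univ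
    · exact ⟨p, t, hp, hmono, hqS, htight, hnb, Or.inl hS⟩
    have hcard' : m + 1 ≤ (c1 G p t).card := hcard.resolve_left hS
    obtain ⟨u, hu⟩ : ∃ u, u ∉ c1 G p t := by
      by_contra hcon
      push Not at hcon
      exact hS (Finset.eq_univ_iff_forall.2 hcon)
    obtain ⟨v, w, hv, hw, hvw⟩ := exists_edge G hqS hu (hconn u)
    have hvx : v = p t := by
      by_contra hne
      exact hw (htight v hv hne w hvw)
    subst hvx
    have huniq : ∀ w', G.Adj (p t) w' → w' ∉ c1 G p t → w = w' := by
      intro w' h1 h2
      rcases hnb with h | ⟨a, ha, haa⟩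
      · rw [h] at hvw h1
        exact hleaf _ _ hvw h1
      · rcases hdeg (p t) a w w' haa hvw h1 with h | h | h
        · rw [h] at ha; exact absurd ha hw
        · rw [h] at ha; exact absurd ha h2
        · exact h
    let p' : ℕ → V := fun s => if s ≤ t then p s else w
    have hp'le : ∀ s ≤ t, p' s = p s := fun s hs => if_pos hs
    have hp'gt : p' (t + 1) = w := if_neg (by omega)
    have hc : ∀ s ≤ t, c1 G p' s = c1 G p s := by
      intro s
      induction s with
      | zero => intro _; ext x; rw [mem_zero, mem_zero, hp'le 0 (by omega)]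
      | succ s ihs =>
        intro hs
        ext x
        rw [mem_succ, mem_succ, ihs (by omega), hp'le s (by omega), hp'le (s + 1) hs]
    have hcn : c1 G p' (t + 1) = insert w (c1 G p t) := by
      ext x
      rw [mem_succ, hc t le_rfl, hp'le t le_rfl, hp'gt, Finset.mem_insert]
      constructor
      · rintro (h | h)
        · left; exact h.symm
        · right; exact h.1
      · rintro (h | h)
        · left; exact h.symm
        · right
          refine ⟨h, fun u hxu hu' => ?_⟩
          by_cases hxp : x = p t
          · subst hxp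
            exact ⟨rfl, huniq u hxu hu'⟩
          · exact absurd (htight x h hxp u hxu) hu'
    refine ⟨p', t + 1, ?_, ?_, ?_, ?_, ?_, ?_⟩
    · intro s
      by_cases h1 : s + 1 ≤ t
      · rw [hp'le s (by omega), hp'le (s + 1) h1]; exact hp s
      · by_cases h2 : s = t
        · subst h2
          rw [hp'le s le_rfl, hp'gt]
          right; exact hvw
        · left
          have e1 : p' (s + 1) = w := if_neg (by omega)
          have e2 : p' s = w := if_neg (by omega)
          rw [e1, e2]
    · intro s hs
      by_cases h1 : s + 1 ≤ t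
      · rw [hc s (by omega), hc (s + 1) h1]; exact hmono s (by omega)
      · have h2 : s = t := by omega
        subst h2
        rw [hc s le_rfl, hcn]
        exact Finset.subset_insert _ _
    · rw [hcn]; exact Finset.mem_insert_of_mem hqS
    · intro x hx hne u hxu
      rw [hcn] at hx ⊢
      rw [hp'gt] at hne
      have hx' : x ∈ c1 G p t := (Finset.mem_insert.1 hx).resolve_left hne
      by_cases hxp : x = p t
      · by_cases hu' : u ∈ c1 G p t
        · exact Finset.mem_insert_of_mem hu'
        · subst hxp
          rw [← huniq u hxu hu']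
          exact Finset.mem_insert_self _ _
      · exact Finset.mem_insert_of_mem (htight x hx' hxp u hxu)
    · right
      refine ⟨p t, ?_, ?_⟩
      · rw [hcn]; exact Finset.mem_insert_of_mem hv
      · rw [hp'gt]; exact hvw.symm
    · right
      rw [hcn, Finset.card_insert_of_notMem hw]
      omega

/-- If one lion can sweep `G`, one lion can sweep it monotonically. -/
theorem one (h : Sweepable G 1) : MonotoneSweepable G 1 := by
  obtain ⟨P, hP, hT⟩ := h
  have hPe : P = fun t _ => P t 0 := by
    funext t i
    rw [Subsingleton.elim i 0]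
  set p : ℕ → V := fun t => P t 0 with hpdef
  have hp : ∀ t, p (t + 1) = p t ∨ G.Adj (p t) (p (t + 1)) := fun t => hP t 0
  have hT' : ∃ T, c1 G p T = univ := by
    obtain ⟨T, hT⟩ := hT
    exact ⟨T, by unfold c1; rw [← hPe]; exact hT⟩
  classical
  obtain ⟨T, hTu, hTmin⟩ : ∃ T, c1 G p T = univ ∧ ∀ s < T, c1 G p s ≠ univ :=
    ⟨Nat.find hT', Nat.find_spec hT', fun s hs => Nat.find_min hT' hs⟩
  have hall : ∀ x, x ∈ c1 G p T := fun x => by rw [hTu]; exact Finset.mem_univ x
  have hdeg1 : ∀ x, x ≠ p T → Deg2 G x := fun x hx => (deg_inv G hp T).2 x (hall x) hx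
  have hleaf : ∀ a b, G.Adj (p T) a → G.Adj (p T) b → a = b := by
    cases T with
    | zero =>
      intro a b ha _
      have := hall a
      rw [mem_zero] at this
      rw [← this] at ha
      exact absurd ha (G.loopless.irrefl _)
    | succ T =>
      obtain ⟨u, hu⟩ : ∃ u, u ∉ c1 G p T := by
        by_contra hcon
        push Not at hcon
        exact hTmin T (by omega) (Finset.eq_univ_iff_forall.2 hcon)
      have huT := hall u
      rw [mem_succ] at huT
      have hq : p (T + 1) = u := huT.resolve_right (fun h => hu h.1)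
      have key : ∀ a, G.Adj (p (T + 1)) a → p T = a := by
        intro a ha
        have h1 := hall a
        rw [mem_succ] at h1
        rcases h1 with h1 | h1
        · rw [← h1] at ha; exact absurd ha (G.loopless.irrefl _)
        · exact (h1.2 (p (T + 1)) ha.symm (by rw [hq]; exact hu)).1
      intro a b ha hb
      exact (key a ha).symm.trans (key b hb)
  have hdeg : ∀ x, Deg2 G x := by
    intro x
    by_cases hx : x = p T
    · subst hx
      intro a b c ha hb _
      left; exact hleaf a b ha hb
    · exact hdeg1 x hx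
  have hconn : ∀ x, G.Reachable (p T) x := fun x =>
    (reach G hp T).1.symm.trans ((reach G hp T).2 x (hall x))
  obtain ⟨p', t, hp', hmono, -, -, -, hcard⟩ := greedy G hleaf hdeg hconn (Fintype.card V)
  refine ⟨fun t _ => p' t, fun t _ => hp' t, t, ?_, hmono⟩
  rcases hcard with h | h
  · exact h
  · exfalso
    have := Finset.card_le_univ (c1 G p' t)
    omega

end Pool.Agent.X70.LionsOne
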