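import Mathlib

namespace Pool.Agent.X70.FPPBase

open Finset

variable {n : ℕ}

/-- `r` is (the set of pairs of) an order relation on `Fin n`: reflexive, antisymmetric,
transitive. -/
def IsOrderRel (r : Finset (Fin n × Fin n)) : Prop :=
  (∀ a, (a, a) ∈ r) ∧ (∀ a b, (a, b) ∈ r → (b, a) ∈ r → a = b) ∧
    ∀ a b c, (a, b) ∈ r → (b, c) ∈ r → (a, c) ∈ r

/-- The fixed point property of the ordered set `(Fin n, r)`. -/
def HasFPP (r : Finset (Fin n × Fin n)) : Prop :=
  ∀ f : Fin n → Fin n, (∀ a b, (a, b) ∈ r → (f a, f b) ∈ r) → ∃ x, f x = x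

/-- `c 0, c 1, ..., c (n choose 2)` are the members of a maximal chain of order relations on
`Fin n`: it starts at the discrete order, ends at a linear order, and each step adds exactly one
pair. -/
def IsMaximalChain (n : ℕ) (c : ℕ → Finset (Fin n × Fin n)) : Prop :=
  (∀ i ≤ n.choose 2, IsOrderRel (c i)) ∧ (∀ a b, (a, b) ∈ c 0 ↔ a = b) ∧
    (∀ a b, (a, b) ∈ c (n.choose 2) ∨ (b, a) ∈ c (n.choose 2)) ∧
    ∀ i < n.choose 2, ∃ p, p ∉ c i ∧ c (i + 1) = insert p (c i)
/-! ### Fixed points from comparability -/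

theorem fix_of_rel {α : Type*} [Finite α] (R : α → α → Prop) (hr : ∀ a, R a a)
    (ha : ∀ a b, R a b → R b a → a = b) (ht : ∀ a b c, R a b → R b c → R a c)
    (f : α → α) (hf : ∀ a b, R a b → R (f a) (f b)) (p : α) (hp : R p (f p)) : ∃ x, f x = x := by
  classical
  cases nonempty_fintype α
  obtain ⟨x, hx, hmax⟩ := Finset.exists_max_image (Finset.univ.filter fun x => R x (f x))
    (fun x => (Finset.univ.filter fun y => R y x).card) ⟨p, by simpa using hp⟩
  have hx1 : R x (f x) := by simpa using hx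
  refine ⟨x, ?_⟩
  have h1 : R (f x) (f (f x)) := hf _ _ hx1
  have h2 := hmax (f x) (by simpa using h1)
  have hsub : (Finset.univ.filter fun y => R y x) ⊆ (Finset.univ.filter fun y => R y (f x)) := by
    intro y hy
    simp only [Finset.mem_filter, Finset.mem_univ, true_and] at hy ⊢
    exact ht _ _ _ hy hx1
  have heq := Finset.eq_of_subset_of_card_le hsub h2
  have h3 : f x ∈ (Finset.univ.filter fun y => R y x) := by
    rw [heq]; simpa using hr (f x)
  exact ha _ _ (by simpa using h3) hx1

theorem fix_of_comp {r : Finset (Fin n × Fin n)} (hr : IsOrderRel r) (f : Fin n → Fin n)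
    (hf : ∀ a b, (a, b) ∈ r → (f a, f b) ∈ r) (p : Fin n)
    (hp : (p, f p) ∈ r ∨ (f p, p) ∈ r) : ∃ x, f x = x := by
  rcases hp with hp | hp
  · exact fix_of_rel (fun a b => (a, b) ∈ r) hr.1 hr.2.1 hr.2.2 f hf p hp
  · exact fix_of_rel (fun a b => (b, a) ∈ r) hr.1 (fun a b h1 h2 => hr.2.1 a b h2 h1)
      (fun a b c h1 h2 => hr.2.2 c b a h2 h1) f (fun a b h => hf b a h) p hp

/-! ### Counting incomparable pairs -/

/-- the diagonal -/
def diagEmb : Fin n ↪ Fin n × Fin n := ⟨fun a => (a, a), fun _ _ h => (Prod.ext_iff.1 h).1⟩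

theorem mem_diag {a b : Fin n} :
    (a, b) ∈ (Finset.univ : Finset (Fin n)).map diagEmb ↔ a = b := by
  rw [Finset.mem_map]
  constructor
  · rintro ⟨c, _, hc⟩
    have h := Prod.ext_iff.1 hc
    exact h.1.symm.trans h.2
  · rintro rfl
    exact ⟨a, Finset.mem_univ _, rfl⟩

/-- ordered incomparable pairs -/
def inc (r : Finset (Fin n × Fin n)) : Finset (Fin n × Fin n) :=
  Finset.univ.filter fun p => p ∉ r ∧ p.swap ∉ r

theorem mem_inc {r : Finset (Fin n × Fin n)} {a b : Fin n} :
    (a, b) ∈ inc r ↔ (a, b) ∉ r ∧ (b, a) ∉ r := by simp [inc]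

theorem card_inc {r : Finset (Fin n × Fin n)} (hr : IsOrderRel r) :
    (inc r).card + 2 * r.card = n * n + n := by
  have h1 : (inc r).card + (r ∪ r.map (Equiv.prodComm _ _).toEmbedding).card = n * n := by
    rw [← Finset.card_union_of_disjoint]
    · have : inc r ∪ (r ∪ r.map (Equiv.prodComm _ _).toEmbedding) = Finset.univ := by
        ext ⟨a, b⟩
        simp only [Finset.mem_union, mem_inc, Finset.mem_univ, iff_true, Finset.mem_map_equiv,
          Equiv.prodComm_symm, Equiv.prodComm_apply, Prod.swap_prod_mk]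
        tauto
      rw [this, Finset.card_univ, Fintype.card_prod, Fintype.card_fin]
    · rw [Finset.disjoint_left]
      rintro ⟨a, b⟩ h1 h2
      rw [mem_inc] at h1
      simp only [Finset.mem_union, Finset.mem_map_equiv,
          Equiv.prodComm_symm, Equiv.prodComm_apply, Prod.swap_prod_mk] at h2
      tauto
  have h2 : (r ∪ r.map (Equiv.prodComm _ _).toEmbedding).card
      + (r ∩ r.map (Equiv.prodComm _ _).toEmbedding).card = r.card + r.card := by
    rw [Finset.card_union_add_card_inter, Finset.card_map]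
  have h3 : (r ∩ r.map (Equiv.prodComm _ _).toEmbedding).card = n := by
    have : r ∩ r.map (Equiv.prodComm _ _).toEmbedding
        = (Finset.univ : Finset (Fin n)).map diagEmb := by
      ext ⟨a, b⟩
      rw [mem_diag]
      simp only [Finset.mem_inter, Finset.mem_map_equiv, Equiv.prodComm_symm, Equiv.prodComm_apply,
        Prod.swap_prod_mk]
      constructor
      · rintro ⟨h1, h2⟩
        exact hr.2.1 a b h1 h2
      · rintro rfl
        exact ⟨hr.1 a, hr.1 a⟩
    rw [this, Finset.card_map, Finset.card_univ, Fintype.card_fin]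
  omega

theorem two_choose (n : ℕ) : 2 * n.choose 2 + n = n * n := by
  rw [Nat.choose_two_right]
  have h : 2 ∣ n * (n - 1) := by
    rcases Nat.even_or_odd n with h | h
    · exact Dvd.dvd.mul_right h.two_dvd _
    · rcases h with ⟨k, rfl⟩
      exact Dvd.dvd.mul_left ⟨k, by omega⟩ _
  rw [Nat.mul_div_cancel' h]
  cases n with
  | zero => rfl
  | succ m => simp only [Nat.add_sub_cancel]; ring

theorem card_chain {c : ℕ → Finset (Fin n × Fin n)} (hc : IsMaximalChain n c) :
    ∀ i ≤ n.choose 2, (c i).card = n + i := by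
  intro i
  induction i with
  | zero =>
    intro _
    have : c 0 = (Finset.univ : Finset (Fin n)).map diagEmb := by
      ext ⟨a, b⟩
      rw [hc.2.1 a b, mem_diag]
    rw [this, Finset.card_map, Finset.card_univ, Fintype.card_fin]
    rfl
  | succ i ih =>
    intro hi
    obtain ⟨p, hp, h⟩ := hc.2.2.2 i (by omega)
    rw [h, Finset.card_insert_of_notMem hp, ih (by omega)]
    omega

theorem card_inc_chain {c : ℕ → Finset (Fin n × Fin n)} (hc : IsMaximalChain n c) (i : ℕ)
    (hi : i ≤ n.choose 2) : (inc (c i)).card = 2 * (n.choose 2 - i) := by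
  have h1 := card_inc (hc.1 i hi)
  have h2 := card_chain hc i hi
  have h3 := two_choose n
  omega

/-- If there are fewer than `n/2` incomparable pairs, the order has the fixed point property. -/
theorem fpp_of_few {r : Finset (Fin n × Fin n)} (hr : IsOrderRel r) (h : (inc r).card < n) :
    HasFPP r := by
  intro f hf
  by_contra hno
  push Not at hno
  have hall : ∀ a, (a, f a) ∈ inc r := by
    intro a
    rw [mem_inc]
    constructor
    · intro h1
      obtain ⟨x, hx⟩ := fix_of_comp hr f hf a (Or.inl h1)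
      exact hno x hx
    · intro h1
      obtain ⟨x, hx⟩ := fix_of_comp hr f hf a (Or.inr h1)
      exact hno x hx
  have h1 : (Finset.univ : Finset (Fin n)).card ≤ (inc r).card := by
    apply Finset.card_le_card_of_injOn (fun a => (a, f a))
    · intro a _; exact hall a
    · intro a _ b _ hab
      exact (Prod.ext_iff.1 hab).1
  rw [Finset.card_univ, Fintype.card_fin] at h1
  omega
/-! ### Refining chains of orders -/

/-- Between two orders one can add a single pair. -/
theorem exists_step {P Q : Finset (Fin n × Fin n)} (hP : IsOrderRel P) (hQ : IsOrderRel Q)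
    (hPQ : P ⊆ Q) (hne : P ≠ Q) : ∃ p, p ∉ P ∧ p ∈ Q ∧ IsOrderRel (insert p P) := by
  have hne2 : (Q \ P).Nonempty := by
    rw [Finset.sdiff_nonempty]
    intro h
    exact hne (Finset.Subset.antisymm hPQ h)
  obtain ⟨⟨a, b⟩, hab, hmin⟩ := Finset.exists_min_image (Q \ P)
    (fun q => (Q.filter fun z => z.2 = q.1).card + (Q.filter fun z => z.1 = q.2).card) hne2
  rw [Finset.mem_sdiff] at hab
  have hne3 : a ≠ b := by
    rintro rfl
    exact hab.2 (hP.1 a)
  -- strictly smaller down-sets
  have hdown : ∀ c, c ≠ a → (c, a) ∈ Q →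
      (Q.filter fun z => z.2 = c).card < (Q.filter fun z => z.2 = a).card := by
    intro c hca hc
    have h1 : ((Q.filter fun z => z.2 = c).image fun z => (z.1, a)).card
        = (Q.filter fun z => z.2 = c).card := by
      apply Finset.card_image_of_injOn
      intro z hz w hw hzw
      simp only [Finset.coe_filter, Set.mem_ofPred_eq] at hz hw
      exact Prod.ext (Prod.ext_iff.1 hzw).1 (hz.2.trans hw.2.symm)
    rw [← h1]
    apply Finset.card_lt_card
    rw [Finset.ssubset_iff_of_subset]
    · refine ⟨(a, a), ?_, ?_⟩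
      · rw [Finset.mem_filter]; exact ⟨hQ.1 a, rfl⟩
      · intro h
        rw [Finset.mem_image] at h
        obtain ⟨z, hz, hza⟩ := h
        rw [Finset.mem_filter] at hz
        have e1 : z.1 = a := (Prod.ext_iff.1 hza).1
        have : (a, c) ∈ Q := by
          rw [← e1, ← hz.2]; exact hz.1
        exact hca (hQ.2.1 c a hc this)
    · intro z hz
      rw [Finset.mem_image] at hz
      obtain ⟨w, hw, rfl⟩ := hz
      rw [Finset.mem_filter] at hw ⊢
      refine ⟨hQ.2.2 _ c _ ?_ hc, rfl⟩
      rw [← hw.2]; exact hw.1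
  have hup : ∀ d, d ≠ b → (b, d) ∈ Q →
      (Q.filter fun z => z.1 = d).card < (Q.filter fun z => z.1 = b).card := by
    intro d hdb hd
    have h1 : ((Q.filter fun z => z.1 = d).image fun z => (b, z.2)).card
        = (Q.filter fun z => z.1 = d).card := by
      apply Finset.card_image_of_injOn
      intro z hz w hw hzw
      simp only [Finset.coe_filter, Set.mem_ofPred_eq] at hz hw
      exact Prod.ext (hz.2.trans hw.2.symm) (Prod.ext_iff.1 hzw).2
    rw [← h1]
    apply Finset.card_lt_card
    rw [Finset.ssubset_iff_of_subset]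
    · refine ⟨(b, b), ?_, ?_⟩
      · rw [Finset.mem_filter]; exact ⟨hQ.1 b, rfl⟩
      · intro h
        rw [Finset.mem_image] at h
        obtain ⟨z, hz, hza⟩ := h
        rw [Finset.mem_filter] at hz
        have e1 : z.2 = b := (Prod.ext_iff.1 hza).2
        have : (d, b) ∈ Q := by
          rw [← e1, ← hz.2]; exact hz.1
        exact hdb (hQ.2.1 d b this hd)
    · intro z hz
      rw [Finset.mem_image] at hz
      obtain ⟨w, hw, rfl⟩ := hz
      rw [Finset.mem_filter] at hw ⊢
      refine ⟨hQ.2.2 _ d _ hd ?_, rfl⟩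
      rw [← hw.2]; exact hw.1
  have hA : ∀ c, (c, a) ∈ P → c = a ∨ (c, b) ∈ P := by
    intro c hc
    by_contra hcon
    push Not at hcon
    have hcb : (c, b) ∈ Q := hQ.2.2 _ _ _ (hPQ hc) hab.1
    have h1 := hmin (c, b) (Finset.mem_sdiff.2 ⟨hcb, hcon.2⟩)
    have h2 := hdown c hcon.1 (hPQ hc)
    simp only at h1
    omega
  have hB : ∀ d, (b, d) ∈ P → d = b ∨ (a, d) ∈ P := by
    intro d hd
    by_contra hcon
    push Not at hcon
    have hcb : (a, d) ∈ Q := hQ.2.2 _ _ _ hab.1 (hPQ hd)
    have h1 := hmin (a, d) (Finset.mem_sdiff.2 ⟨hcb, hcon.2⟩)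
    have h2 := hup d hcon.1 (hPQ hd)
    simp only at h1
    omega
  refine ⟨(a, b), hab.2, hab.1, ?_, ?_, ?_⟩
  · intro x; exact Finset.mem_insert_of_mem (hP.1 x)
  · intro x y h1 h2
    have hsub : ∀ q, q ∈ insert (a, b) P → q ∈ Q := by
      intro q hq
      rcases Finset.mem_insert.1 hq with rfl | hq
      · exact hab.1
      · exact hPQ hq
    exact hQ.2.1 x y (hsub _ h1) (hsub _ h2)
  · intro x y z h1 h2
    rw [Finset.mem_insert] at h1 h2 ⊢
    rcases h1 with h1 | h1 <;> rcases h2 with h2 | h2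
    · obtain ⟨rfl, rfl⟩ := Prod.ext_iff.1 h1
      obtain ⟨h3, h4⟩ := Prod.ext_iff.1 h2
      exact absurd h3.symm hne3
    · obtain ⟨rfl, rfl⟩ := Prod.ext_iff.1 h1
      rcases hB z h2 with h3 | h3
      · left; rw [h3]
      · right; exact h3
    · obtain ⟨rfl, rfl⟩ := Prod.ext_iff.1 h2
      rcases hA x h1 with h3 | h3
      · left; rw [h3]
      · right; exact h3
    · right; exact hP.2.2 _ _ _ h1 h2

/-- a saturated path of orders -/
def IsPath (c : ℕ → Finset (Fin n × Fin n)) (k : ℕ) (P Q : Finset (Fin n × Fin n)) : Prop :=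
  c 0 = P ∧ c k = Q ∧ (∀ i ≤ k, IsOrderRel (c i)) ∧
    ∀ i < k, ∃ p, p ∉ c i ∧ c (i + 1) = insert p (c i)

theorem exists_path : ∀ (k : ℕ) {P Q : Finset (Fin n × Fin n)}, IsOrderRel P → IsOrderRel Q →
    P ⊆ Q → Q.card = P.card + k → ∃ c, IsPath c k P Q := by
  intro k
  induction k with
  | zero =>
    intro P Q hP hQ hPQ hcard
    have : P = Q := Finset.eq_of_subset_of_card_le hPQ (by omega)
    subst this
    exact ⟨fun _ => P, rfl, rfl, fun _ _ => hP, fun i hi => absurd hi (Nat.not_lt_zero i)⟩
  | succ k ih =>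
    intro P Q hP hQ hPQ hcard
    obtain ⟨p, hp, hpQ, hins⟩ := exists_step hP hQ hPQ (by rintro rfl; omega)
    obtain ⟨c, hc0, hck, hco, hcs⟩ := ih hins hQ (Finset.insert_subset hpQ hPQ)
      (by rw [Finset.card_insert_of_notMem hp]; omega)
    refine ⟨fun i => if i = 0 then P else c (i - 1), ?_, ?_, ?_, ?_⟩
    · simp
    · simp [hck]
    · intro i hi
      by_cases h : i = 0
      · simp only [h, if_true]; exact hP
      · simp only [h, if_false]; exact hco _ (by omega)
    · intro i hi
      by_cases h : i = 0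
      · subst h
        refine ⟨p, by simpa using hp, ?_⟩
        simp [hc0]
      · obtain ⟨q, hq, hq2⟩ := hcs (i - 1) (by omega)
        refine ⟨q, by simpa [h] using hq, ?_⟩
        have e : i - 1 + 1 = i := by omega
        rw [e] at hq2
        simp only [h, if_false, Nat.add_eq_zero_iff, one_ne_zero, and_false, Nat.add_sub_cancel]
        exact hq2

/-! ### The special orders -/

/-- the discrete order -/
def disc (n : ℕ) : Finset (Fin n × Fin n) := Finset.univ.filter fun p => p.1 = p.2

/-- the natural linear order -/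
def lin (n : ℕ) : Finset (Fin n × Fin n) := Finset.univ.filter fun p => p.1 ≤ p.2

theorem mem_disc {a b : Fin n} : (a, b) ∈ disc n ↔ a = b := by simp [disc]
theorem mem_lin {a b : Fin n} : (a, b) ∈ lin n ↔ a ≤ b := by simp [lin]

theorem ord_disc : IsOrderRel (disc n) := by
  refine ⟨fun a => mem_disc.2 rfl, fun a b h _ => mem_disc.1 h, fun a b c h1 h2 => ?_⟩
  rw [mem_disc] at *
  exact h1.trans h2

theorem ord_lin : IsOrderRel (lin n) := by
  refine ⟨fun a => mem_lin.2 le_rfl, fun a b h1 h2 => ?_, fun a b c h1 h2 => ?_⟩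
  · rw [mem_lin] at *; exact le_antisymm h1 h2
  · rw [mem_lin] at *; exact h1.trans h2

theorem card_disc : (disc n).card = n := by
  have : (disc n) = (Finset.univ : Finset (Fin n)).map diagEmb := by
      ext ⟨a, b⟩
      rw [mem_disc, mem_diag]
  rw [this, Finset.card_map, Finset.card_univ, Fintype.card_fin]

theorem card_lin : (lin n).card = n + n.choose 2 := by
  have h := card_inc (ord_lin (n := n))
  have h2 : inc (lin n) = ∅ := by
    rw [Finset.eq_empty_iff_forall_notMem]
    rintro ⟨a, b⟩ h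
    rw [mem_inc, mem_lin, mem_lin] at h
    exact h.2 (le_of_lt (not_le.1 h.1))
  rw [h2, Finset.card_empty] at h
  have := two_choose n
  omega

theorem chain_of_path {c : ℕ → Finset (Fin n × Fin n)} {k : ℕ}
    (h : IsPath c k (disc n) (lin n)) (hk : k = n.choose 2) : IsMaximalChain n c := by
  subst hk
  refine ⟨h.2.2.1, ?_, ?_, h.2.2.2⟩
  · intro a b; rw [h.1, mem_disc]
  · intro a b; rw [h.2.1, mem_lin, mem_lin]; exact le_total a b

end Pool.Agent.X70.FPPBase
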