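import Mathlib

/-!
Real inequalities behind the theorem that for average-distance costs an optimal
two-coalition structure can be chosen sorted.
-/

namespace X70.Coal

/-- `phi a b x y` compares the grand coalition with a split into coalitions of
sizes `a`, `b`, at a position with `x` members of the first and `y` members of
the second coalition to the left. -/
noncomputable def phi (a b x y : ℝ) : ℝ :=
  x * (x - 1) / (a - 1) + y * (y - 1) / (b - 1) - (x + y) * (x + y - 1) / (a + b - 1)

lemma phi_swap (a b x y : ℝ) : phi b a y x = phi a b x y := by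
  unfold phi
  rw [add_comm b a, add_comm y x]
  ring

lemma phi_refl {a b : ℝ} (ha : 1 < a) (hb : 1 < b) (x y : ℝ) :
    phi a b (a - x) (b - y) = phi a b x y := by
  unfold phi
  have h1 : a - 1 ≠ 0 := by linarith
  have h2 : b - 1 ≠ 0 := by linarith
  have h3 : a + b - 1 ≠ 0 := by linarith
  field_simp
  ring

lemma basic {a b x y : ℝ} (ha : 1 < a) (hb : 1 < b) (hy : 0 ≤ y) (hyb : y ≤ b)
    (hD : y * a ≤ x * b) : (y - 1) / (b - 1) ≤ x / (a - 1) := by
  rw [div_le_div_iff₀ (by linarith) (by linarith)]
  have h : b * (x * (b - 1) - (y - 1) * (a - 1)) =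
      (b - 1) * (x * b - y * a) + (a - 1) * (b - y) + y * (b - 1) := by ring
  have h2 : 0 ≤ b * (x * (b - 1) - (y - 1) * (a - 1)) := by
    rw [h]
    have e1 : 0 ≤ (b - 1) * (x * b - y * a) := mul_nonneg (by linarith) (by linarith)
    have e2 : 0 ≤ (a - 1) * (b - y) := mul_nonneg (by linarith) (by linarith)
    have e3 : 0 ≤ y * (b - 1) := mul_nonneg hy (by linarith)
    linarith
  have h3 : 0 ≤ x * (b - 1) - (y - 1) * (a - 1) := by
    by_contra hc
    push Not at hc
    have : b * (x * (b - 1) - (y - 1) * (a - 1)) < 0 := mul_neg_of_pos_of_neg (by linarith) hc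
    linarith
  linarith

lemma anti {a b t x₁ x₂ : ℝ} (ha : 1 < a) (hb : 1 < b) (hy : 0 ≤ t - x₁) (hyb : t - x₁ ≤ b)
    (hD : (t - x₁) * a ≤ x₁ * b) (hx : x₁ = x₂ ∨ x₁ + 1 ≤ x₂) :
    phi a b x₁ (t - x₁) ≤ phi a b x₂ (t - x₂) := by
  rcases hx with hx | hx
  · rw [hx]
  have hI := basic ha hb hy hyb hD
  have key : phi a b x₂ (t - x₂) - phi a b x₁ (t - x₁) =
      (x₂ - x₁) * ((x₁ + x₂ - 1) / (a - 1) - (2 * t - x₁ - x₂ - 1) / (b - 1)) := by
    unfold phi
    ring
  have h1 : (2 * t - x₁ - x₂ - 1) / (b - 1) ≤ 2 * ((t - x₁ - 1) / (b - 1)) := by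
    rw [← mul_div_assoc]
    apply div_le_div_of_nonneg_right _ (by linarith)
    linarith
  have h2 : 2 * (x₁ / (a - 1)) ≤ (x₁ + x₂ - 1) / (a - 1) := by
    rw [← mul_div_assoc]
    apply div_le_div_of_nonneg_right _ (by linarith)
    linarith
  have h3 : 0 ≤ phi a b x₂ (t - x₂) - phi a b x₁ (t - x₁) := by
    rw [key]
    apply mul_nonneg (by linarith)
    linarith
  linarith

lemma mono {a b t s y : ℝ} (ha : 1 < a) (hb : 1 < b) (hy : 0 ≤ y)
    (hyb : y ≤ b) (hD : y * a ≤ (t - y) * b) (ht : 1 ≤ t) (hs : t = s ∨ t + 1 ≤ s) :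
    s * (s - 1) * phi a b (t - y) y ≤ t * (t - 1) * phi a b (s - y) y := by
  rcases hs with hs | hs
  · rw [hs]
  have hI := basic ha hb hy hyb hD
  have key : t * (t - 1) * phi a b (s - y) y - s * (s - 1) * phi a b (t - y) y =
      y * (s - t) * ((2 * s * t - (y + 1) * (s + t - 1)) / (a - 1)
        - (s + t - 1) * ((y - 1) / (b - 1))) := by
    unfold phi
    have e1 : s - y + y = s := by ring
    have e2 : t - y + y = t := by ring
    rw [e1, e2]
    have h1 : a - 1 ≠ 0 := by linarith
    have h2 : b - 1 ≠ 0 := by linarith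
    have h3 : a + b - 1 ≠ 0 := by linarith
    field_simp
    ring
  have h1 : (s + t - 1) * ((y - 1) / (b - 1)) ≤ (s + t - 1) * ((t - y) / (a - 1)) :=
    mul_le_mul_of_nonneg_left hI (by linarith)
  have h2 : (2 * s * t - (y + 1) * (s + t - 1)) / (a - 1) - (s + t - 1) * ((t - y) / (a - 1))
      = (t - 1) * (s - t - 1) / (a - 1) := by
    have h1 : a - 1 ≠ 0 := by linarith
    field_simp
    ring
  have h3 : 0 ≤ (t - 1) * (s - t - 1) / (a - 1) :=
    div_nonneg (mul_nonneg (by linarith) (by linarith)) (by linarith)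
  have h4 : 0 ≤ t * (t - 1) * phi a b (s - y) y - s * (s - 1) * phi a b (t - y) y := by
    rw [key]
    apply mul_nonneg (mul_nonneg hy (by linarith))
    linarith
  linarith

lemma peak {a b X y W : ℝ} (ha : 1 < a) (hb : 1 < b) (_hX : 0 ≤ X) (hy : 0 ≤ y)
    (hs1 : 1 ≤ X + y) (hsa : X + y ≤ a) (hD : y * a ≤ X * b)
    (hW : (X * b - y * a) / a + (X * b - y * a) / b - 1 ≤ W) :
    (a + b - 1) ^ 2 * phi a b X y ≤ W * ((X + y) * (a + b - (X + y))) := by
  have h1 : a - 1 ≠ 0 := by linarith
  have h2 : b - 1 ≠ 0 := by linarith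
  have h3 : a + b - 1 ≠ 0 := by linarith
  have h4 : a ≠ 0 := by linarith
  have h5 : b ≠ 0 := by linarith
  have h6 : a + b ≠ 0 := by linarith
  set W0 : ℝ := (X * b - y * a) / a + (X * b - y * a) / b - 1 with hW0
  have hmain : (a + b - 1) ^ 2 * phi a b X y ≤ W0 * ((X + y) * (a + b - (X + y))) := by
    have key : (X + y) * b * (W0 * ((X + y) * (a + b - (X + y))) - (a + b - 1) ^ 2 * phi a b X y)
        = (X * b - y * a) * ((X + y) * (a - (X + y)) *
            ((a + b) * (a - 1) * (X + y - 1) + b * (a + b - 1)) / (a * (a - 1)))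
          + (a + b) * y * ((X + y) * (a + b - (X + y)) *
            ((a + b) ^ 2 * (a + b - 1) - a * b * (3 * (a + b) - 2)) /
              ((a + b) ^ 2 * (a - 1) * (b - 1)))
          + (1 / (a - 1) + 1 / (b - 1)) * (X * b - y * a) * y * (X + y) * b / (a + b)
            * (a + b - 1) ^ 2 := by
      rw [hW0]
      unfold phi
      field_simp
      ring
    have hn : 0 ≤ (X + y) * b * (W0 * ((X + y) * (a + b - (X + y))) -
        (a + b - 1) ^ 2 * phi a b X y) := by
      rw [key]
      have e1 : 0 ≤ (X * b - y * a) * ((X + y) * (a - (X + y)) *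
            ((a + b) * (a - 1) * (X + y - 1) + b * (a + b - 1)) / (a * (a - 1))) := by
        apply mul_nonneg (by linarith)
        apply div_nonneg
        · apply mul_nonneg (mul_nonneg (by linarith) (by linarith))
          apply add_nonneg
          · exact mul_nonneg (mul_nonneg (by linarith) (by linarith)) (by linarith)
          · exact mul_nonneg (by linarith) (by linarith)
        · exact mul_nonneg (by linarith) (by linarith)
      have e2 : 0 ≤ (a + b) * y * ((X + y) * (a + b - (X + y)) *
            ((a + b) ^ 2 * (a + b - 1) - a * b * (3 * (a + b) - 2)) /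
              ((a + b) ^ 2 * (a - 1) * (b - 1))) := by
        apply mul_nonneg (mul_nonneg (by linarith) hy)
        apply div_nonneg
        · apply mul_nonneg (mul_nonneg (by linarith) (by linarith))
          nlinarith [sq_nonneg (a - b), mul_nonneg (sq_nonneg (a - b)) (by linarith : 0 ≤ 3 * (a + b) - 2),
            mul_nonneg (sq_nonneg (a + b)) (by linarith : 0 ≤ a + b - 2)]
        · exact mul_nonneg (mul_nonneg (by positivity) (by linarith)) (by linarith)
      have e3 : 0 ≤ (1 / (a - 1) + 1 / (b - 1)) * (X * b - y * a) * y * (X + y) * b / (a + b)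
            * (a + b - 1) ^ 2 := by
        apply mul_nonneg _ (sq_nonneg _)
        apply div_nonneg _ (by linarith)
        apply mul_nonneg _ (by linarith)
        apply mul_nonneg _ (by linarith)
        apply mul_nonneg _ hy
        apply mul_nonneg _ (by linarith)
        apply add_nonneg
        · exact div_nonneg zero_le_one (by linarith)
        · exact div_nonneg zero_le_one (by linarith)
      linarith
    have hpos : 0 < (X + y) * b := mul_pos (by linarith) (by linarith)
    by_contra hc
    push Not at hc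
    have := mul_neg_of_pos_of_neg hpos (by linarith :
      W0 * ((X + y) * (a + b - (X + y))) - (a + b - 1) ^ 2 * phi a b X y < 0)
    linarith
  have h7 : W0 * ((X + y) * (a + b - (X + y))) ≤ W * ((X + y) * (a + b - (X + y))) :=
    mul_le_mul_of_nonneg_right hW (mul_nonneg (by linarith) (by linarith))
  linarith

end X70.Coal
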