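import Pool.Agent.X70.Coal

/-!
The domination of a two-coalition structure by sorted ones, run by run.
-/

namespace X70.Coal

/-- comparison function of the cut after `s` agents -/
noncomputable def Vc (n s t : ℕ) : ℝ :=
  if t ≤ s then (t : ℝ) * (t - 1) * (n - s) / ((s - 1) * (n - 1))
  else ((n : ℝ) - t) * (n - t - 1) * s / ((n - s - 1) * (n - 1))

structure Path (n a b : ℕ) (α β : ℕ → ℕ) : Prop where
  sum : ∀ t, t ≤ n → α t + β t = t
  ma : ∀ t, t < n → α t ≤ α (t + 1)
  mb : ∀ t, t < n → β t ≤ β (t + 1)
  ea : α n = a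
  eb : β n = b

lemma Path.swap {n a b : ℕ} {α β : ℕ → ℕ} (h : Path n a b α β) : Path n b a β α :=
  ⟨fun t ht => by rw [add_comm]; exact h.sum t ht, h.mb, h.ma, h.eb, h.ea⟩

lemma Path.mona {n a b : ℕ} {α β : ℕ → ℕ} (h : Path n a b α β) {i j : ℕ} (hij : i ≤ j)
    (hj : j ≤ n) : α i ≤ α j := by
  induction j, hij using Nat.le_induction with
  | base => exact le_rfl
  | succ m hm ih => exact (ih (by omega)).trans (h.ma m (by omega))

lemma Path.monb {n a b : ℕ} {α β : ℕ → ℕ} (h : Path n a b α β) {i j : ℕ} (hij : i ≤ j)
    (hj : j ≤ n) : β i ≤ β j := h.swap.mona hij hj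

lemma phi_rs {a b : ℝ} (ha : 1 < a) (hb : 1 < b) (x y : ℝ) :
    phi b a (b - y) (a - x) = phi a b x y := by
  rw [phi_swap, phi_refl ha hb]

lemma phi_sum_one {a b x y : ℝ} (h : x + y = 1) (hx : x = 0 ∨ x = 1) : phi a b x y = 0 := by
  unfold phi
  rcases hx with rfl | rfl
  · have : y = 1 := by linarith
    subst this
    simp
  · have : y = 0 := by linarith
    subst this
    simp

lemma phi_zero {a b x y : ℝ} (ha : 1 < a) (hb : 1 < b) (hx : 0 ≤ x) (hxa : x ≤ a)
    (hD : y * a = x * b) : phi a b x y ≤ 0 := by
  have h1 : a - 1 ≠ 0 := by linarith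
  have h2 : b - 1 ≠ 0 := by linarith
  have h3 : a + b - 1 ≠ 0 := by linarith
  have h4 : a ≠ 0 := by linarith
  have hy : y = x / a * b := by field_simp; linarith
  set c : ℝ := x / a with hc
  have hxc : x = c * a := by rw [hc]; field_simp
  have hc0 : 0 ≤ c := div_nonneg hx (by linarith)
  have hc1 : c ≤ 1 := by rw [hc, div_le_one (by linarith)]; exact hxa
  have key : phi a b x y = -(c * (1 - c)) *
      ((a + b) * (a * b * (a + b - 2) + 0) / ((a - 1) * (b - 1) * (a + b - 1)) -
        0) * (1 / (a + b)) := by
    rw [hy, hxc]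
    unfold phi
    have h6 : a + b ≠ 0 := by linarith
    field_simp
    ring
  rw [key]
  have : 0 ≤ (a + b) * (a * b * (a + b - 2) + 0) / ((a - 1) * (b - 1) * (a + b - 1)) - 0 := by
    rw [sub_zero, add_zero]
    apply div_nonneg
    · apply mul_nonneg (by linarith)
      exact mul_nonneg (mul_nonneg (by linarith) (by linarith)) (by linarith)
    · exact mul_nonneg (mul_nonneg (by linarith) (by linarith)) (by linarith)
  have h5 : 0 ≤ c * (1 - c) := mul_nonneg hc0 (by linarith)
  have h6 : (0 : ℝ) ≤ 1 / (a + b) := div_nonneg zero_le_one (by linarith)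
  have := mul_nonneg (mul_nonneg h5 this) h6
  linarith

/-- the two one-sided comparisons inside a run -/
lemma left_side {a b t s y x : ℝ} (ha : 1 < a) (hb : 1 < b) (_hx : 0 ≤ x) (hy : 0 ≤ y)
    (hyt : y ≤ t - x) (hyb : t - x ≤ b) (hD : (t - x) * a ≤ x * b) (ht : 1 ≤ t)
    (hs : t = s ∨ t + 1 ≤ s) (hxx : x = t - y ∨ x + 1 ≤ t - y) :
    s * (s - 1) * phi a b x (t - x) ≤ t * (t - 1) * phi a b (s - y) y := by
  have h1 : phi a b x (t - x) ≤ phi a b (t - y) (t - (t - y)) :=
    anti ha hb (by linarith) hyb hD hxx
  have e1 : t - (t - y) = y := by ring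
  rw [e1] at h1
  have hs1 : 1 ≤ s := by rcases hs with h | h <;> linarith
  have h2 : s * (s - 1) * phi a b (t - y) y ≤ t * (t - 1) * phi a b (s - y) y := by
    apply mono ha hb hy (by linarith) _ ht hs
    have e2 : y * a ≤ (t - x) * a := mul_le_mul_of_nonneg_right hyt (by linarith)
    have e3 : x * b ≤ (t - y) * b := mul_le_mul_of_nonneg_right (by linarith) (by linarith)
    linarith
  have h3 : s * (s - 1) * phi a b x (t - x) ≤ s * (s - 1) * phi a b (t - y) y :=
    mul_le_mul_of_nonneg_left h1 (mul_nonneg (by linarith) (by linarith))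
  linarith

set_option maxHeartbeats 2000000 in
lemma run {n a b : ℕ} {α β : ℕ → ℕ} (h : Path n a b α β) (ha : 2 ≤ a) (hb : 2 ≤ b)
    {k₀ k : ℕ} (hk : k₀ < k) (hkn : k < n) (h0 : α k₀ * b ≤ β k₀ * a)
    (hpos : ∀ t, k₀ < t → t ≤ k → β t * a < α t * b)
    (h1 : α (k + 1) * b ≤ β (k + 1) * a) :
    (∃ s, 2 ≤ s ∧ s ≤ n - 2 ∧ ∀ t, k₀ < t → t ≤ k →
      phi a b (α t) (β t) ≤ ((k : ℝ) - k₀) / (n - 1) * Vc n s t) ∨
    (∀ t, k₀ < t → t ≤ k → phi a b (α t) (β t) ≤ 0) := by
  have hn : a + b = n := by rw [← h.ea, ← h.eb]; exact h.sum n le_rfl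
  have hnR : (a : ℝ) + b = n := by exact_mod_cast hn
  have ha' : (1 : ℝ) < a := by exact_mod_cast (by omega : 1 < a)
  have hb' : (1 : ℝ) < b := by exact_mod_cast (by omega : 1 < b)
  -- the step after k
  have hstep : α (k + 1) = α k ∧ β (k + 1) = β k + 1 := by
    have e1 := h.sum k (by omega)
    have e2 := h.sum (k + 1) (by omega)
    have e3 := h.ma k hkn
    have e4 := h.mb k hkn
    rcases (by omega : (α (k + 1) = α k ∧ β (k + 1) = β k + 1) ∨
      (α (k + 1) = α k + 1 ∧ β (k + 1) = β k)) with h5 | h5
    · exact h5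
    · exfalso
      rw [h5.1, h5.2] at h1
      have := hpos k hk le_rfl
      nlinarith
  set X := α k with hX
  set y := β k₀ with hy
  have hXa : X ≤ a := by rw [← h.ea]; exact h.mona hkn.le le_rfl
  have hyb : y ≤ b := by rw [← h.eb]; exact h.monb (by omega) le_rfl
  have hyk : y ≤ β k := h.monb hk.le hkn.le
  have hDk := hpos k hk le_rfl
  have hX1 : 1 ≤ X := by
    by_contra hc
    have : X = 0 := by omega
    rw [← hX, this] at hDk
    omega
  have hsum := h.sum k hkn.le
  have hsum0 := h.sum k₀ (by omega)
  have hsn : X + y ≤ n - 1 := by omega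
  have hDXy : (y : ℝ) * a ≤ X * b := by
    have : y * a ≤ X * b := le_trans (Nat.mul_le_mul_right a hyk) hDk.le
    exact_mod_cast this
  -- the weight
  have hW : ((X : ℝ) * b - y * a) / a + (X * b - y * a) / b - 1 ≤ (k : ℝ) - k₀ := by
    have g0 : (α k₀ : ℝ) * b ≤ y * a := by exact_mod_cast h0
    have g1 : (X : ℝ) * b ≤ (β k + 1) * a := by
      have := h1
      rw [hstep.1, hstep.2] at this
      exact_mod_cast this
    have gk : (k : ℝ) = X + β k := by exact_mod_cast hsum.symm
    have gk0 : (k₀ : ℝ) = α k₀ + y := by exact_mod_cast hsum0.symm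
    have q1 : ((X : ℝ) * b - y * a) / a ≤ β k + 1 - y := by
      rw [div_le_iff₀ (by linarith)]
      nlinarith
    have q2 : ((X : ℝ) * b - y * a) / b ≤ X - α k₀ := by
      rw [div_le_iff₀ (by linarith)]
      nlinarith
    rw [gk, gk0]
    linarith
  have hX0 : (0 : ℝ) ≤ X := Nat.cast_nonneg _
  have hy0 : (0 : ℝ) ≤ y := Nat.cast_nonneg _
  have hXaR : (X : ℝ) ≤ a := by exact_mod_cast hXa
  have hybR : (y : ℝ) ≤ b := by exact_mod_cast hyb
  have hX1R : (1 : ℝ) ≤ X := by exact_mod_cast hX1
  have hsnR : (X : ℝ) + y ≤ n - 1 := by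
    have : X + y + 1 ≤ n := by omega
    have : ((X + y + 1 : ℕ) : ℝ) ≤ n := by exact_mod_cast this
    push_cast at this
    linarith
  -- the peak
  have hP : ((n : ℝ) - 1) ^ 2 * phi a b X y ≤ ((k : ℝ) - k₀) * ((X + y) * (n - (X + y))) := by
    rcases le_total ((X : ℝ) + y) a with hs | hs
    · have := peak ha' hb' hX0 hy0 (by linarith) hs hDXy hW
      rw [hnR] at this
      exact this
    · have := peak (a := b) (b := a) (X := b - y) (y := a - X) (W := (k : ℝ) - k₀) hb' ha'
        (by linarith) (by linarith) (by linarith) (by linarith) (by nlinarith)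
        (by
          have e : ((b : ℝ) - y) * a - (a - X) * b = X * b - y * a := by ring
          rw [e]; linarith)
      rw [phi_rs ha' hb' X y] at this
      have e1 : (b : ℝ) + a - 1 = n - 1 := by linarith
      have e2 : ((b : ℝ) - y + (a - X)) * (b + a - (b - y + (a - X))) =
          (X + y) * (n - (X + y)) := by rw [← hnR]; ring
      rw [e1, e2] at this
      exact this
  -- left and right comparisons
  have hL : ∀ t, k₀ < t → t ≤ k → t ≤ X + y →
      ((X : ℝ) + y) * (X + y - 1) * phi a b (α t) (β t) ≤ (t : ℝ) * (t - 1) * phi a b X y := by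
    intro t ht1 ht2 ht3
    have hst := h.sum t (by omega)
    have hstR : (t : ℝ) - α t = β t := by
      have : (α t : ℝ) + β t = t := by exact_mod_cast hst
      linarith
    have hyt : y ≤ β t := h.monb (by omega) (by omega)
    have hbt : β t ≤ b := by rw [← h.eb]; exact h.monb (by omega) le_rfl
    have hD := hpos t ht1 ht2
    have := left_side (a := a) (b := b) (t := t) (s := X + y) (y := y) (x := α t) ha' hb'
      (Nat.cast_nonneg _) hy0 (by rw [hstR]; exact_mod_cast hyt) (by rw [hstR]; exact_mod_cast hbt)
      (by rw [hstR]; exact_mod_cast hD.le) (by exact_mod_cast (by omega : 1 ≤ t))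
      (by
        rcases (by omega : t = X + y ∨ t + 1 ≤ X + y) with q | q
        · left; exact_mod_cast q
        · right; exact_mod_cast q)
      (by
        rcases (by omega : α t + y = t ∨ α t + 1 + y ≤ t) with q | q
        · left
          have : ((α t + y : ℕ) : ℝ) = t := by exact_mod_cast q
          push_cast at this; linarith
        · right
          have : ((α t + 1 + y : ℕ) : ℝ) ≤ t := by exact_mod_cast q
          push_cast at this; linarith)
    rw [hstR] at this
    have e : (X : ℝ) + y - y = X := by ring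
    rw [e] at this
    exact this
  have hR : ∀ t, k₀ < t → t ≤ k → X + y < t →
      ((n : ℝ) - (X + y)) * (n - (X + y) - 1) * phi a b (α t) (β t) ≤
        ((n : ℝ) - t) * (n - t - 1) * phi a b X y := by
    intro t ht1 ht2 ht3
    have hst := h.sum t (by omega)
    have hstR : (α t : ℝ) + β t = t := by exact_mod_cast hst
    have hbt : β t ≤ b := by rw [← h.eb]; exact h.monb (by omega) le_rfl
    have hbtR : (β t : ℝ) ≤ b := by exact_mod_cast hbt
    have hat : α t ≤ X := h.mona (by omega) (by omega)
    have hatR : (α t : ℝ) ≤ X := by exact_mod_cast hat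
    have hD := hpos t ht1 ht2
    have hDR : (β t : ℝ) * a < α t * b := by exact_mod_cast hD
    have htn : t + 1 ≤ n := by omega
    have htnR : (t : ℝ) + 1 ≤ n := by exact_mod_cast htn
    have e0 : (n : ℝ) - t - (b - β t) = a - α t := by rw [← hnR, ← hstR]; ring
    have := left_side (a := b) (b := a) (t := n - t) (s := n - (X + y)) (y := a - X)
      (x := b - β t) hb' ha' (by linarith) (by linarith) (by rw [e0]; linarith)
      (by rw [e0]; have : (0 : ℝ) ≤ α t := Nat.cast_nonneg _
          linarith)
      (by rw [e0]; nlinarith) (by linarith)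
      (by
        right
        have : X + y + 1 ≤ t := by omega
        have : ((X + y + 1 : ℕ) : ℝ) ≤ t := by exact_mod_cast this
        push_cast at this
        linarith)
      (by
        have hyt : β t + α t = t := by omega
        rcases (by omega : α t = X ∨ α t + 1 ≤ X) with q | q
        · left
          have : (α t : ℝ) = X := by exact_mod_cast q
          linarith
        · right
          have : (α t : ℝ) + 1 ≤ X := by exact_mod_cast q
          linarith)
    rw [e0, phi_rs ha' hb' (α t) (β t)] at this
    have e1 : (n : ℝ) - (X + y) - (a - X) = b - y := by rw [← hnR]; ring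
    rw [e1, phi_rs ha' hb' X y] at this
    exact this
  have hn4 : (4 : ℝ) ≤ n := by
    have : 4 ≤ n := by omega
    exact_mod_cast this
  by_cases c1 : X + y = 1
  · right
    have hX' : X = 1 := by omega
    have hy' : y = 0 := by omega
    have hphi0 : phi a b X y = 0 := by
      apply phi_sum_one
      · rw [hX', hy']; simp
      · right; rw [hX']; simp
    intro t ht1 ht2
    rcases le_or_gt t (X + y) with ht3 | ht3
    · have ht : t = 1 := by omega
      have hst := h.sum t (by omega)
      rw [ht] at hst
      rw [ht]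
      apply le_of_eq
      apply phi_sum_one
      · exact_mod_cast hst
      · rcases (by omega : α 1 = 0 ∨ α 1 = 1) with q | q
        · left; rw [q]; simp
        · right; rw [q]; simp
    · have := hR t ht1 ht2 ht3
      rw [hphi0, mul_zero] at this
      have hc : (X : ℝ) + y = 1 := by exact_mod_cast c1
      rw [hc] at this
      have hp : 0 < ((n : ℝ) - 1) * (n - 1 - 1) := mul_pos (by linarith) (by linarith)
      by_contra hcon
      push Not at hcon
      have := mul_pos hp hcon
      linarith
  · by_cases c2 : X + y = n - 1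
    · right
      have hphi0 : phi a b X y = 0 := by
        rw [← phi_rs ha' hb' X y]
        have hc : (X : ℝ) + y = n - 1 := by
          have : X + y + 1 = n := by omega
          have : ((X + y + 1 : ℕ) : ℝ) = n := by exact_mod_cast this
          push_cast at this
          linarith
        apply phi_sum_one
        · linarith
        · rcases (by omega : b = y ∨ b = y + 1) with q | q
          · left; rw [q]; simp
          · right; rw [q]; push_cast; ring
      intro t ht1 ht2
      have ht3 : t ≤ X + y := by omega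
      have := hL t ht1 ht2 ht3
      rw [hphi0, mul_zero] at this
      have hc : (X : ℝ) + y = n - 1 := by
        have : X + y + 1 = n := by omega
        have : ((X + y + 1 : ℕ) : ℝ) = n := by exact_mod_cast this
        push_cast at this
        linarith
      rw [hc] at this
      have hp : 0 < ((n : ℝ) - 1) * (n - 1 - 1) := mul_pos (by linarith) (by linarith)
      by_contra hcon
      push Not at hcon
      have := mul_pos hp hcon
      linarith
    · left
      refine ⟨X + y, by omega, by omega, ?_⟩
      intro t ht1 ht2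
      have hs2 : (2 : ℝ) ≤ (X : ℝ) + y := by
        have : 2 ≤ X + y := by omega
        exact_mod_cast this
      have hs3 : (X : ℝ) + y ≤ n - 2 := by
        have : X + y + 2 ≤ n := by omega
        have : ((X + y + 2 : ℕ) : ℝ) ≤ n := by exact_mod_cast this
        push_cast at this
        linarith
      have ht1R : (1 : ℝ) ≤ t := by exact_mod_cast (by omega : 1 ≤ t)
      have htnR : (t : ℝ) + 1 ≤ n := by exact_mod_cast (by omega : t + 1 ≤ n)
      unfold Vc
      push_cast
      set s : ℝ := (X : ℝ) + y with hs
      set W : ℝ := (k : ℝ) - k₀ with hWdef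
      have hn1 : (0 : ℝ) < n - 1 := by linarith
      split_ifs with hc
      · have g1 := hL t ht1 ht2 hc
        have hss : 0 < s * (s - 1) := mul_pos (by linarith) (by linarith)
        have htt : 0 ≤ (t : ℝ) * (t - 1) := mul_nonneg (by linarith) (by linarith)
        have g2 : phi a b (α t) (β t) ≤ (t : ℝ) * (t - 1) * phi a b X y / (s * (s - 1)) := by
          rw [le_div_iff₀ hss]
          linarith
        have g3 : phi a b X y ≤ W * (s * (n - s)) / (n - 1) ^ 2 := by
          rw [le_div_iff₀ (by positivity)]
          linarith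
        calc phi a b (α t) (β t) ≤ (t : ℝ) * (t - 1) * phi a b X y / (s * (s - 1)) := g2
          _ ≤ (t : ℝ) * (t - 1) * (W * (s * (n - s)) / (n - 1) ^ 2) / (s * (s - 1)) :=
              div_le_div_of_nonneg_right (mul_le_mul_of_nonneg_left g3 htt) hss.le
          _ = W / (n - 1) * ((t : ℝ) * (t - 1) * (n - s) / ((s - 1) * (n - 1))) := by
              have : s ≠ 0 := by linarith
              have : s - 1 ≠ 0 := by linarith
              have : (n : ℝ) - 1 ≠ 0 := by linarith
              field_simp
      · have g1 := hR t ht1 ht2 (by omega)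
        have hss : 0 < ((n : ℝ) - s) * (n - s - 1) := mul_pos (by linarith) (by linarith)
        have htt : 0 ≤ ((n : ℝ) - t) * (n - t - 1) := mul_nonneg (by linarith) (by linarith)
        have g2 : phi a b (α t) (β t) ≤
            ((n : ℝ) - t) * (n - t - 1) * phi a b X y / ((n - s) * (n - s - 1)) := by
          rw [le_div_iff₀ hss]
          linarith
        have g3 : phi a b X y ≤ W * (s * (n - s)) / (n - 1) ^ 2 := by
          rw [le_div_iff₀ (by positivity)]
          linarith
        calc phi a b (α t) (β t) ≤
            ((n : ℝ) - t) * (n - t - 1) * phi a b X y / ((n - s) * (n - s - 1)) := g2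
          _ ≤ ((n : ℝ) - t) * (n - t - 1) * (W * (s * (n - s)) / (n - 1) ^ 2) /
                ((n - s) * (n - s - 1)) :=
              div_le_div_of_nonneg_right (mul_le_mul_of_nonneg_left g3 htt) hss.le
          _ = W / (n - 1) * (((n : ℝ) - t) * (n - t - 1) * s / ((n - s - 1) * (n - 1))) := by
              have : (n : ℝ) - s ≠ 0 := by linarith
              have : (n : ℝ) - s - 1 ≠ 0 := by linarith
              have : (n : ℝ) - 1 ≠ 0 := by linarith
              field_simp

end X70.Coal
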