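import Pool.Agent.X70.Coal2

/-!
Summation over runs: sorted structures are at least as good as a given one.
-/

namespace X70.Coal

lemma Vc_nonneg {n s t : ℕ} (hs2 : 2 ≤ s) (hsn : s + 2 ≤ n) (ht : 1 ≤ t) (htn : t < n) :
    0 ≤ Vc n s t := by
  have a1 : (2 : ℝ) ≤ s := by exact_mod_cast hs2
  have a2 : (s : ℝ) + 2 ≤ n := by exact_mod_cast hsn
  have a3 : (1 : ℝ) ≤ t := by exact_mod_cast ht
  have a4 : (t : ℝ) + 1 ≤ n := by exact_mod_cast htn
  unfold Vc
  split_ifs
  · apply div_nonneg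
    · exact mul_nonneg (mul_nonneg (by linarith) (by linarith)) (by linarith)
    · exact mul_nonneg (by linarith) (by linarith)
  · apply div_nonneg
    · exact mul_nonneg (mul_nonneg (by linarith) (by linarith)) (by linarith)
    · exact mul_nonneg (by linarith) (by linarith)

lemma posStep {n a b : ℕ} {α β : ℕ → ℕ} (h : Path n a b α β) (ha : 2 ≤ a) (hb : 2 ≤ b)
    {g : ℕ → ℝ} (hg : ∀ t, 0 ≤ g t) {M : ℝ} (hM : 0 ≤ M)
    (hs : ∀ s, 2 ≤ s → s + 2 ≤ n → ∑ t ∈ Finset.Ico 1 n, g t * Vc n s t ≤ M)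
    {k : ℕ} (hkn : k < n) (hk1 : β k * a < α k * b) (hk2 : α (k + 1) * b ≤ β (k + 1) * a) :
    ∃ k₀, k₀ < k ∧ α k₀ * b ≤ β k₀ * a ∧ β (k₀ + 1) * a < α (k₀ + 1) * b ∧
      ∑ t ∈ Finset.Ico (k₀ + 1) (k + 1), g t * phi a b (α t) (β t) ≤
        ((k : ℝ) - k₀) / (n - 1) * M := by
  classical
  have hn : a + b = n := by rw [← h.ea, ← h.eb]; exact h.sum n le_rfl
  have h00 : α 0 * b ≤ β 0 * a := by
    have := h.sum 0 (by omega)
    have e : α 0 = 0 := by omega
    rw [e]; simp
  set k₀ := Nat.findGreatest (fun j => α j * b ≤ β j * a) k with hk₀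
  have hP : α k₀ * b ≤ β k₀ * a :=
    Nat.findGreatest_spec (P := fun j => α j * b ≤ β j * a) (Nat.zero_le k) h00
  have hle : k₀ ≤ k := Nat.findGreatest_le k
  have hlt : k₀ < k := by
    rcases lt_or_eq_of_le hle with q | q
    · exact q
    · exfalso; rw [q] at hP; omega
  have hpos : ∀ t, k₀ < t → t ≤ k → β t * a < α t * b := by
    intro t h1 h2
    have := Nat.findGreatest_is_greatest (P := fun j => α j * b ≤ β j * a) h1 h2
    simpa using this
  refine ⟨k₀, hlt, hP, hpos (k₀ + 1) (by omega) hlt, ?_⟩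
  have hn4 : (4 : ℝ) ≤ n := by
    have : 4 ≤ n := by omega
    exact_mod_cast this
  have hkk : (0 : ℝ) ≤ (k : ℝ) - k₀ := by
    have : (k₀ : ℝ) ≤ k := by exact_mod_cast hle
    linarith
  have hW : (0 : ℝ) ≤ ((k : ℝ) - k₀) / (n - 1) := div_nonneg hkk (by linarith)
  rcases run h ha hb hlt hkn hP hpos hk2 with ⟨s, hs1, hs2, hr⟩ | hr
  · calc ∑ t ∈ Finset.Ico (k₀ + 1) (k + 1), g t * phi a b (α t) (β t)
        ≤ ∑ t ∈ Finset.Ico (k₀ + 1) (k + 1), ((k : ℝ) - k₀) / (n - 1) * (g t * Vc n s t) := by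
          apply Finset.sum_le_sum
          intro t ht
          rw [Finset.mem_Ico] at ht
          have := mul_le_mul_of_nonneg_left (hr t (by omega) (by omega)) (hg t)
          calc _ ≤ _ := this
            _ = _ := by ring
      _ = ((k : ℝ) - k₀) / (n - 1) * ∑ t ∈ Finset.Ico (k₀ + 1) (k + 1), g t * Vc n s t := by
          rw [Finset.mul_sum]
      _ ≤ ((k : ℝ) - k₀) / (n - 1) * ∑ t ∈ Finset.Ico 1 n, g t * Vc n s t := by
          apply mul_le_mul_of_nonneg_left _ hW
          apply Finset.sum_le_sum_of_subset_of_nonneg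
          · intro t ht
            rw [Finset.mem_Ico] at ht ⊢
            omega
          · intro t ht _
            rw [Finset.mem_Ico] at ht
            exact mul_nonneg (hg t) (Vc_nonneg hs1 (by omega) ht.1 ht.2)
      _ ≤ _ := mul_le_mul_of_nonneg_left (hs s hs1 (by omega)) hW
  · calc ∑ t ∈ Finset.Ico (k₀ + 1) (k + 1), g t * phi a b (α t) (β t)
        ≤ ∑ t ∈ Finset.Ico (k₀ + 1) (k + 1), (0 : ℝ) := by
          apply Finset.sum_le_sum
          intro t ht
          rw [Finset.mem_Ico] at ht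
          exact mul_nonpos_of_nonneg_of_nonpos (hg t) (hr t (by omega) (by omega))
      _ = 0 := by simp
      _ ≤ _ := mul_nonneg hW hM

lemma main {n a b : ℕ} {α β : ℕ → ℕ} (h : Path n a b α β) (ha : 2 ≤ a) (hb : 2 ≤ b)
    {g : ℕ → ℝ} (hg : ∀ t, 0 ≤ g t) {M : ℝ} (hM : 0 ≤ M)
    (hs : ∀ s, 2 ≤ s → s + 2 ≤ n → ∑ t ∈ Finset.Ico 1 n, g t * Vc n s t ≤ M) :
    ∀ k, k < n →
      ((α k * b ≤ β k * a ∧ β (k + 1) * a ≤ α (k + 1) * b) ∨
        (β k * a ≤ α k * b ∧ α (k + 1) * b ≤ β (k + 1) * a)) →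
      ∑ t ∈ Finset.Ico 1 (k + 1), g t * phi a b (α t) (β t) ≤ (k : ℝ) / (n - 1) * M := by
  have hn : a + b = n := by rw [← h.ea, ← h.eb]; exact h.sum n le_rfl
  have hn4 : (4 : ℝ) ≤ n := by
    have : 4 ≤ n := by omega
    exact_mod_cast this
  have ha' : (1 : ℝ) < a := by exact_mod_cast (by omega : 1 < a)
  have hb' : (1 : ℝ) < b := by exact_mod_cast (by omega : 1 < b)
  intro k
  induction k using Nat.strong_induction_on with
  | _ k ih =>
    intro hk hbd
    rcases Nat.eq_zero_or_pos k with rfl | hkpos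
    · simp
    rcases lt_trichotomy (β k * a) (α k * b) with hD | hD | hD
    · -- positive run
      have hk2 : α (k + 1) * b ≤ β (k + 1) * a := by
        rcases hbd with q | q
        · omega
        · exact q.2
      obtain ⟨k₀, hk₀, e1, e2, e3⟩ := posStep h ha hb hg hM hs hk hD hk2
      have := ih k₀ hk₀ (by omega) (Or.inl ⟨e1, e2.le⟩)
      rw [← Finset.sum_Ico_consecutive _ (by omega : 1 ≤ k₀ + 1) (by omega : k₀ + 1 ≤ k + 1)]
      calc _ ≤ (k₀ : ℝ) / (n - 1) * M + ((k : ℝ) - k₀) / (n - 1) * M := add_le_add this e3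
        _ = _ := by ring
    · -- zero
      have hprev := ih (k - 1) (by omega) (by omega) (by
        have ek : k - 1 + 1 = k := by omega
        rw [ek]
        rcases le_total (α (k - 1) * b) (β (k - 1) * a) with q | q
        · left; exact ⟨q, by omega⟩
        · right; exact ⟨q, by omega⟩)
      have ek : k - 1 + 1 = k := by omega
      rw [ek] at hprev
      rw [Finset.sum_Ico_succ_top (by omega : 1 ≤ k)]
      have hph : phi a b (α k) (β k) ≤ 0 := by
        apply phi_zero ha' hb' (Nat.cast_nonneg _)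
        · have : α k ≤ a := by rw [← h.ea]; exact h.mona hk.le le_rfl
          exact_mod_cast this
        · exact_mod_cast hD
      have h2 : g k * phi a b (α k) (β k) ≤ 0 := mul_nonpos_of_nonneg_of_nonpos (hg k) hph
      have h3 : (((k - 1 : ℕ) : ℝ)) / (n - 1) * M ≤ (k : ℝ) / (n - 1) * M := by
        apply mul_le_mul_of_nonneg_right _ hM
        apply div_le_div_of_nonneg_right _ (by linarith)
        exact_mod_cast (by omega : k - 1 ≤ k)
      linarith
    · -- negative run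
      have hk2 : β (k + 1) * a ≤ α (k + 1) * b := by
        rcases hbd with q | q
        · exact q.2
        · omega
      have hs' : ∀ s, 2 ≤ s → s + 2 ≤ n → ∑ t ∈ Finset.Ico 1 n, g t * Vc n s t ≤ M := hs
      obtain ⟨k₀, hk₀, e1, e2, e3⟩ := posStep h.swap hb ha hg hM hs' hk hD hk2
      have := ih k₀ hk₀ (by omega) (Or.inr ⟨e1, e2.le⟩)
      rw [← Finset.sum_Ico_consecutive _ (by omega : 1 ≤ k₀ + 1) (by omega : k₀ + 1 ≤ k + 1)]
      have e4 : ∑ t ∈ Finset.Ico (k₀ + 1) (k + 1), g t * phi a b (α t) (β t) ≤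
          ((k : ℝ) - k₀) / (n - 1) * M := by
        refine le_trans (le_of_eq ?_) e3
        apply Finset.sum_congr rfl
        intro t _
        rw [phi_swap]
      calc _ ≤ (k₀ : ℝ) / (n - 1) * M + ((k : ℝ) - k₀) / (n - 1) * M := add_le_add this e4
        _ = _ := by ring

/-- Summed form of the domination. -/
lemma total {n a b : ℕ} {α β : ℕ → ℕ} (h : Path n a b α β) (ha : 2 ≤ a) (hb : 2 ≤ b)
    {g : ℕ → ℝ} (hg : ∀ t, 0 ≤ g t) {M : ℝ} (hM : 0 ≤ M)
    (hs : ∀ s, 2 ≤ s → s + 2 ≤ n → ∑ t ∈ Finset.Ico 1 n, g t * Vc n s t ≤ M) :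
    ∑ t ∈ Finset.Ico 1 n, g t * phi a b (α t) (β t) ≤ M := by
  have hn : a + b = n := by rw [← h.ea, ← h.eb]; exact h.sum n le_rfl
  have hn4 : (4 : ℝ) ≤ n := by
    have : 4 ≤ n := by omega
    exact_mod_cast this
  have e : n - 1 + 1 = n := by omega
  have := main h ha hb hg hM hs (n - 1) (by omega) (by
    rw [e, h.ea, h.eb]
    rcases le_total (α (n - 1) * b) (β (n - 1) * a) with q | q
    · left; exact ⟨q, by rw [mul_comm]⟩
    · right; exact ⟨q, by rw [mul_comm]⟩)
  rw [e] at this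
  have h1 : (((n - 1 : ℕ) : ℝ)) = n - 1 := by
    rw [Nat.cast_sub (by omega)]; simp
  rw [h1, div_self (by linarith), one_mul] at this
  exact this

end X70.Coal
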