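import Pool.Agent.X70.Coal3

/-!
Sorted structures: the function of the cut, its local concavity at ties, and
the pair-distance formula.
-/

namespace X70.Coal

/-- half the coefficient of the gap `t` in the cost of the cut after `s` agents
(`s = 0` and `s = n` stand for the grand coalition); `δ` is an extra term used
to rule out the two singleton cuts. -/
noncomputable def U (δ : ℝ) (n s t : ℕ) : ℝ :=
  if t < s then (t : ℝ) * (s - t) / (s - 1)
  else if t = s then (if s = 1 ∨ s + 1 = n then δ else 0)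
  else ((t : ℝ) - s) * (n - t) / (n - s - 1)

noncomputable def F (δ : ℝ) (g : ℕ → ℝ) (n s : ℕ) : ℝ :=
  2 * ∑ t ∈ Finset.Ico 1 n, g t * U δ n s t

lemma inv_conc {x : ℝ} (hx : 1 < x) : 2 / x ≤ 1 / (x - 1) + 1 / (x + 1) := by
  have h1 : x - 1 ≠ 0 := by linarith
  have h2 : x + 1 ≠ 0 := by linarith
  have h3 : x ≠ 0 := by linarith
  have : 1 / (x - 1) + 1 / (x + 1) - 2 / x = 2 / ((x - 1) * (x + 1) * x) := by
    field_simp
    ring
  have h4 : 0 ≤ 2 / ((x - 1) * (x + 1) * x) := by
    apply div_nonneg (by norm_num)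
    exact mul_nonneg (mul_nonneg (by linarith) (by linarith)) (by linarith)
  linarith

/-- the left part, `t < s - 1` -/
lemma left_conc {s t : ℝ} (ht : 1 ≤ t) (hs : t + 1 < s) :
    t * (s - 1 - t) / (s - 1 - 1) + t * (s + 1 - t) / (s + 1 - 1) ≤ 2 * (t * (s - t) / (s - 1)) := by
  have h1 : s - 1 ≠ 0 := by linarith
  have h2 : s - 1 - 1 ≠ 0 := by linarith
  have h3 : s ≠ 0 := by linarith
  have h4 : s + 1 - 1 ≠ 0 := by linarith
  have e1 : t * (s - 1 - t) / (s - 1 - 1) = t - t * (t - 1) * (1 / (s - 1 - 1)) := by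
    field_simp; ring
  have e2 : t * (s + 1 - t) / (s + 1 - 1) = t - t * (t - 1) * (1 / (s - 1 + 1)) := by
    have : s - 1 + 1 ≠ 0 := by linarith
    field_simp; ring
  have e3 : t * (s - t) / (s - 1) = t - t * (t - 1) * (1 / (s - 1)) := by
    field_simp; ring
  rw [e1, e2, e3]
  have h := inv_conc (x := s - 1) (by linarith)
  have h5 : 0 ≤ t * (t - 1) := mul_nonneg (by linarith) (by linarith)
  have h6 := mul_le_mul_of_nonneg_left h h5
  have e4 : t * (t - 1) * (2 / (s - 1)) = 2 * (t * (t - 1) * (1 / (s - 1))) := by ring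
  rw [e4] at h6
  linarith

lemma U_conc {δ : ℝ} (hδ0 : 0 ≤ δ) (hδ1 : δ ≤ 1) {n s t : ℕ} (hs : 1 ≤ s) (hsn : s + 1 ≤ n)
    (ht : 1 ≤ t) (htn : t < n) (hn : 2 ≤ n)
    (hst : t ≠ s ∨ (δ = 1 ∧ (s = 1 ∨ s + 1 = n))) :
    U δ n (s - 1) t + U δ n (s + 1) t ≤ 2 * U δ n s t := by
  have hsR : (1 : ℝ) ≤ s := by exact_mod_cast hs
  have htR : (1 : ℝ) ≤ t := by exact_mod_cast ht
  have htnR : (t : ℝ) + 1 ≤ n := by exact_mod_cast htn
  have hsnR : (s : ℝ) + 1 ≤ n := by exact_mod_cast hsn
  have hs1 : ((s - 1 : ℕ) : ℝ) = s - 1 := by rw [Nat.cast_sub hs]; simp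
  have hs2 : ((s + 1 : ℕ) : ℝ) = s + 1 := by push_cast; ring
  rcases lt_trichotomy t s with h | h | h
  · rcases (by omega : t + 1 < s ∨ t + 1 = s) with h' | h'
    · -- t < s - 1
      unfold U
      rw [if_pos (by omega : t < s - 1), if_pos (by omega : t < s + 1), if_pos h, hs1, hs2]
      have h2 : (t : ℝ) + 1 < s := by exact_mod_cast h'
      exact left_conc htR h2
    · -- t = s - 1
      have e1 : U δ n (s - 1) t ≤ (if s = 2 then δ else 0) := by
        unfold U
        rw [if_neg (by omega : ¬ t < s - 1), if_pos (by omega : t = s - 1)]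
        split_ifs with q1 q2 q2
        · exact le_rfl
        · exfalso; omega
        · exact hδ0
        · exact le_rfl
      have h2 : (s : ℝ) = t + 1 := by exact_mod_cast h'.symm
      have e2 : U δ n (s + 1) t = 2 * t / (t + 1) := by
        unfold U
        rw [if_pos (by omega : t < s + 1), hs2, h2]
        congr 1 <;> ring
      have e3 : U δ n s t = 1 := by
        unfold U
        rw [if_pos h, h2]
        have h3 : (t : ℝ) ≠ 0 := by linarith
        rw [show (t : ℝ) + 1 - t = 1 by ring, show (t : ℝ) + 1 - 1 = t by ring, mul_one,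
          div_self h3]
      rw [e2, e3]
      have e4 : 2 * (t : ℝ) / (t + 1) ≤ 2 - (if s = 2 then δ else 0) := by
        split_ifs with q
        · have : t = 1 := by omega
          rw [this]
          norm_num
          linarith
        · rw [div_le_iff₀ (by linarith)]
          linarith
      linarith
  · -- t = s
    rcases hst with q | ⟨q1, q2⟩
    · exact absurd h q
    · subst q1
      have e0 : U 1 n s t = 1 := by
        unfold U
        rw [if_neg (by omega), if_pos h, if_pos q2]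
      have e1 : U 1 n (s - 1) t = 1 := by
        unfold U
        rw [if_neg (by omega), if_neg (by omega), hs1, h]
        have : ((n : ℝ) - (s - 1) - 1) = n - s := by ring
        rw [this]
        have h3 : (n : ℝ) - s ≠ 0 := by linarith
        have : ((s : ℝ) - (s - 1)) = 1 := by ring
        rw [this, one_mul, div_self h3]
      have e2 : U 1 n (s + 1) t = 1 := by
        unfold U
        rw [if_pos (by omega), hs2, h]
        have h3 : (s : ℝ) ≠ 0 := by linarith
        have : ((s : ℝ) + 1 - s) = 1 := by ring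
        rw [this, mul_one]
        have : ((s : ℝ) + 1 - 1) = s := by ring
        rw [this, div_self h3]
      rw [e0, e1, e2]; norm_num
  · -- s < t
    have hbR : (s : ℝ) + 1 ≤ t := by exact_mod_cast h
    rcases (by omega : s + 1 < t ∨ s + 1 = t) with h' | h'
    · unfold U
      rw [if_neg (by omega : ¬ t < s - 1), if_neg (by omega : ¬ t = s - 1),
        if_neg (by omega : ¬ t < s + 1), if_neg (by omega : ¬ t = s + 1),
        if_neg (by omega : ¬ t < s), if_neg (by omega : ¬ t = s), hs1, hs2]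
      have h2 : (s : ℝ) + 1 < t := by exact_mod_cast h'
      have := left_conc (s := (n : ℝ) - s) (t := n - t) (by linarith) (by linarith)
      have e1 : ((t : ℝ) - (s - 1)) * (n - t) / (n - (s - 1) - 1) =
          ((n : ℝ) - t) * (n - s + 1 - (n - t)) / (n - s + 1 - 1) := by
        congr 1 <;> ring
      have e2 : ((t : ℝ) - (s + 1)) * (n - t) / (n - (s + 1) - 1) =
          ((n : ℝ) - t) * (n - s - 1 - (n - t)) / (n - s - 1 - 1) := by
        congr 1 <;> ring
      have e3 : ((t : ℝ) - s) * (n - t) / (n - s - 1) =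
          ((n : ℝ) - t) * (n - s - (n - t)) / (n - s - 1) := by
        congr 1 <;> ring
      rw [e1, e2, e3]
      linarith
    · have h2 : (t : ℝ) = s + 1 := by exact_mod_cast h'.symm
      have e1 : U δ n (s + 1) t ≤ (if s + 2 = n then δ else 0) := by
        unfold U
        rw [if_neg (by omega), if_pos (by omega : t = s + 1)]
        split_ifs with q1 q2 q2
        · exact le_rfl
        · exfalso; omega
        · exact hδ0
        · exact le_rfl
      have hnt : (0 : ℝ) < n - s - 1 := by linarith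
      have e2 : U δ n (s - 1) t = 2 * (n - s - 1) / (n - s) := by
        unfold U
        rw [if_neg (by omega), if_neg (by omega), hs1, h2]
        congr 1 <;> ring
      have e3 : U δ n s t = 1 := by
        unfold U
        rw [if_neg (by omega), if_neg (by omega), h2]
        rw [div_eq_one_iff_eq (by linarith)]
        ring
      rw [e2, e3]
      have e4 : 2 * ((n : ℝ) - s - 1) / (n - s) ≤ 2 - (if s + 2 = n then δ else 0) := by
        split_ifs with q
        · have : (n : ℝ) = s + 2 := by exact_mod_cast q.symm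
          rw [this]
          have : 2 * ((s : ℝ) + 2 - s - 1) / (s + 2 - s) = 1 := by
            have : ((s : ℝ) + 2 - s) = 2 := by ring
            rw [this]; ring
          rw [this]; linarith
        · rw [div_le_iff₀ (by linarith)]
          linarith
      linarith

lemma F_conc {δ : ℝ} (hδ0 : 0 ≤ δ) (hδ1 : δ ≤ 1) {g : ℕ → ℝ} (hg : ∀ t, 0 ≤ g t) {n s : ℕ}
    (hs : 1 ≤ s) (hsn : s + 1 ≤ n) (hst : g s = 0 ∨ (δ = 1 ∧ (s = 1 ∨ s + 1 = n))) :
    F δ g n (s - 1) + F δ g n (s + 1) ≤ 2 * F δ g n s := by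
  unfold F
  rw [← mul_add, ← Finset.sum_add_distrib]
  apply mul_le_mul_of_nonneg_left _ (by norm_num)
  rw [Finset.mul_sum]
  apply Finset.sum_le_sum
  intro t ht
  rw [Finset.mem_Ico] at ht
  by_cases h : t = s ∧ g s = 0
  · rw [h.1, h.2]; simp
  · have := U_conc hδ0 hδ1 hs hsn ht.1 ht.2 (by omega) (n := n) (t := t) (s := s) (by
      by_cases h2 : t = s
      · right
        rcases hst with q | q
        · exact absurd ⟨h2, q⟩ h
        · exact q
      · left; exact h2)
    have := mul_le_mul_of_nonneg_left this (hg t)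
    nlinarith

lemma U_zero (δ : ℝ) {n t : ℕ} (ht : 1 ≤ t) : U δ n 0 t = (t : ℝ) * (n - t) / (n - 1) := by
  unfold U
  rw [if_neg (by omega), if_neg (by omega)]
  simp

lemma U_last (δ : ℝ) {n t : ℕ} (ht : t < n) : U δ n n t = (t : ℝ) * (n - t) / (n - 1) := by
  unfold U
  rw [if_pos ht]

lemma F_last (δ : ℝ) (g : ℕ → ℝ) (n : ℕ) : F δ g n n = F δ g n 0 := by
  unfold F
  congr 1
  apply Finset.sum_congr rfl
  intro t ht
  rw [Finset.mem_Ico] at ht
  rw [U_zero δ ht.1, U_last δ ht.2]

/-- The least minimiser of `F` is the grand coalition or an untied cut. -/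
lemma exists_cut {δ : ℝ} (hδ0 : 0 ≤ δ) (hδ1 : δ ≤ 1) {g : ℕ → ℝ} (hg : ∀ t, 0 ≤ g t) {n : ℕ}
    (_hn : 1 ≤ n) :
    ∃ s, (∀ s' ≤ n, F δ g n s ≤ F δ g n s') ∧ (s = 0 ∨
      (1 ≤ s ∧ s + 1 ≤ n ∧ g s ≠ 0 ∧ ¬ (δ = 1 ∧ (s = 1 ∨ s + 1 = n)))) := by
  classical
  have hex : ∃ s, s ≤ n ∧ ∀ s' ≤ n, F δ g n s ≤ F δ g n s' := by
    obtain ⟨s, hs, hmin⟩ := Finset.exists_min_image (Finset.range (n + 1)) (F δ g n)
      ⟨0, by simp⟩
    refine ⟨s, by simpa [Nat.lt_succ_iff] using hs, fun s' hs' => hmin s' ?_⟩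
    simpa [Nat.lt_succ_iff] using hs'
  set s := Nat.find hex with hsdef
  obtain ⟨hsn, hmin⟩ := Nat.find_spec hex
  rw [← hsdef] at hsn hmin
  have hlt : ∀ s' < s, F δ g n s < F δ g n s' := by
    intro s' hs'
    have h1 := Nat.find_min hex hs'
    by_contra hc
    push Not at hc
    exact h1 ⟨by omega, fun s'' h'' => hc.trans (hmin s'' h'')⟩
  refine ⟨s, hmin, ?_⟩
  rcases Nat.eq_zero_or_pos s with h | h
  · left; exact h
  right
  have hsn' : s + 1 ≤ n := by
    rcases (by omega : s + 1 ≤ n ∨ s = n) with q | q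
    · exact q
    · exfalso
      have := hlt 0 h
      rw [q, F_last] at this
      exact lt_irrefl _ this
  refine ⟨h, hsn', ?_⟩
  by_contra hc
  have hst : g s = 0 ∨ (δ = 1 ∧ (s = 1 ∨ s + 1 = n)) := by tauto
  have h1 := F_conc hδ0 hδ1 hg h hsn' hst
  have h2 := hlt (s - 1) (by omega)
  have h3 := hmin (s + 1) hsn'
  linarith

/-- difference to the grand coalition for a cut -/
lemma U_Vc (δ : ℝ) {n s t : ℕ} (hs : 2 ≤ s) (hsn : s + 2 ≤ n) (ht : 1 ≤ t) (htn : t < n) :
    U δ n 0 t - U δ n s t = Vc n s t := by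
  have a1 : (2 : ℝ) ≤ s := by exact_mod_cast hs
  have a2 : (s : ℝ) + 2 ≤ n := by exact_mod_cast hsn
  have a3 : (1 : ℝ) ≤ t := by exact_mod_cast ht
  have a4 : (t : ℝ) + 1 ≤ n := by exact_mod_cast htn
  have h1 : (n : ℝ) - 1 ≠ 0 := by linarith
  have h2 : (s : ℝ) - 1 ≠ 0 := by linarith
  have h3 : (n : ℝ) - s - 1 ≠ 0 := by linarith
  rw [U_zero δ ht]
  unfold U Vc
  rcases lt_trichotomy t s with h | h | h
  · rw [if_pos h, if_pos h.le]
    field_simp
    ring
  · rw [if_neg (by omega), if_pos h, if_pos h.le, if_neg (by omega), h]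
    field_simp
    ring
  · rw [if_neg (by omega), if_neg (by omega), if_neg (by omega)]
    field_simp
    ring

/-- cost coefficient of a split at a position -/
lemma U_phi (δ : ℝ) {n t : ℕ} {a b x y : ℝ} (ha : 1 < a) (hb : 1 < b) (hab : a + b = n)
    (hxy : x + y = t) (ht : 1 ≤ t) :
    U δ n 0 t - (x * (a - x) / (a - 1) + y * (b - y) / (b - 1)) = phi a b x y := by
  rw [U_zero δ ht]
  unfold phi
  rw [hab, hxy]
  have h1 : (n : ℝ) - 1 ≠ 0 := by linarith
  have h2 : a - 1 ≠ 0 := by linarith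
  have h3 : b - 1 ≠ 0 := by linarith
  have e1 : (t : ℝ) * (n - t) / (n - 1) = t - t * (t - 1) / (n - 1) := by field_simp; ring
  have e2 : x * (a - x) / (a - 1) = x - x * (x - 1) / (a - 1) := by field_simp; ring
  have e3 : y * (b - y) / (b - 1) = y - y * (y - 1) / (b - 1) := by field_simp; ring
  rw [e1, e2, e3]
  linarith

/-- A two-coalition structure without singletons costs at least as much as the
best cut. -/
lemma split_ge (δ : ℝ) {n a b : ℕ} {α β : ℕ → ℕ} (h : Path n a b α β) (ha : 2 ≤ a)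
    (hb : 2 ≤ b) {g : ℕ → ℝ} (hg : ∀ t, 0 ≤ g t) {m : ℝ} (hm0 : m ≤ F δ g n 0)
    (hm : ∀ s, 2 ≤ s → s + 2 ≤ n → m ≤ F δ g n s) :
    m ≤ 2 * ∑ t ∈ Finset.Ico 1 n, g t *
      ((α t : ℝ) * (a - α t) / (a - 1) + (β t : ℝ) * (b - β t) / (b - 1)) := by
  have hn : a + b = n := by rw [← h.ea, ← h.eb]; exact h.sum n le_rfl
  have ha' : (1 : ℝ) < a := by exact_mod_cast (by omega : 1 < a)
  have hb' : (1 : ℝ) < b := by exact_mod_cast (by omega : 1 < b)
  have := total h ha hb hg (M := (F δ g n 0 - m) / 2) (by linarith) (by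
    intro s hs hsn
    have e : ∑ t ∈ Finset.Ico 1 n, g t * Vc n s t = (F δ g n 0 - F δ g n s) / 2 := by
      unfold F
      rw [← mul_sub, ← Finset.sum_sub_distrib, mul_div_cancel_left₀ _ (by norm_num)]
      apply Finset.sum_congr rfl
      intro t ht
      rw [Finset.mem_Ico] at ht
      rw [← U_Vc δ hs hsn ht.1 ht.2]
      ring
    rw [e]
    have := hm s hs hsn
    linarith)
  have e : ∑ t ∈ Finset.Ico 1 n, g t * phi a b (α t) (β t) = (F δ g n 0 - 2 *
      ∑ t ∈ Finset.Ico 1 n, g t *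
      ((α t : ℝ) * (a - α t) / (a - 1) + (β t : ℝ) * (b - β t) / (b - 1))) / 2 := by
    unfold F
    rw [← mul_sub, ← Finset.sum_sub_distrib, mul_div_cancel_left₀ _ (by norm_num)]
    apply Finset.sum_congr rfl
    intro t ht
    rw [Finset.mem_Ico] at ht
    rw [← U_phi δ (n := n) (t := t) ha' hb' (by exact_mod_cast hn)
      (by exact_mod_cast h.sum t ht.2.le) ht.1]
    ring
  rw [e] at this
  linarith

end X70.Coal
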