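import Mathlib

/-!
The cookie game on strict positions: counting functions, the effective level and the closed form
for the positions of type P.
-/

namespace Pool.Agent.X70.Cookie

open Multiset

/-- Selecting a heap of size `a`: it is removed and every other heap is lowered by one
(heaps of size `0` stay at `0`). -/
def move (s : Multiset ℕ) (a : ℕ) : Multiset ℕ := (s.erase a).map (fun x => x - 1)

theorem card_move_lt {s : Multiset ℕ} {a : ℕ} (h : a ∈ s) :
    Multiset.card (move s a) < Multiset.card s := by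
  unfold move
  rw [Multiset.card_map]
  exact Multiset.card_erase_lt_of_mem h

/-- The player to move wins: some legal selection leads to a position that is not a win for
the player to move. -/
def TypeN (s : Multiset ℕ) : Prop :=
  ∃ a : {a : ℕ // a ∈ s}, 1 ≤ a.1 ∧ ¬ TypeN (move s a.1)
termination_by Multiset.card s
decreasing_by exact card_move_lt a.2

theorem typeN_iff (s : Multiset ℕ) :
    TypeN s ↔ ∃ a ∈ s, 1 ≤ a ∧ ¬ TypeN (move s a) := by
  constructor
  · intro h
    rw [TypeN] at h
    obtain ⟨⟨a, ha⟩, h1, h2⟩ := h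
    exact ⟨a, ha, h1, h2⟩
  · rintro ⟨a, ha, h1, h2⟩
    rw [TypeN]
    exact ⟨⟨a, ha⟩, h1, h2⟩

/-- number of positive heaps -/
def N (s : Multiset ℕ) : ℕ := s.countP (fun x => 1 ≤ x)

/-- number of heaps with size in `[1,t]` -/
def c (s : Multiset ℕ) (t : ℕ) : ℕ := s.countP (fun x => 1 ≤ x ∧ x ≤ t)

def Good (s : Multiset ℕ) : Prop := ∀ x, 1 ≤ x → x < N s → s.count x ≤ 1

theorem c_zero (s : Multiset ℕ) : c s 0 = 0 := by
  unfold c
  rw [Multiset.countP_eq_zero]
  intro a _ h
  omega

theorem c_succ (s : Multiset ℕ) (t : ℕ) : c s (t + 1) = c s t + s.count (t + 1) := by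
  unfold c
  induction s using Multiset.induction_on with
  | empty => simp
  | cons a s ih =>
    rw [Multiset.countP_cons, Multiset.countP_cons, Multiset.count_cons, ih]
    split_ifs <;> omega

theorem c_le_N (s : Multiset ℕ) (t : ℕ) : c s t ≤ N s := by
  unfold c N
  induction s using Multiset.induction_on with
  | empty => simp
  | cons a s ih =>
    rw [Multiset.countP_cons, Multiset.countP_cons]
    split_ifs <;> omega

theorem c_mono (s : Multiset ℕ) {t t' : ℕ} (h : t ≤ t') : c s t ≤ c s t' := by
  unfold c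
  induction s using Multiset.induction_on with
  | empty => simp
  | cons a s ih =>
    rw [Multiset.countP_cons, Multiset.countP_cons]
    split_ifs <;> omega

theorem c_map (m : Multiset ℕ) (t : ℕ) :
    c (m.map (fun x => x - 1)) t + c m 1 = c m (t + 1) := by
  unfold c
  induction m using Multiset.induction_on with
  | empty => simp
  | cons a s ih =>
    rw [Multiset.map_cons, Multiset.countP_cons, Multiset.countP_cons, Multiset.countP_cons]
    split_ifs <;> omega

theorem N_map (m : Multiset ℕ) :
    N (m.map (fun x => x - 1)) + c m 1 = N m := by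
  unfold c N
  induction m using Multiset.induction_on with
  | empty => simp
  | cons a s ih =>
    rw [Multiset.map_cons, Multiset.countP_cons, Multiset.countP_cons, Multiset.countP_cons]
    split_ifs <;> omega

theorem c_move {s : Multiset ℕ} {d : ℕ} (hd : d ∈ s) (h1 : 1 ≤ d) (t : ℕ) :
    c (move s d) t + c s 1 + (if 2 ≤ d ∧ d ≤ t + 1 then 1 else 0) = c s (t + 1) := by
  obtain ⟨s', rfl⟩ := Multiset.exists_cons_of_mem hd
  unfold move
  rw [Multiset.erase_cons_head]
  have h := c_map s' t
  have e1 : c (d ::ₘ s') 1 = c s' 1 + if (1 ≤ d ∧ d ≤ 1) then 1 else 0 := by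
    unfold c; rw [Multiset.countP_cons]
  have e2 : c (d ::ₘ s') (t + 1) = c s' (t + 1) + if (1 ≤ d ∧ d ≤ t + 1) then 1 else 0 := by
    unfold c; rw [Multiset.countP_cons]
  rw [e1, e2]
  split_ifs <;> omega

theorem N_move {s : Multiset ℕ} {d : ℕ} (hd : d ∈ s) (h1 : 1 ≤ d) :
    N (move s d) + 1 + c s 1 = N s + (if d = 1 then 1 else 0) := by
  obtain ⟨s', rfl⟩ := Multiset.exists_cons_of_mem hd
  unfold move
  rw [Multiset.erase_cons_head]
  have h := N_map s'
  have e1 : c (d ::ₘ s') 1 = c s' 1 + if (1 ≤ d ∧ d ≤ 1) then 1 else 0 := by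
    unfold c; rw [Multiset.countP_cons]
  have e2 : N (d ::ₘ s') = N s' + if (1 ≤ d) then 1 else 0 := by
    unfold N; rw [Multiset.countP_cons]
  rw [e1, e2]
  split_ifs <;> omega

theorem c_step {s : Multiset ℕ} (hs : Good s) {t : ℕ} (ht : t + 1 < N s) :
    c s (t + 1) ≤ c s t + 1 := by
  have h1 := c_succ s t
  have h2 := hs (t + 1) (by omega) ht
  omega

theorem good_move {s : Multiset ℕ} (hs : Good s) {d : ℕ} (hd : d ∈ s) (h1 : 1 ≤ d) :
    Good (move s d) := by
  intro x hx hxN
  obtain ⟨y, rfl⟩ : ∃ y, x = y + 1 := ⟨x - 1, by omega⟩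
  have hN := N_move hd h1
  have a1 := c_succ (move s d) y
  have a2 := c_move hd h1 y
  have a3 := c_move hd h1 (y + 1)
  have a4 := c_succ s (y + 1)
  have hlt : y + 1 + 1 < N s := by
    split_ifs at hN with h
    · have : 1 ≤ c s 1 := by
        have := c_succ s 0
        have h0 : 0 < s.count 1 := Multiset.count_pos.mpr (h ▸ hd)
        simp only [zero_add] at this
        omega
      omega
    · omega
  have a5 := hs (y + 1 + 1) (by omega) hlt
  split_ifs at a2 a3 <;> omega

/-- level `k` is reached within the effective horizon -/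
def Reach (s : Multiset ℕ) (k : ℕ) : Prop :=
  ∃ t, t + (k - 3) / 2 + 1 ≤ N s ∧ t + k ≤ 2 * c s t

theorem Reach.mono {s : Multiset ℕ} {k k' : ℕ} (h : Reach s k') (hk : k ≤ k') : Reach s k := by
  obtain ⟨t, h1, h2⟩ := h
  refine ⟨t, ?_, by omega⟩
  have : (k - 3) / 2 ≤ (k' - 3) / 2 := Nat.div_le_div_right (by omega)
  omega

open Classical in
/-- the effective level of a position -/
noncomputable def M (s : Multiset ℕ) : ℕ := Nat.findGreatest (Reach s) (2 * N s)

theorem le_M_iff {s : Multiset ℕ} {k : ℕ} (hk : 1 ≤ k) : k ≤ M s ↔ Reach s k := by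
  classical
  constructor
  · intro h
    have h0 : M s ≠ 0 := by omega
    have : Reach s (M s) := by
      unfold M at *
      exact Nat.findGreatest_of_ne_zero rfl h0
    exact this.mono h
  · intro h
    unfold M
    apply Nat.le_findGreatest _ h
    obtain ⟨t, h1, h2⟩ := h
    have := c_le_N s t
    omega

theorem M_lt_iff {s : Multiset ℕ} {k : ℕ} (hk : 1 ≤ k) : M s < k ↔ ¬ Reach s k := by
  rw [← le_M_iff hk]; omega

theorem not_reach_succ (s : Multiset ℕ) : ¬ Reach s (M s + 1) := by
  rw [← le_M_iff (by omega)]; omega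

theorem reach_M {s : Multiset ℕ} (h : 1 ≤ M s) : Reach s (M s) := (le_M_iff h).mp le_rfl

/-- a convenient form of `¬ Reach` -/
theorem not_reach_succ' (s : Multiset ℕ) (t : ℕ) (h : t + (M s + 1 - 3) / 2 + 1 ≤ N s) :
    2 * c s t < t + M s + 1 := by
  by_contra hc
  exact not_reach_succ s ⟨t, h, by omega⟩

theorem c_one_le {s : Multiset ℕ} (hs : Good s) (hN : 2 ≤ N s) : c s 1 ≤ 1 := by
  have := c_step hs (t := 0) (by omega)
  have h0 := c_zero s
  simp only [zero_add] at this
  omega

theorem c_one_pos {s : Multiset ℕ} (h : 1 ∈ s) : 1 ≤ c s 1 := by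
  have := c_succ s 0
  have h0 : 0 < s.count 1 := Multiset.count_pos.mpr h
  simp only [zero_add] at this
  omega

/-- the number of positive heaps at least `1` when some positive heap exists -/
theorem N_pos {s : Multiset ℕ} {d : ℕ} (hd : d ∈ s) (h1 : 1 ≤ d) : 1 ≤ N s := by
  unfold N
  exact Multiset.countP_pos.mpr ⟨d, hd, h1⟩

end Pool.Agent.X70.Cookie
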