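import Pool.Agent.X70.Cookie

namespace Pool.Agent.X70.Cookie

open Multiset

theorem c_one_le' {s : Multiset ℕ} (hs : Good s) : c s 1 ≤ 1 := by
  by_cases h : 2 ≤ N s
  · exact c_one_le hs h
  · have := c_le_N s 1
    omega

theorem caseA {s : Multiset ℕ} (hs : Good s) {d : ℕ} (hd : d ∈ s) (h1 : 1 ≤ d)
    (hA : c s 1 = 0 ∨ d = 1) :
    N (move s d) + 1 = N s ∧
      ∀ t, c (move s d) t + (if d ≤ t + 1 then 1 else 0) = c s (t + 1) := by
  have hN := N_move hd h1
  have hc1 := c_one_le' hs
  have hpos : d = 1 → 1 ≤ c s 1 := fun h => c_one_pos (h ▸ hd)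
  constructor
  · split_ifs at hN with h
    · have := hpos h; omega
    · rcases hA with hA | hA
      · omega
      · exact absurd hA h
  · intro t
    have hc := c_move hd h1 t
    rcases hA with hA | hA
    · have hd2 : 2 ≤ d := by
        by_contra hcon
        have : d = 1 := by omega
        have := hpos this
        omega
      split_ifs at hc ⊢ <;> omega
    · have := hpos hA
      split_ifs at hc ⊢ <;> omega

theorem caseB {s : Multiset ℕ} {d : ℕ} (hd : d ∈ s) (h2 : 2 ≤ d) (hB : c s 1 = 1) :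
    N (move s d) + 2 = N s ∧
      ∀ t, c (move s d) t + 1 + (if d ≤ t + 1 then 1 else 0) = c s (t + 1) := by
  have h1 : 1 ≤ d := by omega
  have hN := N_move hd h1
  constructor
  · split_ifs at hN with h
    · omega
    · omega
  · intro t
    have hc := c_move hd h1 t
    split_ifs at hc ⊢ <;> omega

/-- `A_up` -/
theorem A_up {s : Multiset ℕ} (hs : Good s) {d : ℕ} (hd : d ∈ s) (h1 : 1 ≤ d)
    (hA : c s 1 = 0 ∨ d = 1) : M (move s d) ≤ M s + 1 := by
  obtain ⟨hN, hc⟩ := caseA hs hd h1 hA
  by_contra hcon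
  have hr : Reach (move s d) (M s + 2) := (le_M_iff (by omega)).mp (by omega)
  obtain ⟨t, ht1, ht2⟩ := hr
  have := hc t
  have h3 := not_reach_succ' s (t + 1) (by omega)
  split_ifs at this <;> omega

/-- selecting the heap `1` never raises the level -/
theorem A_up_one {s : Multiset ℕ} (hs : Good s) (hd : 1 ∈ s) : M (move s 1) ≤ M s := by
  obtain ⟨hN, hc⟩ := caseA hs hd le_rfl (Or.inr rfl)
  by_contra hcon
  have hr : Reach (move s 1) (M s + 1) := (le_M_iff (by omega)).mp (by omega)
  obtain ⟨t, ht1, ht2⟩ := hr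
  have := hc t
  have h3 := not_reach_succ' s (t + 1) (by omega)
  split_ifs at this <;> omega

/-- `A_low` -/
theorem A_low {s : Multiset ℕ} (hs : Good s) {d : ℕ} (hd : d ∈ s) (h1 : 1 ≤ d)
    (hA : c s 1 = 0 ∨ d = 1) : M s ≤ M (move s d) + 1 := by
  obtain ⟨hN, hc⟩ := caseA hs hd h1 hA
  by_cases hM : M s ≤ 1
  · omega
  obtain ⟨T, hT1, hT2⟩ := reach_M (s := s) (by omega)
  have hT0 : T ≠ 0 := by
    rintro rfl
    rw [c_zero] at hT2
    omega
  have hr : Reach (move s d) (M s - 1) := by
    refine ⟨T - 1, by omega, ?_⟩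
    have := hc (T - 1)
    rw [show T - 1 + 1 = T by omega] at this
    split_ifs at this <;> omega
  have := (le_M_iff (s := move s d) (k := M s - 1) (by omega)).mpr hr
  omega

/-- `B_up` -/
theorem B_up {s : Multiset ℕ} {d : ℕ} (hd : d ∈ s) (h2 : 2 ≤ d) (hB : c s 1 = 1)
    : M (move s d) + 1 ≤ M s := by
  obtain ⟨hN, hc⟩ := caseB hd h2 hB
  have hM1 : 1 ≤ M s := by
    rw [le_M_iff le_rfl]
    exact ⟨1, by omega, by omega⟩
  by_contra hcon
  have hr : Reach (move s d) (M s) := (le_M_iff hM1).mp (by omega)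
  obtain ⟨t, ht1, ht2⟩ := hr
  have := hc t
  have h3 := not_reach_succ' s (t + 1) (by omega)
  split_ifs at this <;> omega

/-- `B_low` -/
theorem B_low {s : Multiset ℕ} (hs : Good s) {d : ℕ} (hd : d ∈ s) (h2 : 2 ≤ d) (hB : c s 1 = 1)
    (hex : M s ≠ 4 ∨ N s % 2 = 0) : M s ≤ M (move s d) + 3 := by
  obtain ⟨hN, hc⟩ := caseB hd h2 hB
  by_cases hM : M s ≤ 3
  · omega
  obtain ⟨T, hT1, hT2⟩ := reach_M (s := s) (by omega)
  have hT0 : T ≠ 0 := by
    rintro rfl
    rw [c_zero] at hT2
    omega
  have hr : Reach (move s d) (M s - 3) := by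
    by_cases hM4 : M s = 4
    · have hev : N s % 2 = 0 := by
        rcases hex with h | h
        · exact absurd hM4 h
        · exact h
      rw [hM4] at hT1 hT2 ⊢
      by_cases hTn : T + 2 ≤ N s
      · refine ⟨T - 1, by omega, ?_⟩
        have := hc (T - 1)
        rw [show T - 1 + 1 = T by omega] at this
        split_ifs at this <;> omega
      · have hTe : T + 1 = N s := by omega
        have hst := c_step hs (t := T - 1) (by omega)
        rw [show T - 1 + 1 = T by omega] at hst
        have hT2' : 2 ≤ T := by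
          have := c_le_N s T
          omega
        refine ⟨T - 2, by omega, ?_⟩
        have := hc (T - 2)
        rw [show T - 2 + 1 = T - 1 by omega] at this
        split_ifs at this <;> omega
    · refine ⟨T - 1, by omega, ?_⟩
      have := hc (T - 1)
      rw [show T - 1 + 1 = T by omega] at this
      split_ifs at this <;> omega
  have := (le_M_iff (s := move s d) (k := M s - 3) (by omega)).mpr hr
  omega

end Pool.Agent.X70.Cookie
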