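import Pool.Agent.X70.Cookie2

namespace Pool.Agent.X70.Cookie

open Multiset

theorem c_le_self {s : Multiset ℕ} (hs : Good s) : ∀ t, t < N s → c s t ≤ t := by
  intro t
  induction t with
  | zero => intro _; rw [c_zero]
  | succ t ih =>
    intro h
    have h1 := ih (by omega)
    have h2 := c_step hs h
    omega

theorem c_eq_zero {s : Multiset ℕ} {d : ℕ} (h : ∀ x ∈ s, 1 ≤ x → d ≤ x) {t : ℕ} (ht : t < d) :
    c s t = 0 := by
  unfold c
  rw [Multiset.countP_eq_zero]
  intro a ha hh
  have := h a ha hh.1
  omega

theorem exists_min {s : Multiset ℕ} (hN : 1 ≤ N s) :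
    ∃ d ∈ s, 1 ≤ d ∧ ∀ x ∈ s, 1 ≤ x → d ≤ x := by
  classical
  have hex : ∃ d, d ∈ s ∧ 1 ≤ d := by
    unfold N at hN
    obtain ⟨a, ha, h1⟩ := Multiset.countP_pos.mp hN
    exact ⟨a, ha, h1⟩
  refine ⟨Nat.find hex, (Nat.find_spec hex).1, (Nat.find_spec hex).2, ?_⟩
  intro x hx h1
  exact Nat.find_min' hex ⟨hx, h1⟩

theorem exists_inf {s : Multiset ℕ} (hs : Good s) (hN : 1 ≤ N s) : ∃ d ∈ s, N s ≤ d := by
  by_contra hcon
  push Not at hcon
  have h1 : c s (N s - 1) = N s := by
    unfold c N
    apply Multiset.countP_congr rfl
    intro x hx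
    have := hcon x hx
    unfold N at this
    apply propext
    constructor
    · intro h; exact h.1
    · intro h; exact ⟨h, by omega⟩
  have h2 := c_le_self hs (N s - 1) (by omega)
  omega

theorem first_passage {s : Multiset ℕ} (hs : Good s) (hM : 1 ≤ M s) :
    ∃ T, 1 ≤ T ∧ T + (M s - 3) / 2 + 1 ≤ N s ∧ T + M s = 2 * c s T ∧
      (∀ t, t < T → 2 * c s t < t + M s) ∧ T ∈ s ∧ c s T = c s (T - 1) + 1 := by
  classical
  obtain ⟨T0, h1, h2⟩ := reach_M hM
  have hex : ∃ T, T + M s ≤ 2 * c s T := ⟨T0, h2⟩
  have hmin : Nat.find hex ≤ T0 := Nat.find_min' hex h2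
  have hspec := Nat.find_spec hex
  have hlt : ∀ t, t < Nat.find hex → 2 * c s t < t + M s := by
    intro t ht
    have := Nat.find_min hex ht
    omega
  generalize Nat.find hex = T at *
  have hT0 : T ≠ 0 := by
    rintro rfl
    rw [c_zero] at hspec
    omega
  have hst := c_step hs (t := T - 1) (by omega)
  have hsucc := c_succ s (T - 1)
  rw [show T - 1 + 1 = T by omega] at hst hsucc
  have hl := hlt (T - 1) (by omega)
  refine ⟨T, by omega, by omega, by omega, hlt, ?_, by omega⟩
  have : 0 < s.count T := by omega
  exact Multiset.count_pos.mp this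

theorem no_P_option {s : Multiset ℕ} (hs : Good s) (hP : (M s + 2 * N s) % 4 = 0) {d : ℕ}
    (hd : d ∈ s) (h1 : 1 ≤ d) : (M (move s d) + 2 * N (move s d)) % 4 ≠ 0 := by
  have hc1 := c_one_le' hs
  by_cases hA : c s 1 = 0 ∨ d = 1
  · have a1 := A_up hs hd h1 hA
    have a2 := A_low hs hd h1 hA
    have a3 := (caseA hs hd h1 hA).1
    omega
  · push Not at hA
    have hB : c s 1 = 1 := by omega
    have h2 : 2 ≤ d := by omega
    have a1 := B_up hd h2 hB
    have a2 := B_low hs hd h2 hB (by omega)
    have a3 := (caseB hd h2 hB).1
    omega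

theorem exists_P_option {s : Multiset ℕ} (hs : Good s) (hP : (M s + 2 * N s) % 4 ≠ 0) :
    ∃ d ∈ s, 1 ≤ d ∧ (M (move s d) + 2 * N (move s d)) % 4 = 0 := by
  have hc1 := c_one_le' hs
  have hN1 : 1 ≤ N s := by
    by_contra hcon
    have h0 : N s = 0 := by omega
    have : M s = 0 := by
      by_contra hM
      obtain ⟨t, h1, h2⟩ := reach_M (s := s) (by omega)
      omega
    omega
  by_cases hr3 : (M s + 2 * N s) % 4 = 3 ∨ M s = 0
  · -- the smallest positive heap
    obtain ⟨d, hd, h1, hmin⟩ := exists_min hN1
    have hA : c s 1 = 0 ∨ d = 1 := by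
      by_contra hcon
      push Not at hcon
      exact hcon.1 (c_eq_zero hmin (by omega))
    obtain ⟨hN, hc⟩ := caseA hs hd h1 hA
    have key : ∀ k, 1 ≤ k → Reach (move s d) k →
        ∃ T, T + (k - 3) / 2 + 1 ≤ N s ∧ T + k + 1 ≤ 2 * c s T := by
      rintro k hk ⟨t, ht1, ht2⟩
      refine ⟨t + 1, by omega, ?_⟩
      have := hc t
      by_cases hdt : d ≤ t + 1
      · rw [if_pos hdt] at this; omega
      · have h0 := c_eq_zero hmin (t := t + 1) (by omega)
        rw [if_neg hdt] at this; omega
    refine ⟨d, hd, h1, ?_⟩
    have a2 := A_low hs hd h1 hA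
    by_cases hM0 : M s = 0
    · have : M (move s d) = 0 := by
        by_contra hcon
        obtain ⟨T, hT1, hT2⟩ := key 1 le_rfl ((le_M_iff le_rfl).mp (by omega))
        have := not_reach_succ' s T (by omega)
        omega
      omega
    · have : M (move s d) < M s := by
        by_contra hcon
        obtain ⟨T, hT1, hT2⟩ := key (M s) (by omega) ((le_M_iff (by omega)).mp (by omega))
        have := not_reach_succ' s T (by omega)
        omega
      omega
  · push Not at hr3
    obtain ⟨hr3, hM0⟩ := hr3
    by_cases hr2 : (M s + 2 * N s) % 4 = 2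
    · -- first passage
      obtain ⟨T, hT1, hT2, hT3, hT4, hT5, hT6⟩ := first_passage hs (by omega : 1 ≤ M s)
      refine ⟨T, hT5, hT1, ?_⟩
      have hT2' : 2 ≤ T := by
        by_contra hcon
        have : T = 1 := by omega
        subst this
        omega
      by_cases hA : c s 1 = 0
      · obtain ⟨hN, hc⟩ := caseA hs hT5 hT1 (Or.inl hA)
        have low : M s ≤ M (move s T) := by
          rw [le_M_iff (by omega)]
          refine ⟨T - 2, by omega, ?_⟩
          have := hc (T - 2)
          rw [show T - 2 + 1 = T - 1 by omega] at this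
          rw [if_neg (by omega)] at this
          omega
        have up : M (move s T) < M s + 1 := by
          rw [M_lt_iff (by omega)]
          rintro ⟨t, ht1, ht2⟩
          have h3 := hc t
          by_cases hTt : T ≤ t + 1
          · rw [if_pos hTt] at h3
            have := not_reach_succ' s (t + 1) (by omega)
            omega
          · rw [if_neg hTt] at h3
            have := hT4 (t + 1) (by omega)
            omega
        omega
      · have hB : c s 1 = 1 := by omega
        obtain ⟨hN, hc⟩ := caseB hT5 hT2' hB
        have low : M s - 2 ≤ M (move s T) := by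
          by_cases hM2 : M s ≤ 2
          · omega
          rw [le_M_iff (by omega)]
          refine ⟨T - 2, by omega, ?_⟩
          have := hc (T - 2)
          rw [show T - 2 + 1 = T - 1 by omega] at this
          rw [if_neg (by omega)] at this
          omega
        have up : M (move s T) < M s - 1 := by
          rw [M_lt_iff (by omega)]
          rintro ⟨t, ht1, ht2⟩
          have h3 := hc t
          by_cases hTt : T ≤ t + 1
          · rw [if_pos hTt] at h3
            have := not_reach_succ' s (t + 1) (by omega)
            omega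
          · rw [if_neg hTt] at h3
            have := hT4 (t + 1) (by omega)
            omega
        omega
    · -- an infinite heap
      have hr1 : (M s + 2 * N s) % 4 = 1 := by omega
      obtain ⟨d, hd, hdN⟩ := exists_inf hs hN1
      obtain ⟨T, hT1, hT2⟩ := reach_M (s := s) (by omega)
      have hT0 : T ≠ 0 := by
        rintro rfl
        rw [c_zero] at hT2
        omega
      have hd2 : 2 ≤ d := by omega
      refine ⟨d, hd, by omega, ?_⟩
      by_cases hA : c s 1 = 0
      · obtain ⟨hN, hc⟩ := caseA hs hd (by omega) (Or.inl hA)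
        have up := A_up hs hd (by omega) (Or.inl hA)
        have low : M s + 1 ≤ M (move s d) := by
          rw [le_M_iff (by omega)]
          refine ⟨T - 1, by omega, ?_⟩
          have := hc (T - 1)
          rw [show T - 1 + 1 = T by omega, if_neg (by omega)] at this
          omega
        omega
      · have hB : c s 1 = 1 := by omega
        obtain ⟨hN, hc⟩ := caseB hd hd2 hB
        have up := B_up hd hd2 hB
        have low : M s - 1 ≤ M (move s d) := by
          by_cases hM1 : M s ≤ 1
          · omega
          rw [le_M_iff (by omega)]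
          by_cases hTn : T + (M s - 1 - 3) / 2 + 2 ≤ N s
          · refine ⟨T - 1, by omega, ?_⟩
            have := hc (T - 1)
            rw [show T - 1 + 1 = T by omega, if_neg (by omega)] at this
            omega
          · have hM3 : M s = 3 := by omega
            have hst := c_step hs (t := T - 1) (by omega)
            rw [show T - 1 + 1 = T by omega] at hst
            have hT2' : 2 ≤ T := by
              have := c_le_self hs T (by omega)
              omega
            refine ⟨T - 2, by omega, ?_⟩
            have := hc (T - 2)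
            rw [show T - 2 + 1 = T - 1 by omega, if_neg (by omega)] at this
            omega
        omega

/-- **Closed form.** A good position is of type P exactly when its effective level plus twice
its number of positive heaps is divisible by four. -/
theorem typeN_iff_level : ∀ (k : ℕ) (s : Multiset ℕ), Multiset.card s ≤ k → Good s →
    (TypeN s ↔ (M s + 2 * N s) % 4 ≠ 0) := by
  intro k
  induction k with
  | zero =>
    intro s hk hs
    rw [typeN_iff]
    constructor
    · rintro ⟨a, ha, _⟩
      have : 0 < Multiset.card s := Multiset.card_pos_iff_exists_mem.mpr ⟨a, ha⟩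
      omega
    · intro h
      obtain ⟨d, hd, _⟩ := exists_P_option hs h
      have : 0 < Multiset.card s := Multiset.card_pos_iff_exists_mem.mpr ⟨d, hd⟩
      omega
  | succ k ih =>
    intro s hk hs
    rw [typeN_iff]
    constructor
    · rintro ⟨a, ha, h1, h2⟩ hP
      apply h2
      have hlt := card_move_lt ha
      rw [ih (move s a) (by omega) (good_move hs ha h1)]
      exact no_P_option hs hP ha h1
    · intro h
      obtain ⟨d, hd, h1, h2⟩ := exists_P_option hs h
      refine ⟨d, hd, h1, ?_⟩
      have hlt := card_move_lt hd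
      rw [ih (move s d) (by omega) (good_move hs hd h1)]
      omega

theorem typeN_iff_level' {s : Multiset ℕ} (hs : Good s) :
    TypeN s ↔ (M s + 2 * N s) % 4 ≠ 0 := typeN_iff_level _ s le_rfl hs

theorem win_iff {s : Multiset ℕ} (hs : Good s) {d : ℕ} (hd : d ∈ s) (h1 : 1 ≤ d) :
    ¬ TypeN (move s d) ↔ (M (move s d) + 2 * N (move s d)) % 4 = 0 := by
  rw [typeN_iff_level' (good_move hs hd h1)]
  omega

theorem M_mono_of {s s' : Multiset ℕ} (hN : N s = N s') (hc : ∀ t, c s t ≤ c s' t) :
    M s ≤ M s' := by
  by_cases h : M s = 0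
  · omega
  rw [le_M_iff (by omega)]
  obtain ⟨t, h1, h2⟩ := reach_M (s := s) (by omega)
  exact ⟨t, by omega, by have := hc t; omega⟩

theorem A_mono {s : Multiset ℕ} (hs : Good s) {d d' : ℕ} (hd : d ∈ s) (hd' : d' ∈ s)
    (h1 : 1 ≤ d) (hdd : d ≤ d') (hA : c s 1 = 0) : M (move s d) ≤ M (move s d') := by
  obtain ⟨hN, hc⟩ := caseA hs hd h1 (Or.inl hA)
  obtain ⟨hN', hc'⟩ := caseA hs hd' (by omega) (Or.inl hA)
  apply M_mono_of (by omega)
  intro t
  have := hc t
  have := hc' t
  split_ifs at * <;> omega

theorem B_mono {s : Multiset ℕ} {d d' : ℕ} (hd : d ∈ s) (hd' : d' ∈ s)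
    (h2 : 2 ≤ d) (hdd : d ≤ d') (hB : c s 1 = 1) : M (move s d) ≤ M (move s d') := by
  obtain ⟨hN, hc⟩ := caseB hd h2 hB
  obtain ⟨hN', hc'⟩ := caseB hd' (by omega) hB
  apply M_mono_of (by omega)
  intro t
  have := hc t
  have := hc' t
  split_ifs at * <;> omega

/-- The winning components of a good position form an interval. -/
theorem interval {s : Multiset ℕ} (hs : Good s) {d1 d2 d3 : ℕ} (m1 : d1 ∈ s) (m2 : d2 ∈ s)
    (m3 : d3 ∈ s) (h1 : 1 ≤ d1) (h12 : d1 ≤ d2) (h23 : d2 ≤ d3)
    (w1 : ¬ TypeN (move s d1)) (w3 : ¬ TypeN (move s d3)) : ¬ TypeN (move s d2) := by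
  rw [win_iff hs m1 h1] at w1
  rw [win_iff hs m3 (by omega)] at w3
  rw [win_iff hs m2 (by omega)]
  have hc1 := c_one_le' hs
  by_cases hA : c s 1 = 0
  · have a1 := A_up hs m3 (by omega) (Or.inl hA)
    have a2 := A_low hs m1 h1 (Or.inl hA)
    have a3 := A_mono hs m1 m2 h1 h12 hA
    have a4 := A_mono hs m2 m3 (by omega) h23 hA
    have n1 := (caseA hs m1 h1 (Or.inl hA)).1
    have n2 := (caseA hs m2 (by omega) (Or.inl hA)).1
    have n3 := (caseA hs m3 (by omega) (Or.inl hA)).1
    omega
  · have hB : c s 1 = 1 := by omega
    by_cases hd2 : d2 = 1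
    · have : d1 = 1 := by omega
      rw [hd2]; rw [this] at w1; exact w1
    have n2 := (caseB m2 (by omega) hB).1
    have n3 := (caseB m3 (by omega) hB).1
    have a3 := B_up m3 (by omega) hB
    have a23 := B_mono m2 m3 (by omega) h23 hB
    by_cases hd1 : d1 = 1
    · subst hd1
      have n1 := (caseA hs m1 h1 (Or.inr rfl)).1
      have a1 := A_up_one hs m1
      have a2 := A_low hs m1 h1 (Or.inr rfl)
      by_cases hM1 : M (move s 1) = M s
      · -- here the level drops by at most two
        have hlow : M s ≤ M (move s d2) + 2 := by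
          obtain ⟨hN, hc⟩ := caseB m2 (by omega) hB
          obtain ⟨hNa, hca⟩ := caseA hs m1 h1 (Or.inr rfl)
          by_cases hM2 : M s ≤ 2
          · omega
          obtain ⟨t, ht1, ht2⟩ := reach_M (s := move s 1) (by omega)
          rw [hM1] at ht1 ht2
          have e := hca t
          rw [if_pos (by omega)] at e
          have hnr : (M s + 1 - 3) / 2 ≠ (M s - 3) / 2 := by
            intro heq
            have := not_reach_succ' s (t + 1) (by omega)
            omega
          have hev : M s % 2 = 0 := by omega
          have hM4 : M s ≠ 4 := by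
            intro h4
            rw [h4] at ht1 ht2 hnr
            have := not_reach_succ' s (t + 1) 
            rw [h4] at this
            have hTN : t + 1 + 1 = N s := by
              by_contra hcon
              have := this (by omega)
              omega
            -- parity
            have hst := c_step hs (t := t) (by omega)
            have := not_reach_succ' s t (by omega)
            omega
          have hr : Reach (move s d2) (M s - 2) := by
            refine ⟨t, by omega, ?_⟩
            have := hc t
            split_ifs at this <;> omega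
          have := (le_M_iff (s := move s d2) (k := M s - 2) (by omega)).mpr hr
          omega
        omega
      · have a5 := B_low hs m2 (by omega) hB (by omega)
        omega
    · have n1 := (caseB m1 (by omega) hB).1
      have a12 := B_mono m1 m2 (by omega) h12 hB
      by_cases hex : M s ≠ 4 ∨ N s % 2 = 0
      · have a5 := B_low hs m1 (by omega) hB hex
        omega
      · omega

end Pool.Agent.X70.Cookie
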