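import Pool.Agent.X70.Cookie3

/-!
The Grundy values of strict positions of the cookie game.
-/

namespace Pool.Agent.X70.Cookie

open Multiset

/-- The Grundy value: the least natural number that is not the Grundy value of any position
reachable in one move. -/
noncomputable def grundy (s : Multiset ℕ) : ℕ :=
  sInf {m : ℕ | ∀ a : {a : ℕ // a ∈ s}, 1 ≤ a.1 → grundy (move s a.1) ≠ m}
termination_by Multiset.card s
decreasing_by exact card_move_lt a.2

def Rch (s : Multiset ℕ) (k : ℕ) : Prop :=
  ∃ t, t + (k - 1) / 2 + 1 ≤ N s ∧ t + k ≤ 2 * c s t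

theorem Rch.mono {s : Multiset ℕ} {k k' : ℕ} (h : Rch s k') (hk : k ≤ k') : Rch s k := by
  obtain ⟨t, h1, h2⟩ := h
  refine ⟨t, ?_, by omega⟩
  have : (k - 1) / 2 ≤ (k' - 1) / 2 := Nat.div_le_div_right (by omega)
  omega

open Classical in
/-- the level of a position -/
noncomputable def lv (s : Multiset ℕ) : ℕ := Nat.findGreatest (Rch s) (2 * N s)

theorem le_lv_iff {s : Multiset ℕ} {k : ℕ} (hk : 1 ≤ k) : k ≤ lv s ↔ Rch s k := by
  classical
  constructor
  · intro h
    have h0 : lv s ≠ 0 := by omega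
    have : Rch s (lv s) := by
      unfold lv at *
      exact Nat.findGreatest_of_ne_zero rfl h0
    exact this.mono h
  · intro h
    unfold lv
    apply Nat.le_findGreatest _ h
    obtain ⟨t, h1, h2⟩ := h
    have := c_le_N s t
    omega

theorem lv_lt_iff {s : Multiset ℕ} {k : ℕ} (hk : 1 ≤ k) : lv s < k ↔ ¬ Rch s k := by
  rw [← le_lv_iff hk]; omega

theorem rch_lv {s : Multiset ℕ} (h : 1 ≤ lv s) : Rch s (lv s) := (le_lv_iff h).mp le_rfl

theorem not_rch_succ (s : Multiset ℕ) (t : ℕ) (h : t + (lv s + 1 - 1) / 2 + 1 ≤ N s) :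
    2 * c s t < t + lv s + 1 := by
  by_contra hc
  have h1 : Rch s (lv s + 1) := ⟨t, h, by omega⟩
  rw [← le_lv_iff (by omega)] at h1
  omega

theorem lA_up {s : Multiset ℕ} (hs : Good s) {d : ℕ} (hd : d ∈ s) (h1 : 1 ≤ d)
    (hA : c s 1 = 0 ∨ d = 1) : lv (move s d) ≤ lv s + 1 := by
  obtain ⟨hN, hc⟩ := caseA hs hd h1 hA
  by_contra hcon
  have hr : Rch (move s d) (lv s + 2) := (le_lv_iff (by omega)).mp (by omega)
  obtain ⟨t, ht1, ht2⟩ := hr
  have := hc t
  have h3 := not_rch_succ s (t + 1) (by omega)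
  split_ifs at this <;> omega

theorem lA_low {s : Multiset ℕ} (hs : Good s) {d : ℕ} (hd : d ∈ s) (h1 : 1 ≤ d)
    (hA : c s 1 = 0 ∨ d = 1) : lv s ≤ lv (move s d) + 1 := by
  obtain ⟨hN, hc⟩ := caseA hs hd h1 hA
  by_cases hM : lv s ≤ 1
  · omega
  obtain ⟨T, hT1, hT2⟩ := rch_lv (s := s) (by omega)
  have hT0 : T ≠ 0 := by
    rintro rfl
    rw [c_zero] at hT2
    omega
  have hr : Rch (move s d) (lv s - 1) := by
    refine ⟨T - 1, by omega, ?_⟩
    have := hc (T - 1)
    rw [show T - 1 + 1 = T by omega] at this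
    split_ifs at this <;> omega
  have := (le_lv_iff (s := move s d) (k := lv s - 1) (by omega)).mpr hr
  omega

theorem lB_up {s : Multiset ℕ} {d : ℕ} (hd : d ∈ s) (h2 : 2 ≤ d) (hB : c s 1 = 1)
    : lv (move s d) + 1 ≤ lv s := by
  obtain ⟨hN, hc⟩ := caseB hd h2 hB
  have hM1 : 1 ≤ lv s := by
    rw [le_lv_iff le_rfl]
    exact ⟨1, by omega, by omega⟩
  by_contra hcon
  have hr : Rch (move s d) (lv s) := (le_lv_iff hM1).mp (by omega)
  obtain ⟨t, ht1, ht2⟩ := hr
  have := hc t
  have h3 := not_rch_succ s (t + 1) (by omega)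
  split_ifs at this <;> omega

theorem lB_low {s : Multiset ℕ} {d : ℕ} (hd : d ∈ s) (h2 : 2 ≤ d) (hB : c s 1 = 1) :
    lv s ≤ lv (move s d) + 3 := by
  obtain ⟨hN, hc⟩ := caseB hd h2 hB
  by_cases hM : lv s ≤ 3
  · omega
  obtain ⟨T, hT1, hT2⟩ := rch_lv (s := s) (by omega)
  have hT0 : T ≠ 0 := by
    rintro rfl
    rw [c_zero] at hT2
    omega
  have hr : Rch (move s d) (lv s - 3) := by
    refine ⟨T - 1, by omega, ?_⟩
    have := hc (T - 1)
    rw [show T - 1 + 1 = T by omega] at this
    split_ifs at this <;> omega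
  have := (le_lv_iff (s := move s d) (k := lv s - 3) (by omega)).mpr hr
  omega

theorem lfirst {s : Multiset ℕ} (hs : Good s) (hM : 1 ≤ lv s) :
    ∃ T, 1 ≤ T ∧ T + (lv s - 1) / 2 + 1 ≤ N s ∧ T + lv s = 2 * c s T ∧
      (∀ t, t < T → 2 * c s t < t + lv s) ∧ T ∈ s ∧ c s T = c s (T - 1) + 1 := by
  classical
  obtain ⟨T0, h1, h2⟩ := rch_lv hM
  have hex : ∃ T, T + lv s ≤ 2 * c s T := ⟨T0, h2⟩
  have hmin : Nat.find hex ≤ T0 := Nat.find_min' hex h2
  have hspec := Nat.find_spec hex
  have hlt : ∀ t, t < Nat.find hex → 2 * c s t < t + lv s := by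
    intro t ht
    have := Nat.find_min hex ht
    omega
  generalize Nat.find hex = T at *
  have hT0 : T ≠ 0 := by
    rintro rfl
    rw [c_zero] at hspec
    omega
  have hst := c_step hs (t := T - 1) (by omega)
  have hsucc := c_succ s (T - 1)
  rw [show T - 1 + 1 = T by omega] at hst hsucc
  have hl := hlt (T - 1) (by omega)
  refine ⟨T, by omega, by omega, by omega, hlt, ?_, by omega⟩
  have : 0 < s.count T := by omega
  exact Multiset.count_pos.mp this

/-- the residue `lv + 2 N` modulo four always changes -/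
theorem q_ne {s : Multiset ℕ} (hs : Good s) {d : ℕ} (hd : d ∈ s) (h1 : 1 ≤ d) :
    (lv (move s d) + 2 * N (move s d)) % 4 ≠ (lv s + 2 * N s) % 4 := by
  have hc1 := c_one_le' hs
  by_cases hA : c s 1 = 0 ∨ d = 1
  · have a1 := lA_up hs hd h1 hA
    have a2 := lA_low hs hd h1 hA
    have a3 := (caseA hs hd h1 hA).1
    omega
  · push Not at hA
    have hB : c s 1 = 1 := by omega
    have h2 : 2 ≤ d := by omega
    have a1 := lB_up hd h2 hB
    have a2 := lB_low hd h2 hB
    have a3 := (caseB hd h2 hB).1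
    omega

theorem N_pos_of_lv {s : Multiset ℕ} (hM : 1 ≤ lv s) : 2 ≤ N s := by
  obtain ⟨t, h1, h2⟩ := rch_lv hM
  have : t ≠ 0 := by
    rintro rfl
    rw [c_zero] at h2
    omega
  omega

/-- the option at the smallest positive heap -/
theorem opt_min {s : Multiset ℕ} (hs : Good s) (hN1 : 1 ≤ N s) (hpar : lv s % 2 = 1 ∨ lv s = 0) :
    ∃ d ∈ s, 1 ≤ d ∧ N (move s d) + 1 = N s ∧ lv (move s d) = lv s - 1 := by
  obtain ⟨d, hd, h1, hmin⟩ := exists_min hN1
  have hA : c s 1 = 0 ∨ d = 1 := by
    by_contra hcon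
    push Not at hcon
    exact hcon.1 (c_eq_zero hmin (by omega))
  obtain ⟨hN, hc⟩ := caseA hs hd h1 hA
  have key : ∀ k, 1 ≤ k → Rch (move s d) k →
      ∃ T, T + (k - 1) / 2 + 1 ≤ N s ∧ T + k + 1 ≤ 2 * c s T := by
    rintro k hk ⟨t, ht1, ht2⟩
    refine ⟨t + 1, by omega, ?_⟩
    have := hc t
    by_cases hdt : d ≤ t + 1
    · rw [if_pos hdt] at this; omega
    · have h0 := c_eq_zero hmin (t := t + 1) (by omega)
      rw [if_neg hdt] at this; omega
  refine ⟨d, hd, h1, hN, ?_⟩
  have a2 := lA_low hs hd h1 hA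
  by_cases hM0 : lv s = 0
  · have : lv (move s d) = 0 := by
      by_contra hcon
      obtain ⟨T, hT1, hT2⟩ := key 1 le_rfl ((le_lv_iff le_rfl).mp (by omega))
      have := not_rch_succ s T (by omega)
      omega
    omega
  · have : lv (move s d) < lv s := by
      by_contra hcon
      obtain ⟨T, hT1, hT2⟩ := key (lv s) (by omega) ((le_lv_iff (by omega)).mp (by omega))
      have := not_rch_succ s T (by omega)
      omega
    omega

/-- the option at an infinite heap, odd level -/
theorem opt_inf {s : Multiset ℕ} (hs : Good s) (hodd : lv s % 2 = 1) :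
    ∃ d ∈ s, 1 ≤ d ∧
      ((N (move s d) + 1 = N s ∧ lv (move s d) = lv s + 1) ∨
       (N (move s d) + 2 = N s ∧ lv (move s d) = lv s - 1)) := by
  have hc1 := c_one_le' hs
  have hN2 := N_pos_of_lv (s := s) (by omega)
  obtain ⟨d, hd, hdN⟩ := exists_inf hs (by omega)
  obtain ⟨T, hT1, hT2⟩ := rch_lv (s := s) (by omega)
  have hT0 : T ≠ 0 := by
    rintro rfl
    rw [c_zero] at hT2
    omega
  have hd2 : 2 ≤ d := by omega
  refine ⟨d, hd, by omega, ?_⟩
  by_cases hA : c s 1 = 0
  · left
    obtain ⟨hN, hc⟩ := caseA hs hd (by omega) (Or.inl hA)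
    have up := lA_up hs hd (by omega) (Or.inl hA)
    have low : lv s + 1 ≤ lv (move s d) := by
      rw [le_lv_iff (by omega)]
      refine ⟨T - 1, by omega, ?_⟩
      have := hc (T - 1)
      rw [show T - 1 + 1 = T by omega, if_neg (by omega)] at this
      omega
    omega
  · right
    have hB : c s 1 = 1 := by omega
    obtain ⟨hN, hc⟩ := caseB hd hd2 hB
    have up := lB_up hd hd2 hB
    have low : lv s - 1 ≤ lv (move s d) := by
      by_cases hM1 : lv s ≤ 1
      · omega
      rw [le_lv_iff (by omega)]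
      refine ⟨T - 1, by omega, ?_⟩
      have := hc (T - 1)
      rw [show T - 1 + 1 = T by omega, if_neg (by omega)] at this
      omega
    omega

/-- the option at the first passage -/
theorem opt_first {s : Multiset ℕ} (hs : Good s) (hM : 1 ≤ lv s)
    (hex : c s 1 = 0 ∨ 2 ≤ lv s) :
    ∃ d ∈ s, 1 ≤ d ∧
      ((N (move s d) + 1 = N s ∧ lv (move s d) = lv s) ∨
       (N (move s d) + 2 = N s ∧ 2 ≤ lv s ∧ lv (move s d) = lv s - 2)) := by
  have hc1 := c_one_le' hs
  obtain ⟨T, hT1, hT2, hT3, hT4, hT5, hT6⟩ := lfirst hs hM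
  have hT2' : 2 ≤ T := by
    by_contra hcon
    have : T = 1 := by omega
    subst this
    omega
  refine ⟨T, hT5, hT1, ?_⟩
  by_cases hA : c s 1 = 0
  · left
    obtain ⟨hN, hc⟩ := caseA hs hT5 hT1 (Or.inl hA)
    have low : lv s ≤ lv (move s T) := by
      rw [le_lv_iff (by omega)]
      refine ⟨T - 2, by omega, ?_⟩
      have := hc (T - 2)
      rw [show T - 2 + 1 = T - 1 by omega] at this
      rw [if_neg (by omega)] at this
      omega
    have up : lv (move s T) < lv s + 1 := by
      rw [lv_lt_iff (by omega)]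
      rintro ⟨t, ht1, ht2⟩
      have h3 := hc t
      by_cases hTt : T ≤ t + 1
      · rw [if_pos hTt] at h3
        have := not_rch_succ s (t + 1) (by omega)
        omega
      · rw [if_neg hTt] at h3
        have := hT4 (t + 1) (by omega)
        omega
    omega
  · right
    have hB : c s 1 = 1 := by omega
    obtain ⟨hN, hc⟩ := caseB hT5 hT2' hB
    have low : lv s - 2 ≤ lv (move s T) := by
      by_cases hM2 : lv s ≤ 2
      · omega
      rw [le_lv_iff (by omega)]
      refine ⟨T - 2, by omega, ?_⟩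
      have := hc (T - 2)
      rw [show T - 2 + 1 = T - 1 by omega] at this
      rw [if_neg (by omega)] at this
      omega
    have up : lv (move s T) < lv s - 1 := by
      rw [lv_lt_iff (by omega)]
      rintro ⟨t, ht1, ht2⟩
      have h3 := hc t
      by_cases hTt : T ≤ t + 1
      · rw [if_pos hTt] at h3
        have := not_rch_succ s (t + 1) (by omega)
        omega
      · rw [if_neg hTt] at h3
        have := hT4 (t + 1) (by omega)
        omega
    omega

/-- the size of the heap number `(lv s + 1) / 2` in increasing order -/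
noncomputable def er (s : Multiset ℕ) : ℕ := sInf {T | (lv s + 1) / 2 ≤ c s T}

theorem er_spec {s : Multiset ℕ} (hM : 1 ≤ lv s) :
    (lv s + 1) / 2 ≤ c s (er s) ∧ ∀ t, t < er s → c s t < (lv s + 1) / 2 := by
  have hne : {T | (lv s + 1) / 2 ≤ c s T}.Nonempty := by
    obtain ⟨T, h1, h2⟩ := rch_lv hM
    have : T ≠ 0 := by
      rintro rfl
      rw [c_zero] at h2
      omega
    exact ⟨T, by show (lv s + 1) / 2 ≤ c s T; omega⟩
  constructor
  · exact Nat.sInf_mem hne
  · intro t ht
    have := Nat.notMem_of_lt_sInf ht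
    by_contra hcon
    exact this (by show (lv s + 1) / 2 ≤ c s t; omega)

theorem er_eq {s : Multiset ℕ} {e : ℕ} (h1 : (lv s + 1) / 2 ≤ c s e)
    (h2 : ∀ t, t < e → c s t < (lv s + 1) / 2) : er s = e := by
  apply le_antisymm
  · exact Nat.sInf_le h1
  · by_contra hcon
    have h3 : (lv s + 1) / 2 ≤ c s (er s) := Nat.sInf_mem (s := {T | (lv s + 1) / 2 ≤ c s T}) ⟨e, h1⟩
    have := h2 (er s) (by omega)
    omega

/-- moves between positions of odd level flip the parity of `er` -/
theorem er_flip {s : Multiset ℕ} (hs : Good s) {d : ℕ} (hd : d ∈ s) (h1 : 1 ≤ d)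
    (ho : lv s % 2 = 1) (ho' : lv (move s d) % 2 = 1) : er (move s d) + 1 = er s := by
  have hc1 := c_one_le' hs
  obtain ⟨e1, e2⟩ := er_spec (s := s) (by omega)
  have he0 : er s ≠ 0 := by
    intro h0
    rw [h0, c_zero] at e1
    omega
  by_cases hA : c s 1 = 0 ∨ d = 1
  · have a1 := lA_up hs hd h1 hA
    have a2 := lA_low hs hd h1 hA
    obtain ⟨hN, hc⟩ := caseA hs hd h1 hA
    have hlv : lv (move s d) = lv s := by omega
    have hde : er s < d := by
      by_contra hcon
      obtain ⟨t, ht1, ht2⟩ := rch_lv (s := move s d) (by omega)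
      rw [hlv] at ht1 ht2
      have h3 := hc t
      by_cases hdt : d ≤ t + 1
      · rw [if_pos hdt] at h3
        have := not_rch_succ s (t + 1) (by omega)
        omega
      · rw [if_neg hdt] at h3
        have := e2 (t + 1) (by omega)
        omega
    have : er (move s d) = er s - 1 := by
      apply er_eq
      · rw [hlv]
        have h3 := hc (er s - 1)
        rw [show er s - 1 + 1 = er s by omega, if_neg (by omega)] at h3
        omega
      · intro t ht
        rw [hlv]
        have h3 := hc t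
        have h4 := e2 (t + 1) (by omega)
        omega
    omega
  · push Not at hA
    have hB : c s 1 = 1 := by omega
    have h2 : 2 ≤ d := by omega
    have a1 := lB_up hd h2 hB
    have a2 := lB_low hd h2 hB
    obtain ⟨hN, hc⟩ := caseB hd h2 hB
    have hlv : lv (move s d) = lv s - 2 := by omega
    have hde : er s < d := by
      by_contra hcon
      obtain ⟨t, ht1, ht2⟩ := rch_lv (s := move s d) (by omega)
      rw [hlv] at ht1 ht2
      have h3 := hc t
      by_cases hdt : d ≤ t + 1
      · rw [if_pos hdt] at h3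
        have := not_rch_succ s (t + 1) (by omega)
        omega
      · rw [if_neg hdt] at h3
        have := e2 (t + 1) (by omega)
        omega
    have : er (move s d) = er s - 1 := by
      apply er_eq
      · rw [hlv]
        have h3 := hc (er s - 1)
        rw [show er s - 1 + 1 = er s by omega, if_neg (by omega)] at h3
        omega
      · intro t ht
        rw [hlv]
        have h3 := hc t
        have h4 := e2 (t + 1) (by omega)
        omega
    omega

/-- the closed form -/
noncomputable def val (s : Multiset ℕ) : ℕ :=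
  if (lv s + 2 * N s) % 4 = 0 then 0
  else if (lv s + 2 * N s) % 4 = 2 then 1
  else 2 + (er s + 1) % 2

theorem val_ne {s : Multiset ℕ} (hs : Good s) {d : ℕ} (hd : d ∈ s) (h1 : 1 ≤ d) :
    val (move s d) ≠ val s := by
  have hq := q_ne hs hd h1
  unfold val
  split_ifs with h2 h3 h4 h5 h6 h7 h8 <;> try omega
  have := er_flip hs hd h1 (by omega) (by omega)
  omega

theorem val_exists {s : Multiset ℕ} (hs : Good s) {m : ℕ} (hm : m < val s) :
    ∃ d ∈ s, 1 ≤ d ∧ val (move s d) = m := by
  have hc1 := c_one_le' hs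
  by_cases h0 : (lv s + 2 * N s) % 4 = 0
  · unfold val at hm
    rw [if_pos h0] at hm
    omega
  have hN1 : 1 ≤ N s := by
    by_contra hcon
    have h0' : N s = 0 := by omega
    have : lv s = 0 := by
      by_contra hM
      have := N_pos_of_lv (s := s) (by omega)
      omega
    omega
  by_cases h2 : (lv s + 2 * N s) % 4 = 2
  · have hv : val s = 1 := by unfold val; rw [if_neg h0, if_pos h2]
    have hm0 : m = 0 := by omega
    by_cases hM0 : lv s = 0
    · obtain ⟨d, hd, h1, hN, hl⟩ := opt_min hs hN1 (Or.inr hM0)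
      refine ⟨d, hd, h1, ?_⟩
      unfold val
      rw [if_pos (by omega), hm0]
    · obtain ⟨d, hd, h1, hh⟩ := opt_first hs (by omega) (Or.inr (by omega))
      refine ⟨d, hd, h1, ?_⟩
      unfold val
      rw [if_pos (by omega), hm0]
  · have hodd : lv s % 2 = 1 := by omega
    obtain ⟨d1, hd1, h11, hN1', hl1⟩ := opt_min hs hN1 (Or.inl hodd)
    obtain ⟨d2, hd2, h12, hh2⟩ := opt_inf hs hodd
    have hv : val s = 2 + (er s + 1) % 2 := by unfold val; rw [if_neg h0, if_neg h2]
    rcases (show m = 0 ∨ m = 1 ∨ (m = 2 ∧ er s % 2 = 0) by omega) with rfl | rfl | ⟨rfl, he⟩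
    · by_cases hq : (lv s + 2 * N s) % 4 = 3
      · refine ⟨d1, hd1, h11, ?_⟩
        unfold val
        rw [if_pos (by omega)]
      · refine ⟨d2, hd2, h12, ?_⟩
        unfold val
        rw [if_pos (by omega)]
    · by_cases hq : (lv s + 2 * N s) % 4 = 3
      · refine ⟨d2, hd2, h12, ?_⟩
        unfold val
        rw [if_neg (by omega), if_pos (by omega)]
      · refine ⟨d1, hd1, h11, ?_⟩
        unfold val
        rw [if_neg (by omega), if_pos (by omega)]
    · have hex : c s 1 = 0 ∨ 2 ≤ lv s := by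
        by_contra hcon
        push Not at hcon
        have hl1 : lv s = 1 := by omega
        have : er s = 1 := by
          apply er_eq
          · rw [hl1]; omega
          · intro t ht
            have : t = 0 := by omega
            subst this
            rw [c_zero, hl1]; norm_num
        omega
      obtain ⟨d3, hd3, h13, hh3⟩ := opt_first hs (by omega) hex
      refine ⟨d3, hd3, h13, ?_⟩
      have ho' : lv (move s d3) % 2 = 1 := by omega
      have hf := er_flip hs hd3 h13 hodd ho'
      unfold val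
      rw [if_neg (by omega), if_neg (by omega)]
      omega

theorem grundy_eq_val : ∀ (k : ℕ) (s : Multiset ℕ), Multiset.card s ≤ k → Good s →
    grundy s = val s := by
  intro k
  induction k with
  | zero =>
    intro s hk hs
    have h0 : s = 0 := by
      rw [← Multiset.card_eq_zero]; omega
    have hempty : ∀ d ∈ s, False := by
      intro d hd
      rw [h0] at hd
      exact absurd hd (Multiset.notMem_zero d)
    have hv : val s = 0 := by
      by_contra hcon
      obtain ⟨d, hd, _⟩ := val_exists hs (m := 0) (by omega)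
      exact hempty d hd
    rw [hv, grundy]
    have : (0 : ℕ) ∈ {m : ℕ | ∀ a : {a : ℕ // a ∈ s}, 1 ≤ a.1 → grundy (move s a.1) ≠ m} := by
      intro a
      exact absurd a.2 (fun h => hempty _ h)
    exact Nat.le_zero.mp (Nat.sInf_le this)
  | succ k ih =>
    intro s hk hs
    have hopt : ∀ d ∈ s, 1 ≤ d → grundy (move s d) = val (move s d) := by
      intro d hd h1
      have := card_move_lt hd
      exact ih _ (by omega) (good_move hs hd h1)
    rw [grundy]
    have hmem : val s ∈ {m : ℕ | ∀ a : {a : ℕ // a ∈ s}, 1 ≤ a.1 → grundy (move s a.1) ≠ m} := by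
      intro a h1
      rw [hopt a.1 a.2 h1]
      exact val_ne hs a.2 h1
    apply le_antisymm
    · exact Nat.sInf_le hmem
    · by_contra hcon
      push Not at hcon
      have h3 := Nat.sInf_mem (s := {m : ℕ | ∀ a : {a : ℕ // a ∈ s}, 1 ≤ a.1 →
        grundy (move s a.1) ≠ m}) ⟨_, hmem⟩
      obtain ⟨d, hd, h1, hv⟩ := val_exists hs hcon
      have h4 := h3 ⟨d, hd⟩ h1
      apply h4
      show grundy (move s d) = _
      rw [hopt d hd h1, hv]

theorem grundy_eq_val' {s : Multiset ℕ} (hs : Good s) : grundy s = val s :=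
  grundy_eq_val _ s le_rfl hs

end Pool.Agent.X70.Cookie
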